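import Pool.Agent.Helper57.LH.Gone

namespace Pool.Agent.Helper57.LS

open Set MeasureTheory Filter Topology Complex
open Pool.Agent.Helper57.LH
open scoped FourierTransform

/-- the triangle function -/
noncomputable def tri (v : ℝ) : ℝ := max 0 (1 - |v|)

lemma tri_cont : Continuous tri := by unfold tri; fun_prop
lemma tri_nonneg (v : ℝ) : 0 ≤ tri v := le_max_left _ _
lemma tri_le_one (v : ℝ) : tri v ≤ 1 := by
  unfold tri; have := abs_nonneg v; exact max_le (by norm_num) (by linarith)
lemma tri_even (v : ℝ) : tri (-v) = tri v := by unfold tri; rw [abs_neg]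

lemma tri_zero_of {v : ℝ} (hv : 1 ≤ |v|) : tri v = 0 := by
  unfold tri; exact max_eq_left (by linarith)

lemma tri_of {v : ℝ} (hv0 : 0 ≤ v) (hv : v ≤ 1) : tri v = 1 - v := by
  unfold tri; rw [abs_of_nonneg hv0]; exact max_eq_right (by linarith)

lemma tri_compact : HasCompactSupport tri := by
  apply HasCompactSupport.intro (isCompact_Icc (a := (-1:ℝ)) (b := 1))
  intro x hx
  apply tri_zero_of
  by_contra h
  push Not at h
  exact hx (abs_le.mp h.le)

lemma tri_integrable : Integrable tri := tri_cont.integrable_of_hasCompactSupport tri_compact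

/-- integrals of even functions against the triangle -/
lemma tri_half (n : ℕ) (hn : n ≠ 0) (φ : ℝ → ℝ) (he : ∀ v, φ (-v) = φ v) :
    ∫ v, tri v ^ n * φ v = 2 * ∫ v in (0:ℝ)..1, (1 - v) ^ n * φ v := by
  have h1 : ∀ x : ℝ, tri x ^ n * φ x = (fun y => tri y ^ n * φ y) |x| := by
    intro x
    simp only
    rcases abs_cases x with ⟨h, _⟩ | ⟨h, _⟩
    · rw [h]
    · rw [h, he, tri_even]
  have h1' : ∫ x, tri x ^ n * φ x = ∫ x, (fun y => tri y ^ n * φ y) |x| := by
    congr 1
    funext x
    exact h1 x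
  rw [h1', integral_comp_abs (f := fun y => tri y ^ n * φ y)]
  congr 1
  rw [intervalIntegral.integral_of_le zero_le_one]
  rw [setIntegral_eq_of_subset_of_forall_sdiff_eq_zero (s := Ioc 0 1) measurableSet_Ioi Ioc_subset_Ioi_self]
  · apply setIntegral_congr_fun measurableSet_Ioc
    intro x hx
    simp only
    rw [tri_of hx.1.le hx.2]
  · intro x hx
    have h1 : 0 < x := hx.1
    have h2 : 1 ≤ |x| := by
      rw [abs_of_pos h1]
      by_contra h3
      push Not at h3
      exact hx.2 ⟨h1, h3.le⟩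
    rw [tri_zero_of h2, zero_pow hn, zero_mul]

lemma sc_tri (w : ℝ) : sc w = 2 * ∫ v in (0:ℝ)..1, (1 - v) * Real.cos (2 * Real.pi * w * v) := by
  unfold sc
  rw [gs_eq]
  have hpi := Real.pi_pos
  have h1 := intervalIntegral.integral_comp_mul_left (a := 0) (b := 1)
    (fun x => (1 - x / (2 * Real.pi)) * (Real.cosh (0 * x) * Real.cos (w * x))) (show (2 * Real.pi : ℝ) ≠ 0 by positivity)
  simp only [mul_zero, mul_one, zero_mul, Real.cosh_zero, one_mul, smul_eq_mul] at h1 ⊢
  have h2 : ∫ x in (0:ℝ)..(2 * Real.pi), (1 - x / (2 * Real.pi)) * Real.cos (w * x) =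
      (2 * Real.pi) * ∫ x in (0:ℝ)..1, (1 - 2 * Real.pi * x / (2 * Real.pi)) * Real.cos (w * (2 * Real.pi * x)) := by
    rw [h1, ← mul_assoc, mul_inv_cancel₀ (by positivity : (2 * Real.pi : ℝ) ≠ 0), one_mul]
  rw [h2]
  have h3 : ∫ x in (0:ℝ)..1, (1 - 2 * Real.pi * x / (2 * Real.pi)) * Real.cos (w * (2 * Real.pi * x)) =
      ∫ v in (0:ℝ)..1, (1 - v) * Real.cos (2 * Real.pi * w * v) := by
    apply intervalIntegral.integral_congr
    intro x _
    simp only
    rw [mul_div_assoc, mul_div_cancel₀ _ (by positivity : (2 * Real.pi : ℝ) ≠ 0)]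
    congr 2
    ring
  rw [h3, ← mul_assoc, div_mul_cancel₀ _ (by positivity : (2 * Real.pi : ℝ) ≠ 0)]

lemma sc_int (w : ℝ) : ∫ v, tri v * Real.cos (2 * Real.pi * w * v) = sc w := by
  have h := tri_half 1 one_ne_zero (fun v => Real.cos (2 * Real.pi * w * v)) (fun v => by
    rw [mul_neg, Real.cos_neg])
  simp only [pow_one] at h
  rw [h, sc_tri]

lemma even_FT {f : ℝ → ℝ} (hf : Integrable f) (hc : AEStronglyMeasurable f) (he : ∀ v, f (-v) = f v) (w : ℝ) :
    ∫ x : ℝ, cexp ((w * x : ℝ) * I) * (f x : ℂ) = ((∫ x, f x * Real.cos (w * x) : ℝ) : ℂ) := by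
  have hint : Integrable (fun x : ℝ => cexp ((w * x : ℝ) * I) * (f x : ℂ)) := by
    have hI : Integrable (fun x : ℝ => (f x : ℂ)) := hf.ofReal
    refine hI.mono ?_ ?_
    · apply AEStronglyMeasurable.mul
      · apply Continuous.aestronglyMeasurable; fun_prop
      · exact Complex.continuous_ofReal.comp_aestronglyMeasurable hc
    · filter_upwards with x
      rw [norm_mul, Complex.norm_exp_ofReal_mul_I, one_mul]
  apply Complex.ext
  · rw [← Complex.reCLM_apply, ← Complex.reCLM.integral_comp_comm hint, Complex.ofReal_re]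
    simp only [Complex.reCLM_apply]
    congr 1
    funext x
    rw [mul_comm, Complex.re_ofReal_mul, Complex.exp_ofReal_mul_I_re]
  · rw [← Complex.imCLM_apply, ← Complex.imCLM.integral_comp_comm hint, Complex.ofReal_im]
    simp only [Complex.imCLM_apply]
    set g : ℝ → ℝ := fun x => (cexp ((w * x : ℝ) * I) * (f x : ℂ)).im with hg
    have hodd : ∀ x, g (-x) = - g x := by
      intro x
      simp only [hg]
      rw [he, mul_comm, Complex.im_ofReal_mul, Complex.exp_ofReal_mul_I_im, mul_comm (cexp _), Complex.im_ofReal_mul, Complex.exp_ofReal_mul_I_im,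
        mul_neg, Real.sin_neg]
      ring
    have h1 := integral_neg_eq_self g volume
    simp_rw [hodd] at h1
    rw [integral_neg] at h1
    linarith

lemma fourier_even {f : ℝ → ℝ} (hf : Integrable f) (hc : AEStronglyMeasurable f) (he : ∀ v, f (-v) = f v) (w : ℝ) :
    𝓕 (fun x : ℝ => (f x : ℂ)) w = ((∫ x, f x * Real.cos (2 * Real.pi * w * x) : ℝ) : ℂ) := by
  rw [Real.fourier_real_eq_integral_exp_smul]
  have h1 := even_FT hf hc he (-(2 * Real.pi * w))
  have h2 : ∀ x : ℝ, Real.cos (-(2 * Real.pi * w) * x) = Real.cos (2 * Real.pi * w * x) := by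
    intro x; rw [neg_mul, Real.cos_neg]
  simp_rw [h2] at h1
  rw [← h1]
  congr 1
  funext x
  rw [smul_eq_mul]
  congr 3
  push_cast
  ring

/-- inversion for even real functions -/
lemma inv_even {f g : ℝ → ℝ} (hf : Integrable f) (hfc : Continuous f) (he : ∀ v, f (-v) = f v)
    (hg : Integrable g) (hge : ∀ v, g (-v) = g v) (h : ∀ w, ∫ x, f x * Real.cos (2 * Real.pi * w * x) = g w) (y : ℝ) :
    ∫ w, g w * Real.cos (2 * Real.pi * y * w) = f y := by
  set F : ℝ → ℂ := fun x => (f x : ℂ) with hF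
  have hfi : Integrable F := hf.ofReal
  have hFF : 𝓕 F = fun w => (g w : ℂ) := by
    funext w
    rw [hF, fourier_even hf hf.aestronglyMeasurable he, h]
  have hFi : Integrable (𝓕 F) := by rw [hFF]; exact hg.ofReal
  have h1 := hfi.fourierInv_fourier_eq hFi (v := y) ((Complex.continuous_ofReal.comp hfc).continuousAt)
  rw [Real.fourierInv_eq', hFF] at h1
  have h2 := even_FT hg hg.aestronglyMeasurable hge (2 * Real.pi * y)
  have h3 : ∫ v : ℝ, cexp (((2 * Real.pi * inner ℝ v y : ℝ) : ℂ) * I) • (g v : ℂ) = ∫ x : ℝ, cexp ((2 * Real.pi * y * x : ℝ) * I) * (g x : ℂ) := by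
    congr 1
    funext v
    rw [smul_eq_mul]
    congr 3
    simp
    ring
  rw [h3, h2, hF] at h1
  exact Complex.ofReal_injective h1

/-- the Fourier transform of sinc squared -/
lemma sc_FT (v : ℝ) : ∫ x, sc x * Real.cos (2 * Real.pi * v * x) = tri v :=
  inv_even tri_integrable tri_cont tri_even sc_integrable sc_even sc_int v

lemma cos_sub_expand (y x v : ℝ) : Real.cos (2 * Real.pi * (y - x) * v) =
    Real.cos (2 * Real.pi * y * v) * Real.cos (2 * Real.pi * v * x) + Real.sin (2 * Real.pi * y * v) * Real.sin (2 * Real.pi * v * x) := by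
  rw [← Real.cos_sub]; congr 1; ring

lemma odd_int {f : ℝ → ℝ} (he : ∀ v, f (-v) = f v) (a : ℝ) : ∫ x, f x * Real.sin (a * x) = 0 := by
  have h1 := integral_neg_eq_self (fun x => f x * Real.sin (a * x)) volume
  have h2 : ∀ x, f (-x) * Real.sin (a * -x) = -(f x * Real.sin (a * x)) := by
    intro x; rw [he, mul_neg, Real.sin_neg]; ring
  simp_rw [h2] at h1
  rw [integral_neg] at h1
  linarith

lemma int_shift_cos {f : ℝ → ℝ} (hf : Integrable f) (he : ∀ v, f (-v) = f v) (y v : ℝ) :
    ∫ x, f x * Real.cos (2 * Real.pi * (y - x) * v) = Real.cos (2 * Real.pi * y * v) * ∫ x, f x * Real.cos (2 * Real.pi * v * x) := by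
  have e1 : ∀ x, f x * Real.cos (2 * Real.pi * (y - x) * v) = Real.cos (2 * Real.pi * y * v) * (f x * Real.cos (2 * Real.pi * v * x)) +
      Real.sin (2 * Real.pi * y * v) * (f x * Real.sin (2 * Real.pi * v * x)) := by
    intro x; rw [cos_sub_expand]; ring
  simp_rw [e1]
  have i1 : Integrable (fun x => f x * Real.cos (2 * Real.pi * v * x)) := by
    refine hf.mono (hf.aestronglyMeasurable.mul (by fun_prop)) ?_
    filter_upwards with x
    rw [norm_mul]
    have := Real.abs_cos_le_one (2 * Real.pi * v * x)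
    rw [Real.norm_eq_abs (Real.cos _)]
    nlinarith [norm_nonneg (f x)]
  have i2 : Integrable (fun x => f x * Real.sin (2 * Real.pi * v * x)) := by
    refine hf.mono (hf.aestronglyMeasurable.mul (by fun_prop)) ?_
    filter_upwards with x
    rw [norm_mul]
    have := Real.abs_sin_le_one (2 * Real.pi * v * x)
    rw [Real.norm_eq_abs (Real.sin _)]
    nlinarith [norm_nonneg (f x)]
  rw [integral_add (i1.const_mul _) (i2.const_mul _), integral_const_mul, integral_const_mul, odd_int he, mul_zero, add_zero]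

/-- convolution of an integrable even function with a cosine transform of the triangle power -/
lemma conv_tri {f h : ℝ → ℝ} (hf : Integrable f) (he : ∀ v, f (-v) = f v) (hh : Integrable h) (y : ℝ) :
    ∫ x, f x * ∫ v, h v * Real.cos (2 * Real.pi * (y - x) * v) =
      ∫ v, h v * (Real.cos (2 * Real.pi * y * v) * ∫ x, f x * Real.cos (2 * Real.pi * v * x)) := by
  have e1 : ∀ x, f x * ∫ v, h v * Real.cos (2 * Real.pi * (y - x) * v) = ∫ v, f x * (h v * Real.cos (2 * Real.pi * (y - x) * v)) := by
    intro x; rw [integral_const_mul]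
  simp_rw [e1]
  rw [integral_integral_swap]
  · congr 1
    funext v
    have e2 : ∀ x, f x * (h v * Real.cos (2 * Real.pi * (y - x) * v)) = h v * (f x * Real.cos (2 * Real.pi * (y - x) * v)) := by
      intro x; ring
    simp_rw [e2]
    rw [integral_const_mul, int_shift_cos hf he]
  · have h1 : Integrable (fun p : ℝ × ℝ => f p.1 * h p.2) (volume.prod volume) := hf.mul_prod hh
    refine h1.mono ?_ ?_
    · have h2 : AEStronglyMeasurable (fun p : ℝ × ℝ => f p.1 * h p.2 * Real.cos (2 * Real.pi * (y - p.1) * p.2)) (volume.prod volume) :=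
        h1.aestronglyMeasurable.mul (by fun_prop)
      refine h2.congr ?_
      filter_upwards with p
      simp only [Function.uncurry]
      ring
    · filter_upwards with p
      simp only [Function.uncurry]
      rw [show f p.1 * (h p.2 * Real.cos (2 * Real.pi * (y - p.1) * p.2)) = f p.1 * h p.2 * Real.cos (2 * Real.pi * (y - p.1) * p.2) by ring, norm_mul]
      have := Real.abs_cos_le_one (2 * Real.pi * (y - p.1) * p.2)
      rw [Real.norm_eq_abs (Real.cos _)]
      nlinarith [norm_nonneg (f p.1 * h p.2)]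

/-- Fourier representation of the kernel -/
lemma Gm_int (y : ℝ) : Gm y = ∫ v, tri v ^ 2 * Real.cos (2 * Real.pi * y * v) := by
  unfold Gm
  have e1 : ∀ x, sc x * sc (y - x) = sc x * ∫ v, tri v * Real.cos (2 * Real.pi * (y - x) * v) := by
    intro x; rw [sc_int]
  simp_rw [e1]
  rw [conv_tri sc_integrable sc_even tri_integrable]
  congr 1
  funext v
  rw [sc_FT]
  ring

lemma Gm_FT (y : ℝ) : Gm y = 2 * ∫ v in (0:ℝ)..1, (1 - v) ^ 2 * Real.cos (2 * Real.pi * y * v) := by
  rw [Gm_int]
  exact tri_half 2 two_ne_zero (fun v => Real.cos (2 * Real.pi * y * v)) (fun v => by rw [mul_neg, Real.cos_neg])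

end Pool.Agent.Helper57.LS
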