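import Pool.Agent.Helper57.LS.KernelLaw
import Pool.Agent.Helper57.LS.GmFT
import Pool.Agent.Helper4.PC.NVb

namespace Pool.Agent.Helper57.LS

open Set MeasureTheory Filter Topology
open Pool.Agent.Helper57.LH
open Pool.Agent.Helper57.Zeta
open Pool.Agent.Helper57.PC
open Pool.Agent.Helper4.PC (gh gh_integrable CT_gh EE KernelLaw Gs_integrable)

lemma tri_eq' (ξ : ℝ) : Pool.Agent.Helper4.PC.tri ξ = tri ξ := rfl

lemma tri_abs (x : ℝ) : tri |x| = tri x := by unfold tri; rw [abs_abs]

/-- the form factor integral -/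
lemma form_int {B : ℝ} (hB : 1 ≤ B) (v : ℝ) : ∫ ξ, gh B ξ * (Real.cos (2 * Real.pi * v * ξ) * (1 - tri ξ)) = cS (v / B) / B := by
  have hB0 : 0 < B := by linarith
  have e1 : ∀ ξ : ℝ, gh B ξ * (Real.cos (2 * Real.pi * v * ξ) * (1 - tri ξ)) =
      (fun x => B * (tri x ^ 2 * (Real.cos (2 * Real.pi * (v / B) * x) * (|x| / B)))) (B * ξ) := by
    intro ξ
    simp only
    unfold gh
    rw [tri_eq']
    by_cases h : |ξ| ≤ 1
    · have h2 : tri ξ = 1 - |ξ| := by
        unfold tri; exact max_eq_right (by linarith)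
      rw [h2, abs_mul, abs_of_pos hB0, show 2 * Real.pi * (v / B) * (B * ξ) = 2 * Real.pi * v * ξ by field_simp]
      field_simp
      ring
    · push Not at h
      have h3 : tri (B * ξ) = 0 := by
        apply tri_zero_of
        rw [abs_mul, abs_of_pos hB0]
        nlinarith
      rw [h3]; ring
  simp_rw [e1]
  rw [Measure.integral_comp_mul_left (fun x => B * (tri x ^ 2 * (Real.cos (2 * Real.pi * (v / B) * x) * (|x| / B)))) B, integral_const_mul,
    abs_of_pos (by positivity), smul_eq_mul, ← mul_assoc, inv_mul_cancel₀ hB0.ne', one_mul]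
  rw [tri_half 2 two_ne_zero (fun x => Real.cos (2 * Real.pi * (v / B) * x) * (|x| / B)) (fun x => by
    rw [mul_neg, Real.cos_neg, abs_neg])]
  unfold cS
  rw [mul_div_assoc, ← intervalIntegral.integral_div]
  congr 1
  apply intervalIntegral.integral_congr
  intro x hx
  rw [uIcc_of_le zero_le_one] at hx
  simp only
  rw [abs_of_nonneg hx.1]
  ring

/-- the prediction for the shifted kernel -/
lemma pred_kernel {B : ℝ} (hB : 1 ≤ B) (v : ℝ) :
    Gm ((0 - v) / B) + ∫ u, Gm ((u - v) / B) * pcDensity u = B + cS (v / B) / B := by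
  have hB0 : 0 < B := by linarith
  have hG := Gs_integrable hB0 v
  have h0 : Gm ((0 - v) / B) = ∫ ξ, gh B ξ * Real.cos (2 * Real.pi * v * ξ) := by
    have h := CT_gh hB0 v
    unfold Pool.Agent.Helper4.PC.CT at h
    rw [h, ← Gm_even]
    congr 1; ring
  have h1 : ∫ u, Gm ((u - v) / B) * pcDensity u = B - ∫ u, sc u * Gm ((u - v) / B) := by
    have hs : Integrable (fun u => sc u * Gm ((u - v) / B)) := by
      refine hG.norm.mono' (sc_cont.aestronglyMeasurable.mul hG.aestronglyMeasurable) ?_
      filter_upwards with u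
      rw [norm_mul, Real.norm_of_nonneg (sc_nonneg u)]
      exact mul_le_of_le_one_left (norm_nonneg _) (sc_le_one u)
    have h2 : ∫ u, Gm ((u - v) / B) = B := by
      have h3 : ∫ u, (fun x => Gm (x / B)) (u - v) = ∫ u, Gm (u / B) := integral_sub_right_eq_self (fun x => Gm (x / B)) v
      have h4 : ∫ u, Gm (u / B) = B := by
        rw [Measure.integral_comp_div Gm B, Gm_integral, abs_of_pos hB0, smul_eq_mul, mul_one]
      rw [h4] at h3; exact h3
    nth_rewrite 2 [← h2]
    rw [← integral_sub hG hs]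
    apply integral_congr_ae
    filter_upwards [sc_ae] with u hu
    rw [pcDensity_eq, hu]; ring
  have h2 : ∫ u, sc u * Gm ((u - v) / B) = ∫ ξ, gh B ξ * (Real.cos (2 * Real.pi * v * ξ) * tri ξ) := by
    have e1 : ∀ u, sc u * Gm ((u - v) / B) = sc u * ∫ ξ, gh B ξ * Real.cos (2 * Real.pi * (v - u) * ξ) := by
      intro u
      have h := CT_gh hB0 (v - u)
      unfold Pool.Agent.Helper4.PC.CT at h
      rw [h, ← Gm_even]
      congr 2; ring
    simp_rw [e1]
    rw [conv_tri sc_integrable sc_even (gh_integrable hB0)]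
    congr 1
    funext ξ
    rw [sc_FT]
  rw [h0, h1, h2, ← form_int hB v]
  have hi1 : Integrable (fun ξ => gh B ξ * Real.cos (2 * Real.pi * v * ξ)) := by
    refine (gh_integrable hB0).norm.mono' ((gh_integrable hB0).aestronglyMeasurable.mul (by fun_prop)) ?_
    filter_upwards with ξ
    rw [norm_mul]
    exact mul_le_of_le_one_right (norm_nonneg _) (Real.abs_cos_le_one _)
  have hi2 : Integrable (fun ξ => gh B ξ * (Real.cos (2 * Real.pi * v * ξ) * tri ξ)) := by
    refine (gh_integrable hB0).norm.mono' ((gh_integrable hB0).aestronglyMeasurable.mul (by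
      apply Continuous.aestronglyMeasurable
      have := tri_cont
      fun_prop)) ?_
    filter_upwards with ξ
    rw [norm_mul]
    apply mul_le_of_le_one_right (norm_nonneg _)
    rw [norm_mul, Real.norm_of_nonneg (tri_nonneg ξ)]
    calc ‖Real.cos (2 * Real.pi * v * ξ)‖ * tri ξ ≤ 1 * 1 := by
          gcongr
          · exact tri_nonneg ξ
          · exact Real.abs_cos_le_one _
          · exact tri_le_one ξ
      _ = 1 := one_mul 1
  have e3 : ∫ ξ, gh B ξ * (Real.cos (2 * Real.pi * v * ξ) * (1 - tri ξ)) =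
      (∫ ξ, gh B ξ * Real.cos (2 * Real.pi * v * ξ)) - ∫ ξ, gh B ξ * (Real.cos (2 * Real.pi * v * ξ) * tri ξ) := by
    rw [← integral_sub hi1 hi2]
    congr 1
    funext ξ
    ring
  rw [e3]
  ring

/-- The kernel law in terms of the deviation functional. -/
theorem kernelLaw : ∃ C : ℝ, 0 < C ∧ KernelLaw C := by
  obtain ⟨C, hC, h⟩ := kernel_law
  refine ⟨C, hC, fun B hB v => ?_⟩
  filter_upwards [h B hB v] with T hT
  unfold EE
  rw [pred_kernel (by linarith) v]
  exact hT

end Pool.Agent.Helper57.LS
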