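import Pool.Agent.Helper57.LS.SuperGen

namespace Pool.Agent.Helper57.LS

open Set MeasureTheory Filter Topology
open Pool.Agent.Helper57.LH
open Pool.Agent.Helper57.Zeta
open Pool.Agent.Helper57.PC
open Pool.Agent.Helper4.PC (gh gh_integrable CT_gh EE KernelLaw Gs_integrable WP_shift Gm_lower EE_add EE_smul phiF_int pcDensity_measurable)
open scoped SchwartzMap FourierTransform

/-- the odd multiplier -/
noncomputable def a1 (a : 𝓢(ℝ, ℝ)) (t : ℝ) : ℝ := (a t - a (-t)) / 2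

lemma a1_int (a : 𝓢(ℝ, ℝ)) : Integrable (a1 a) := by
  have h1 : Integrable (fun t => a t) := a.integrable
  exact (h1.sub h1.comp_neg).div_const 2

lemma a1_cont (a : 𝓢(ℝ, ℝ)) : Continuous (a1 a) := by
  unfold a1
  have := a.continuous
  fun_prop

lemma Ho_conv' (a : 𝓢(ℝ, ℝ)) (ha : ∀ ξ ∈ Icc (0:ℝ) 1, ∫ t, a t * Real.sin (2 * Real.pi * t * ξ) = ξ) (z : ℝ) :
    Ho z = ∫ t, a1 a t * Gm (z - t) := by
  rw [Ho_conv a ha]
  have hb : ∀ (f : ℝ → ℝ), Integrable f → ∀ z : ℝ, Integrable (fun t => f t * Gm (z - t)) := by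
    intro f hf z
    refine (hf.norm.mul_const (Gm 0)).mono' (hf.aestronglyMeasurable.mul (Gm_cont.comp (by fun_prop)).aestronglyMeasurable) ?_
    filter_upwards with t
    rw [norm_mul, Real.norm_of_nonneg (Gm_nonneg _)]
    have := Gm_le (z - t)
    gcongr
  have hA : Integrable (fun t => a t) := a.integrable
  have i1 := hb _ hA z
  have i2 := hb _ hA.comp_neg z
  have i3 : Integrable (fun t => a t * Gm (z + t)) := by
    have := i2.comp_neg
    simpa using this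
  have e1 : ∫ t, a (-t) * Gm (z - t) = ∫ t, a t * Gm (z + t) := by
    rw [← integral_neg_eq_self (fun t => a t * Gm (z + t)) volume]
    rfl
  have e2 : ∫ t, a1 a t * Gm (z - t) = ((∫ t, a t * Gm (z - t)) - ∫ t, a (-t) * Gm (z - t)) / 2 := by
    rw [← integral_sub i1 i2, ← integral_div]
    congr 1
    funext t
    unfold a1
    ring
  rw [e2, e1, ← integral_sub i1 i3, ← integral_div]
  congr 1
  funext t
  ring

lemma odd_law {C : ℝ} (hC : 0 < C) (hU : ∀ᶠ T : ℝ in atTop, ∀ B : ℝ, 0 < B → ∀ v : ℝ, |EE T (fun u => Gm ((u - v) / B))| ≤ C * (1 + B) * SN T)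
    (hL : ∀ B : ℝ, 0 < B → ∀ v : ℝ, ∀ᶠ T : ℝ in atTop, |EE T (fun u => Gm ((u - v) / B))| ≤ C / B ^ 2 * SN T)
    (g : 𝓢(ℝ, ℝ)) (hg : ∀ x, g (-x) = -g x) : ∃ K : ℝ, 0 ≤ K ∧ ∀ R : ℝ, 0 < R → ∀ s : ℝ,
    ∀ᶠ T : ℝ in atTop, |EE T (fun u => g ((u - s) / R))| ≤ K / R ^ 2 * SN T := by
  obtain ⟨a, ha⟩ := exists_sine
  have hpi := Real.pi_pos
  set q := wg (prS g hg) with hq
  have hqc : Continuous q := wg_cont _
  set I4 : ℝ := ∫ x in Ioi (0:ℝ), |q x| * x ^ 4 with hI4
  set A : ℝ := ∫ t, |a1 a t| with hA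
  have hI4' : 0 ≤ I4 := by
    rw [hI4]
    apply setIntegral_nonneg measurableSet_Ioi
    intro x _
    positivity
  have hA' : 0 ≤ A := integral_nonneg fun _ => abs_nonneg _
  refine ⟨C * (2 * Real.pi * I4 * A) + 1, by positivity, fun R hR s => ?_⟩
  set μ : Measure (ℝ × ℝ) := (volume.restrict (Ioi (0:ℝ))).prod volume with hμ
  set w : ℝ × ℝ → ℝ := fun p => (-(2 * Real.pi) * q p.1 * p.1 ^ 2) * a1 a p.2 with hw
  set B : ℝ × ℝ → ℝ := fun p => R / p.1 with hB
  set v : ℝ × ℝ → ℝ := fun p => s + p.2 * (R / p.1) with hv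
  have hwm : Measurable w := by
    apply Continuous.measurable
    have := a1_cont a
    fun_prop
  have hBm : Measurable B := measurable_const.div measurable_fst
  have hvm : Measurable v := measurable_const.add (measurable_snd.mul (measurable_const.div measurable_fst))
  have hpos : ∀ᵐ p : ℝ × ℝ ∂μ, 0 < p.1 := by
    have h3 := Measure.quasiMeasurePreserving_fst (μ := volume.restrict (Ioi (0:ℝ))) (ν := (volume : Measure ℝ))
    exact h3.ae (ae_restrict_mem measurableSet_Ioi)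
  have hBp : ∀ᵐ p : ℝ × ℝ ∂μ, 0 < B p := by
    filter_upwards [hpos] with p hp
    rw [hB]
    positivity
  have h1 : Integrable (fun p => |w p| * (1 + B p)) μ := by
    have j1 : IntegrableOn (fun x => 2 * Real.pi * (|q x| * x ^ 2 + R * (|q x| * x ^ 1))) (Ioi 0) :=
      ((wg_int (prS g hg) 2).add ((wg_int (prS g hg) 1).const_mul R)).const_mul _
    have j2 := Integrable.mul_prod (f := fun x => 2 * Real.pi * (|q x| * x ^ 2 + R * (|q x| * x ^ 1))) (g := fun t => |a1 a t|) j1 (a1_int a).abs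
    refine j2.congr ?_
    filter_upwards [hpos] with p hp
    rw [hw, hB]
    simp only
    rw [abs_mul, abs_mul, abs_mul, abs_neg, abs_of_pos (by positivity : 0 < 2 * Real.pi), abs_of_nonneg (by positivity : 0 ≤ p.1 ^ 2)]
    field_simp
  have hW2 : ∀ᵐ p : ℝ × ℝ ∂μ, |w p| / B p ^ 2 = (2 * Real.pi / R ^ 2 * (|q p.1| * p.1 ^ 4)) * |a1 a p.2| := by
    filter_upwards [hpos] with p hp
    rw [hw, hB]
    simp only
    rw [abs_mul, abs_mul, abs_mul, abs_neg, abs_of_pos (by positivity : 0 < 2 * Real.pi), abs_of_nonneg (by positivity : 0 ≤ p.1 ^ 2)]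
    field_simp
  have h2 : Integrable (fun p => |w p| / B p ^ 2) μ := by
    have j1 : IntegrableOn (fun x => 2 * Real.pi / R ^ 2 * (|q x| * x ^ 4)) (Ioi 0) := (wg_int (prS g hg) 4).const_mul _
    have j2 := Integrable.mul_prod (f := fun x => 2 * Real.pi / R ^ 2 * (|q x| * x ^ 4)) (g := fun t => |a1 a t|) j1 (a1_int a).abs
    refine j2.congr ?_
    filter_upwards [hW2] with p hp
    exact hp.symm
  have h2' : ∫ p, |w p| / B p ^ 2 ∂μ = 2 * Real.pi * I4 * A / R ^ 2 := by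
    rw [integral_congr_ae hW2, hμ, integral_prod_mul (fun x => 2 * Real.pi / R ^ 2 * (|q x| * x ^ 4)) (fun t => |a1 a t|), integral_const_mul, ← hI4, ← hA]
    ring
  have hf : (fun u => g ((u - s) / R)) = fun u => ∫ p, w p * Gm ((u - v p) / B p) ∂μ := by
    funext u
    have hint := gK_int (μ := μ) hwm hBm hvm hBp h1 u
    rw [hμ, integral_prod _ hint, odd_rep g hg]
    apply setIntegral_congr_fun measurableSet_Ioi
    intro x hx
    have hx0 : 0 < x := hx
    simp only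
    rw [Ho_conv' a ha, ← integral_const_mul]
    congr 1
    funext t
    rw [hw, hB, hv]
    simp only
    have e : x * ((u - s) / R) - t = (u - (s + t * (R / x))) / (R / x) := by
      field_simp
      ring
    rw [e]
    ring
  rw [hf]
  have h3 := law_gen (μ := μ) hC hU hL hwm hBm hvm hBp h1 h2 (ε := 1 / R ^ 2) (by positivity)
  filter_upwards [h3] with T hT
  refine hT.trans (le_of_eq ?_)
  rw [h2']
  ring

/-- negation as a Schwartz map operation -/
noncomputable def ngS (g : 𝓢(ℝ, ℝ)) : 𝓢(ℝ, ℝ) := SchwartzMap.compCLMOfContinuousLinearEquiv ℝ (LinearIsometryEquiv.neg ℝ (E := ℝ)) g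

lemma ngS_apply (g : 𝓢(ℝ, ℝ)) (x : ℝ) : ngS g x = g (-x) := by
  unfold ngS
  rw [SchwartzMap.compCLMOfContinuousLinearEquiv_apply]
  rfl

noncomputable def evS (g : 𝓢(ℝ, ℝ)) : 𝓢(ℝ, ℝ) := (1 / 2 : ℝ) • (g + ngS g)
noncomputable def odS (g : 𝓢(ℝ, ℝ)) : 𝓢(ℝ, ℝ) := (1 / 2 : ℝ) • (g - ngS g)

lemma evS_apply (g : 𝓢(ℝ, ℝ)) (x : ℝ) : evS g x = (g x + g (-x)) / 2 := by
  unfold evS
  rw [SchwartzMap.smul_apply, SchwartzMap.add_apply, ngS_apply, smul_eq_mul]
  ring

lemma odS_apply (g : 𝓢(ℝ, ℝ)) (x : ℝ) : odS g x = (g x - g (-x)) / 2 := by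
  unfold odS
  rw [SchwartzMap.smul_apply, SchwartzMap.sub_apply, ngS_apply, smul_eq_mul]
  ring

/-- Large scale law for all Schwartz test functions and all centres. -/
theorem large_scale_all (g : 𝓢(ℝ, ℝ)) : ∃ C : ℝ, ∀ R : ℝ, 0 < R → ∀ s : ℝ,
    ∀ᶠ T : ℝ in atTop, |EE T (fun u => g ((u - s) / R))| ≤ C / R ^ 2 * SN T := by
  obtain ⟨C, hC, hU, hL⟩ := dev
  obtain ⟨K, hK, hodd⟩ := odd_law hC hU hL (odS g) (by
    intro x
    rw [odS_apply, odS_apply, neg_neg]
    ring)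
  obtain ⟨K', heven⟩ := large_scale (evS g)
  refine ⟨K' + K, fun R hR s => ?_⟩
  filter_upwards [hodd R hR s, heven R hR s (Or.inr (by
    intro x
    rw [evS_apply, evS_apply, neg_neg]
    ring))] with T h1 h2
  have h3 : (fun u => g ((u - s) / R)) = fun u => evS g ((u - s) / R) + odS g ((u - s) / R) := by
    funext u
    rw [evS_apply, odS_apply]
    ring
  rw [h3, EE_add T (sch_comp_int _ hR s) (sch_comp_int _ hR s)]
  refine (abs_add_le _ _).trans ?_
  have : (K' + K) / R ^ 2 * SN T = K' / R ^ 2 * SN T + K / R ^ 2 * SN T := by ring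
  rw [this]
  linarith

end Pool.Agent.Helper57.LS
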