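import Pool.Agent.Helper57.LS.Large

namespace Pool.Agent.Helper57.LS

open Set MeasureTheory Filter Topology
open Pool.Agent.Helper57.LH
open Pool.Agent.Helper57.Zeta
open Pool.Agent.Helper57.PC
open Pool.Agent.Helper4.PC (EE pcDensity_measurable)
open scoped SchwartzMap FourierTransform ContDiff

/-- primitive -/
noncomputable def Pr (ψ : ℝ → ℝ) (x : ℝ) : ℝ := ∫ y in (0:ℝ)..x, ψ y

lemma Pr_deriv {ψ : ℝ → ℝ} (hc : Continuous ψ) (x : ℝ) : HasDerivAt (Pr ψ) (ψ x) x :=
  intervalIntegral.integral_hasDerivAt_right (hc.intervalIntegrable _ _) (hc.stronglyMeasurableAtFilter _ _) hc.continuousAt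

lemma Pr_smooth {ψ : ℝ → ℝ} (hψ : ContDiff ℝ ∞ ψ) : ContDiff ℝ ∞ (Pr ψ) := by
  rw [contDiff_infty_iff_deriv]
  refine ⟨fun x => (Pr_deriv hψ.continuous x).differentiableAt, ?_⟩
  have : deriv (Pr ψ) = ψ := funext fun x => (Pr_deriv hψ.continuous x).deriv
  rw [this]
  exact hψ

/-- support bounds -/
lemma supp_bounds {ψ : ℝ → ℝ} (hs : HasCompactSupport ψ) (hp : tsupport ψ ⊆ Ioi 0) :
    ∃ a b : ℝ, 0 < a ∧ a ≤ b ∧ ∀ x, x ∉ Icc a b → ψ x = 0 := by
  by_cases hne : (tsupport ψ).Nonempty
  · obtain ⟨a, ha, hamin⟩ := IsCompact.exists_isLeast hs hne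
    obtain ⟨b, hb, hbmax⟩ := IsCompact.exists_isGreatest hs hne
    refine ⟨a, b, hp ha, hamin hb, fun x hx => ?_⟩
    by_contra h
    have hx2 : x ∈ tsupport ψ := subset_tsupport ψ h
    exact hx ⟨hamin hx2, hbmax hx2⟩
  · refine ⟨1, 1, one_pos, le_rfl, fun x _ => ?_⟩
    by_contra h
    exact hne ⟨x, subset_tsupport ψ h⟩

lemma Pr_low {ψ : ℝ → ℝ} {a b : ℝ} (ha : 0 < a) (h0 : ∀ x, x ∉ Icc a b → ψ x = 0) {x : ℝ} (hx : x ≤ a) : Pr ψ x = 0 := by
  unfold Pr
  have h1 : ∫ y in (0:ℝ)..x, ψ y = ∫ y in (0:ℝ)..x, (0:ℝ) := by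
    apply intervalIntegral.integral_congr_ae
    have : ∀ᵐ y : ℝ, y ≠ a := by
      rw [ae_iff]; simp
    filter_upwards [this] with y hy hyI
    apply h0
    intro h
    rcases le_total 0 x with h2 | h2
    · rw [uIoc_of_le h2] at hyI
      exact hy (le_antisymm (hyI.2.trans hx) h.1)
    · rw [uIoc_of_ge h2] at hyI
      linarith [h.1, hyI.2]
  rw [h1, intervalIntegral.integral_zero]

lemma Pr_high {ψ : ℝ → ℝ} (hc : Continuous ψ) {a b : ℝ} (h0 : ∀ x, x ∉ Icc a b → ψ x = 0) {x : ℝ} (hx : b ≤ x) : Pr ψ x = Pr ψ b := by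
  unfold Pr
  have h1 : ∫ y in b..x, ψ y = 0 := by
    have h2 : ∫ y in b..x, ψ y = ∫ y in b..x, (0:ℝ) := by
      apply intervalIntegral.integral_congr_ae
      filter_upwards with y hyI
      rw [uIoc_of_le hx] at hyI
      apply h0
      intro h
      linarith [h.2, hyI.1]
    rw [h2, intervalIntegral.integral_zero]
  rw [← intervalIntegral.integral_add_adjacent_intervals (hc.intervalIntegrable 0 b) (hc.intervalIntegrable b x), h1, add_zero]

/-- the averaged window -/
noncomputable def GA (ψ : ℝ → ℝ) (α β v : ℝ) : ℝ := Pr ψ (v / α) - Pr ψ (v / β)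

lemma GA_smooth {ψ : ℝ → ℝ} (hψ : ContDiff ℝ ∞ ψ) (α β : ℝ) : ContDiff ℝ ∞ (GA ψ α β) := by
  unfold GA
  apply ContDiff.sub
  · exact (Pr_smooth hψ).comp (contDiff_id.div_const α)
  · exact (Pr_smooth hψ).comp (contDiff_id.div_const β)

lemma GA_compact {ψ : ℝ → ℝ} (hc : Continuous ψ) {a b : ℝ} (ha : 0 < a) (hab : a ≤ b) (h0 : ∀ x, x ∉ Icc a b → ψ x = 0) {α β : ℝ} (hα : 0 < α) (hαβ : α < β) :
    HasCompactSupport (GA ψ α β) := by
  have hβ : 0 < β := hα.trans hαβ
  apply HasCompactSupport.intro (isCompact_Icc (a := 0) (b := b * β))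
  intro v hv
  rw [mem_Icc, not_and_or, not_le, not_le] at hv
  unfold GA
  rcases hv with hv | hv
  · have h1 : v / α ≤ a := by
      have : v / α < 0 := div_neg_of_neg_of_pos hv hα
      linarith
    have h2 : v / β ≤ a := by
      have : v / β < 0 := div_neg_of_neg_of_pos hv hβ
      linarith
    rw [Pr_low ha h0 h1, Pr_low ha h0 h2, sub_zero]
  · have hb : 0 < b := by linarith
    have h2 : b ≤ v / β := by rw [le_div_iff₀ hβ]; exact hv.le
    have h1 : b ≤ v / α := h2.trans (by
      apply div_le_div_of_nonneg_left _ hα hαβ.le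
      have : 0 < b * β := by positivity
      linarith)
    rw [Pr_high hc h0 h1, Pr_high hc h0 h2, sub_self]

lemma GA_eq {ψ : ℝ → ℝ} {a b : ℝ} (ha : 0 < a) (h0 : ∀ x, x ∉ Icc a b → ψ x = 0) (hc : Continuous ψ) {α β : ℝ} (hα : 0 < α) (hαβ : α < β)
    {R : ℝ} (hR : 0 < R) (u : ℝ) : GA ψ α β (u / R) = ∫ l, ψ l * ic (Icc (l * α * R) (l * β * R)) u := by
  have hβ : 0 < β := hα.trans hαβ
  rcases le_or_gt u 0 with hu | hu
  · have h1 : ∫ l, ψ l * ic (Icc (l * α * R) (l * β * R)) u = 0 := by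
      have : ∀ l, ψ l * ic (Icc (l * α * R) (l * β * R)) u = 0 := by
        intro l
        classical
        by_cases hl : l ∈ Icc a b
        · rw [ic_apply, if_neg, mul_zero]
          intro h
          have : 0 < l * α * R := by
            have : 0 < l := lt_of_lt_of_le ha hl.1
            positivity
          linarith [h.1]
        · rw [h0 l hl, zero_mul]
      simp_rw [this]
      simp
    rw [h1]
    unfold GA
    have hu' : u / R ≤ 0 := div_nonpos_of_nonpos_of_nonneg hu hR.le
    have h2 : u / R / α ≤ a := by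
      have : u / R / α ≤ 0 := div_nonpos_of_nonpos_of_nonneg hu' hα.le
      linarith
    have h3 : u / R / β ≤ a := by
      have : u / R / β ≤ 0 := div_nonpos_of_nonpos_of_nonneg hu' hβ.le
      linarith
    rw [Pr_low ha h0 h2, Pr_low ha h0 h3, sub_zero]
  · have hle : u / R / β ≤ u / R / α := by
      apply div_le_div_of_nonneg_left (by positivity) hα hαβ.le
    have h1 : GA ψ α β (u / R) = ∫ l in (u / R / β)..(u / R / α), ψ l := by
      unfold GA Pr
      rw [← intervalIntegral.integral_add_adjacent_intervals (hc.intervalIntegrable 0 (u / R / β)) (hc.intervalIntegrable (u / R / β) (u / R / α))]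
      ring
    rw [h1, intervalIntegral.integral_of_le hle, ← integral_Icc_eq_integral_Ioc, ← integral_indicator measurableSet_Icc]
    congr 1
    funext l
    classical
    rw [ic_apply, indicator_apply]
    have hiff : l ∈ Icc (u / R / β) (u / R / α) ↔ u ∈ Icc (l * α * R) (l * β * R) := by
      rw [mem_Icc, mem_Icc, div_div, div_div, div_le_iff₀ (by positivity), le_div_iff₀ (by positivity)]
      constructor
      · rintro ⟨h2, h3⟩; constructor <;> nlinarith
      · rintro ⟨h2, h3⟩; constructor <;> nlinarith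
    by_cases h : l ∈ Icc (u / R / β) (u / R / α)
    · rw [if_pos h, if_pos (hiff.mp h), mul_one]
    · rw [if_neg h, if_neg (fun h' => h (hiff.mpr h')), mul_zero]

lemma ic_meas (α β R : ℝ) : Measurable (fun p : ℝ × ℝ => ic (Icc (p.1 * α * R) (p.1 * β * R)) p.2) := by
  have : (fun p : ℝ × ℝ => ic (Icc (p.1 * α * R) (p.1 * β * R)) p.2) = ({p : ℝ × ℝ | p.1 * α * R ≤ p.2 ∧ p.2 ≤ p.1 * β * R}).indicator (fun _ => 1) := by
    funext p
    classical
    rw [ic_apply, indicator_apply]
    simp only [mem_Icc, mem_setOf_eq]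
  rw [this]
  apply measurable_const.indicator
  have h1 : MeasurableSet {p : ℝ × ℝ | p.1 * α * R ≤ p.2} := measurableSet_le (by fun_prop) (by fun_prop)
  have h2 : MeasurableSet {p : ℝ × ℝ | p.2 ≤ p.1 * β * R} := measurableSet_le (by fun_prop) (by fun_prop)
  exact h1.inter h2

lemma ic_psi_int {ψ : ℝ → ℝ} (hi : Integrable ψ) (α β R u : ℝ) : Integrable (fun l => ψ l * ic (Icc (l * α * R) (l * β * R)) u) := by
  refine hi.norm.mono' ?_ ?_
  · apply hi.aestronglyMeasurable.mul
    apply Measurable.aestronglyMeasurable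
    exact (ic_meas α β R).comp (measurable_id.prodMk measurable_const)
  · filter_upwards with l
    rw [norm_mul, Real.norm_of_nonneg (ic_nonneg _ _)]
    exact mul_le_of_le_one_right (norm_nonneg _) (ic_le_one _ _)

lemma ic_F {a b : ℝ} (hab : a ≤ b) : ∫ u, ic (Icc a b) u * pcDensity u = ∫ u in a..b, pcDensity u := by
  have h : ∀ u, ic (Icc a b) u * pcDensity u = (Icc a b).indicator pcDensity u := by
    intro u
    classical
    rw [ic_apply, indicator_apply]
    split_ifs <;> simp
  simp_rw [h]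
  rw [integral_indicator measurableSet_Icc, intervalIntegral.integral_of_le hab, integral_Icc_eq_integral_Ioc]

lemma prod_int {ψ : ℝ → ℝ} (hc : Continuous ψ) (hs : HasCompactSupport ψ) {a b : ℝ} (ha : 0 < a) (h0 : ∀ x, x ∉ Icc a b → ψ x = 0)
    {α β : ℝ} (_hα : 0 < α) (hαβ : α < β) {R : ℝ} (hR : 0 < R) :
    Integrable (fun p : ℝ × ℝ => ψ p.1 * (ic (Icc (p.1 * α * R) (p.1 * β * R)) p.2 * pcDensity p.2)) (volume.prod volume) := by
  have hm : AEStronglyMeasurable (fun p : ℝ × ℝ => ψ p.1 * (ic (Icc (p.1 * α * R) (p.1 * β * R)) p.2 * pcDensity p.2)) (volume.prod volume) := by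
    apply Measurable.aestronglyMeasurable
    exact (hc.measurable.comp measurable_fst).mul ((ic_meas α β R).mul (pcDensity_measurable.comp measurable_snd))
  have hci : ∀ c d : ℝ, Integrable (fun u => ic (Icc c d) u) := by
    intro c d
    unfold ic
    rw [integrable_indicator_iff measurableSet_Icc]
    exact integrableOn_const (by rw [Real.volume_Icc]; exact ENNReal.ofReal_ne_top)
  rw [integrable_prod_iff hm]
  have hF : ∀ x : ℝ, Integrable (fun u => ψ x * (ic (Icc (x * α * R) (x * β * R)) u * pcDensity u)) := by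
    intro x
    apply Integrable.const_mul
    exact Pool.Agent.Helper4.PC.phiF_int (hci _ _)
  refine ⟨Eventually.of_forall hF, ?_⟩
  have hψi : Integrable (fun l => |ψ l| * (|l| * (β - α) * R)) := by
    apply Continuous.integrable_of_hasCompactSupport
    · fun_prop
    · apply HasCompactSupport.mul_right
      exact hs.comp_left (g := fun x => |x|) (by simp)
  refine hψi.mono' (hm.norm.integral_prod_right') ?_
  filter_upwards with x
  rw [Real.norm_of_nonneg (integral_nonneg fun _ => norm_nonneg _)]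
  by_cases hx : x ∈ Icc a b
  · have hx0 : 0 < x := lt_of_lt_of_le ha hx.1
    have h1 : ∫ u, ‖ψ x * (ic (Icc (x * α * R) (x * β * R)) u * pcDensity u)‖ ≤ ∫ u, |ψ x| * ic (Icc (x * α * R) (x * β * R)) u := by
      apply integral_mono (hF x).norm ((hci _ _).const_mul _)
      intro u
      simp only
      rw [norm_mul, norm_mul, Real.norm_eq_abs, Real.norm_of_nonneg (ic_nonneg _ _), Real.norm_of_nonneg (pcDensity_nonneg u)]
      apply mul_le_mul_of_nonneg_left _ (abs_nonneg _)
      exact mul_le_of_le_one_right (ic_nonneg _ _) (pcDensity_le_one u)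
    refine h1.trans ?_
    rw [integral_const_mul]
    have h2 : ∫ u, ic (Icc (x * α * R) (x * β * R)) u = x * (β - α) * R := by
      unfold ic
      rw [integral_indicator measurableSet_Icc, setIntegral_const, Real.volume_real_Icc_of_le (by
        have : α ≤ β := hαβ.le
        gcongr), smul_eq_mul]
      ring
    rw [h2, abs_of_pos hx0]
  · rw [h0 x hx]
    simp

/-- averaged counts as smooth pair sums -/
lemma avg_count {ψ : ℝ → ℝ} (hc : Continuous ψ) (hs : HasCompactSupport ψ) {a b : ℝ} (ha : 0 < a) (h0 : ∀ x, x ∉ Icc a b → ψ x = 0)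
    {α β : ℝ} (hα : 0 < α) (hαβ : α < β) {R : ℝ} (hR : 0 < R) (T : ℝ) :
    EE T (fun u => GA ψ α β (u / R)) = (∫ l, ψ l * pairCount T (l * α * R) (l * β * R)) - SN T * ∫ l, ψ l * ∫ u in (l * α * R)..(l * β * R), pcDensity u := by
  have hi : Integrable ψ := hc.integrable_of_hasCompactSupport hs
  unfold EE
  have e1 : WP T (fun u => GA ψ α β (u / R)) = ∫ l, ψ l * pairCount T (l * α * R) (l * β * R) := by
    simp_rw [GA_eq ha h0 hc hα hαβ hR]
    rw [WP_integral T (fun l u => ψ l * ic (Icc (l * α * R) (l * β * R)) u) (ic_psi_int hi α β R)]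
    congr 1
    funext l
    rw [WP_smul, pairCount_WP]
  have e2 : GA ψ α β (0 / R) = 0 := by
    rw [zero_div]
    unfold GA
    rw [zero_div, zero_div, sub_self]
  have e3 : ∫ u, GA ψ α β (u / R) * pcDensity u = ∫ l, ψ l * ∫ u in (l * α * R)..(l * β * R), pcDensity u := by
    simp_rw [GA_eq ha h0 hc hα hαβ hR]
    have h1 : ∀ u, (∫ l, ψ l * ic (Icc (l * α * R) (l * β * R)) u) * pcDensity u = ∫ l, ψ l * (ic (Icc (l * α * R) (l * β * R)) u * pcDensity u) := by
      intro u
      rw [← integral_mul_const]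
      congr 1
      funext l
      ring
    simp_rw [h1]
    rw [← integral_integral_swap (prod_int hc hs ha h0 hα hαβ hR)]
    congr 1
    funext l
    rw [integral_const_mul]
    by_cases hl : l ∈ Icc a b
    · have hl0 : 0 < l := lt_of_lt_of_le ha hl.1
      rw [ic_F (by
        have : α ≤ β := hαβ.le
        gcongr)]
    · rw [h0 l hl, zero_mul, zero_mul]
  rw [e1, e3]
  simp only [e2, zero_add]

end Pool.Agent.Helper57.LS
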