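import Pool.Agent.Helper57.LS.EL2

namespace Pool.Agent.Helper57.LS

open Set MeasureTheory Filter Topology
open Pool.Agent.Helper57.LH
open Pool.Agent.Helper57.Zeta

lemma compl_shift {f : ℝ → ℝ} (a b δ : ℝ) :
    ∫ t in (Icc a b)ᶜ, f (t + δ) = ∫ t in (Icc (a + δ) (b + δ))ᶜ, f t := by
  have h2 : ∫ t, ((Icc (a + δ) (b + δ))ᶜ).indicator f (t + δ) = ∫ t, ((Icc (a + δ) (b + δ))ᶜ).indicator f t :=
    integral_add_right_eq_self _ δ
  rw [← integral_indicator measurableSet_Icc.compl, ← integral_indicator measurableSet_Icc.compl, ← h2]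
  congr 1
  funext t
  by_cases h : t ∈ (Icc a b)ᶜ
  · have h' : t + δ ∈ (Icc (a + δ) (b + δ))ᶜ := fun h' => h ⟨by linarith [h'.1], by linarith [h'.2]⟩
    rw [indicator_of_mem h, indicator_of_mem h']
  · have h' : t + δ ∉ (Icc (a + δ) (b + δ))ᶜ := by
      intro h'
      apply h
      intro h3
      exact h' ⟨by linarith [h3.1], by linarith [h3.2]⟩
    rw [indicator_of_notMem h, indicator_of_notMem h']

/-- boundary error -/
noncomputable def f0 (T a b M δ : ℝ) : ℝ := 20 * CLA * Real.log T * (a + (T - b) + 4 * |δ| + 2 * M) + 20 * M ^ (-(3/4) : ℝ) * NT T * C1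

lemma corr_det {T X a b M δ B η p : ℝ} (hT : 3 ≤ T) (hX : 1 ≤ X) (hM : 1 ≤ M) (ha : 0 ≤ a) (hb : b ≤ T) (hB : 0 ≤ B)
    (hab : a + |δ| ≤ b - |δ|)
    (hE : ∫ t in Icc a b, (Yf (ZT T) X t - B + PS X t) ^ 2 ≤ η) (hp : ∫ t in Icc a b, PS X t ^ 2 ≤ p) :
    |(∫ t, Yf (ZT T) X t * Yf (ZT T) X (t + δ)) - ((∫ t in Icc (a + |δ|) (b - |δ|), PS X t * PS X (t + δ)) +
      2 * B * (2 * Real.pi / X * NT T) - B ^ 2 * (b - a - 2 * |δ|))| ≤
      2 * (Real.sqrt η * Real.sqrt p) + η + (20 * CLA * Real.log T + 2 * B) * f0 T a b M δ := by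
  have hX0 : 0 < X := by linarith
  have hδ := abs_nonneg δ
  have hδ1 := le_abs_self δ
  have hδ2 := neg_abs_le δ
  set Y : ℝ → ℝ := Yf (ZT T) X with hY
  have hYc : Continuous Y := Yf_cont _ _
  have hY0 : ∀ t, 0 ≤ Y t := Yf_nonneg _ hX0
  have hZT : ∀ ρ ∈ ZT T, 0 ≤ (ρ:ℂ).im ∧ (ρ:ℂ).im ≤ T := fun ρ hρ => mem_ZT.mp hρ
  set c := 20 * CLA * Real.log T with hc
  have hYc2 : ∀ t, Y t ≤ c := Yf_le_log hT hX hZT
  have hYi : Integrable Y := Yf_integrable _ hX0
  have hs : Continuous (fun t : ℝ => t + δ) := by fun_prop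
  have hYdi : Integrable (fun t => Y (t + δ)) := hYi.comp_add_right δ
  have hCLA := CLA_pos
  have hLog := one_le_log hT
  have hc0 : 0 ≤ c := by rw [hc]; positivity
  have hYY : Integrable (fun t => Y t * Y (t + δ)) := by
    refine (hYi.const_mul c).mono' (hYc.mul (hYc.comp hs)).aestronglyMeasurable ?_
    filter_upwards with t
    rw [Real.norm_of_nonneg (mul_nonneg (hY0 _) (hY0 _)), mul_comm]
    exact mul_le_mul_of_nonneg_right (hYc2 _) (hY0 _)
  set I := Icc (a + |δ|) (b - |δ|) with hI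
  have hIm : MeasurableSet I := measurableSet_Icc
  have s1 := integral_add_compl (μ := volume) hIm hYY
  have s2 := integral_add_compl (μ := volume) hIm hYi
  have s3 := integral_add_compl (μ := volume) hIm hYdi
  have htot : ∫ t, Y t = 2 * Real.pi / X * NT T := Yf_integral T hX0
  have htot2 : ∫ t, Y (t + δ) = ∫ t, Y t := integral_add_right_eq_self Y δ
  have hf := compl_first (T := T) (X := X) (a := a + |δ|) (b := b - |δ|) (M := M) hT hX hM (by linarith) (by linarith) hZT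
  have hf2 := compl_first (T := T) (X := X) (a := a + |δ| + δ) (b := b - |δ| + δ) (M := M) hT hX hM (by linarith) (by linarith) hZT
  rw [sum_ZT_mx, ← hY, ← hc] at hf hf2
  rw [← compl_shift] at hf2
  have hr1 : ∫ t in Iᶜ, Y t ≤ f0 T a b M δ := by
    refine hf.trans ?_
    unfold f0
    rw [← hc]
    have : c * (a + |δ| + (T - (b - |δ|)) + 2 * M) ≤ c * (a + (T - b) + 4 * |δ| + 2 * M) :=
      mul_le_mul_of_nonneg_left (by linarith) hc0
    linarith
  have hr2 : ∫ t in Iᶜ, Y (t + δ) ≤ f0 T a b M δ := by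
    refine hf2.trans ?_
    unfold f0
    rw [← hc]
    have : c * (a + |δ| + δ + (T - (b - |δ| + δ)) + 2 * M) ≤ c * (a + (T - b) + 4 * |δ| + 2 * M) :=
      mul_le_mul_of_nonneg_left (by linarith) hc0
    linarith
  have hr10 : 0 ≤ ∫ t in Iᶜ, Y t := integral_nonneg fun t => hY0 t
  have hr20 : 0 ≤ ∫ t in Iᶜ, Y (t + δ) := integral_nonneg fun t => hY0 _
  have hA0 : 0 ≤ ∫ t in Iᶜ, Y t * Y (t + δ) := integral_nonneg fun t => mul_nonneg (hY0 t) (hY0 _)
  have hA1 : ∫ t in Iᶜ, Y t * Y (t + δ) ≤ c * f0 T a b M δ := by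
    have h1 : ∫ t in Iᶜ, Y t * Y (t + δ) ≤ ∫ t in Iᶜ, c * Y t := by
      apply setIntegral_mono_on hYY.integrableOn (hYi.const_mul c).integrableOn hIm.compl
      intro t _
      rw [mul_comm]
      exact mul_le_mul_of_nonneg_right (hYc2 _) (hY0 _)
    rw [integral_const_mul] at h1
    refine h1.trans ?_
    gcongr
  have hcr := cross_l2 (Y := Y) (P := PS X) (B := B) hYc (PS_cont hX0) hab hE hp
  rw [← hI] at hcr
  set A := ∫ t in I, Y t * Y (t + δ)
  set A' := ∫ t in Iᶜ, Y t * Y (t + δ)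
  set y1 := ∫ t in I, Y t
  set y2 := ∫ t in I, Y (t + δ)
  set r1 := ∫ t in Iᶜ, Y t
  set r2 := ∫ t in Iᶜ, Y (t + δ)
  set PP := ∫ t in I, PS X t * PS X (t + δ)
  rw [htot2] at s3
  rw [htot] at s2 s3
  rw [← s1]
  have hcr' := abs_le.mp hcr
  have b1 : B * r1 ≤ B * f0 T a b M δ := by gcongr
  have b2 : B * r2 ≤ B * f0 T a b M δ := by gcongr
  have b3 : 0 ≤ B * r1 := by positivity
  have b4 : 0 ≤ B * r2 := by positivity
  have e : A + A' - (PP + 2 * B * (2 * Real.pi / X * NT T) - B ^ 2 * (b - a - 2 * |δ|)) =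
      (A - PP - B * (y1 + y2) + B ^ 2 * (b - a - 2 * |δ|)) + A' - B * r1 - B * r2 := by
    have : 2 * B * (2 * Real.pi / X * NT T) = B * (2 * Real.pi / X * NT T) + B * (2 * Real.pi / X * NT T) := by ring
    rw [this]
    nth_rewrite 1 [← s2]
    rw [← s3]
    ring
  rw [e, abs_le]
  constructor <;> linarith [hcr'.1, hcr'.2]

end Pool.Agent.Helper57.LS
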