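import Pool.Agent.Helper57.LS.L2

namespace Pool.Agent.Helper57.LS

open Set MeasureTheory Filter Topology
open Pool.Agent.Helper57.LH
open Pool.Agent.Helper57.Zeta

/-- L² approximation of the Fejer sum by its mean minus the prime sum. -/
theorem E_l2 : ∃ K : ℝ, 0 < K ∧ ∀ B : ℝ, 9600 ≤ B → ∀ᶠ T : ℝ in atTop,
    ∫ t in Icc (T / Real.log T ^ 3) (T - 2), (Yf (ZT T) (Real.log T / B) t - B + PS (Real.log T / B) t) ^ 2 ≤ K * (T / B ^ 2) := by
  obtain ⟨CQ, hCQ, T0, hT0, hQ⟩ := Qbound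
  set K : ℝ := 1152 * Real.pi ^ 2 * CQ + 1 with hK
  have hK0 : 0 < K := by rw [hK]; positivity
  refine ⟨3 * (K + 2), by positivity, fun B hB => ?_⟩
  have hB0 : 0 < B := by linarith
  have hl := Real.tendsto_log_atTop
  have hCLA := CLA_pos
  have hC1 := C1_nonneg
  have hCA := CA_nonneg
  have hB1 : 1 / B < 1 / 4 := by
    apply one_div_lt_one_div_of_lt <;> linarith
  filter_upwards [eventually_ge_atTop T0, eventually_ge_atTop (400:ℝ), hl.eventually_ge_atTop 40, hl.eventually_ge_atTop B,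
    log_pow_le 1 3 (s := 1/2) (by norm_num), ee_small hB0,
    log_pow_le (B ^ 2 * (1152 * (40 * CA * C1) ^ 2 / (16 * B ^ 4))) 6 (s := 1/B + 3/4) (by linarith),
    hl.eventually_ge_atTop (10 * CLA * B ^ 3), log_pow_le 2 0 (s := 0) (by norm_num)] with T g1 g2 g3 g4 g5 g6 g9 g10 g11
  have hT0' : 0 < T := by linarith
  have e7 : Real.exp (Real.log T / B) = T ^ (1 / B) := by
    rw [Real.rpow_def_of_pos hT0']; congr 1; ring
  obtain ⟨L, hL⟩ : ∃ L, L = Real.log T := ⟨_, rfl⟩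
  obtain ⟨X, hX⟩ : ∃ X, X = L / B := ⟨_, rfl⟩
  rw [← hL, ← hX] at e7
  rw [← hL] at g3 g4 g5 g6 g9 g10 ⊢
  rw [← hX]
  have hL0 : 0 < L := by linarith
  have hX1 : 1 ≤ X := by rw [hX, le_div_iff₀ hB0]; linarith
  have hX0 : 0 < X := by linarith
  have hsT : Real.sqrt T = T ^ (1/2 : ℝ) := Real.sqrt_eq_rpow T
  have hsT20 : 20 ≤ Real.sqrt T := by
    rw [Real.le_sqrt (by norm_num) hT0'.le]
    linarith
  have haT2 : Real.sqrt T ≤ T / L ^ 3 := by
    rw [le_div_iff₀ (by positivity), hsT]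
    linarith
  have ha20 : 20 ≤ T / L ^ 3 := hsT20.trans haT2
  have haT : T / L ^ 3 ≤ T - 2 := by
    have h1 : T / L ^ 3 ≤ T / 2 := by
      apply div_le_div_of_nonneg_left hT0'.le (by norm_num)
      have : (40:ℝ) ^ 3 ≤ L ^ 3 := by gcongr
      linarith
    linarith
  obtain ⟨Ψ, hΨc, hΨ0, hΨi, hΨd⟩ := hQ T g1 B hB
  have hdom : DomPsi T B Ψ := hΨd
  have hRB := RB_sq (T := T) (L := L) (B := B) (X := X) (a := T / L ^ 3) (C := CQ) hL0 hB0 hX (by linarith) (by linarith) haT2 hΨc hΨ0 hΨi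
  have hDC : 1152 * L ^ 2 * DC B L ^ 2 * T ^ (3/4 : ℝ) ≤ T / B ^ 2 := by
    have e1 : DC B L ^ 2 = L ^ 4 * (40 * CA * C1) ^ 2 / (16 * B ^ 4) * T ^ (1 / B) := by
      unfold DC WM Wt
      have e2 : Real.exp (L / 2 / B) ^ 2 = T ^ (1 / B) := by
        rw [← e7, ← Real.exp_nat_mul, hX]
        congr 1
        push_cast
        ring
      rw [← e2]
      field_simp
      ring
    rw [e1, le_div_iff₀ (by positivity)]
    refine le_trans (le_of_eq ?_) g9
    rw [Real.rpow_add hT0']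
    ring
  have hRc : ContinuousOn (fun t => (16 * RB T L B X Ψ t) ^ 2) (Icc (T / L ^ 3) T) :=
    (continuousOn_const.mul (RB_contOn (by linarith) hΨc)).pow 2
  have hsub : Icc (T / L ^ 3) (T - 2) ⊆ Icc (T / L ^ 3) T := Icc_subset_Icc le_rfl (by linarith)
  have iR : IntegrableOn (fun t => (16 * RB T L B X Ψ t) ^ 2) (Icc (T / L ^ 3) T) := hRc.integrableOn_compact isCompact_Icc
  have hW : ∫ t in Icc (T / L ^ 3) (T - 2), (16 * RB T L B X Ψ t) ^ 2 ≤ K * (T / B ^ 2) := by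
    have h1 : ∫ t in Icc (T / L ^ 3) (T - 2), (16 * RB T L B X Ψ t) ^ 2 ≤ ∫ t in Icc (T / L ^ 3) T, (16 * RB T L B X Ψ t) ^ 2 := by
      apply setIntegral_mono_set iR
      · exact Eventually.of_forall fun t => sq_nonneg _
      · exact hsub.eventuallyLE
    refine h1.trans (hRB.trans ?_)
    rw [hK]
    linarith
  have hee0 : 0 ≤ ee B L := by
    unfold ee
    have := CM_pos
    have : 0 ≤ Real.log L := Real.log_nonneg (by linarith)
    positivity
  have htail : 10 * CLA * L / X ^ 2 ≤ 1 / B := by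
    rw [hX, div_pow, div_div_eq_mul_div, div_le_div_iff₀ (by positivity) hB0]
    calc 10 * CLA * L * B ^ 2 * B = L * (10 * CLA * B ^ 3) := by ring
      _ ≤ L * L := by gcongr
      _ = _ := by ring
  have hpt : ∀ t ∈ Icc (T / L ^ 3) (T - 2), (Yf (ZT T) X t - B + PS X t) ^ 2 ≤ 3 * (16 * RB T L B X Ψ t) ^ 2 + 6 / B ^ 2 := by
    intro t ht
    have h1 := Y_two hL g3 hB hX hX1 (by linarith) (ha20.trans ht.1) ht.2 hΨc hdom
    rw [← hL] at h1
    have h2 := ee_bound hL g3 hB hX hX1 (by linarith) haT2 (hsub ht)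
    set R := 16 * RB T L B X Ψ t with hR
    have h3 : |Yf (ZT T) X t - B + PS X t| ≤ R + 1 / B + 1 / B := by
      have e : Yf (ZT T) X t - B + PS X t = (Yf (ZT T) X t - (MT X t / X - PS X t)) + (MT X t / X - B) := by ring
      rw [e]
      refine (abs_add_le _ _).trans ?_
      linarith
    have h4 : 0 ≤ R := by
      have := RB_nonneg (T := T) (L := L) (B := B) (X := X) hL0.le Ψ (t := t) (by have := ht.1; linarith)
      rw [hR]; linarith
    have hiB : 0 < 1 / B := by positivity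
    calc (Yf (ZT T) X t - B + PS X t) ^ 2 = |Yf (ZT T) X t - B + PS X t| ^ 2 := (sq_abs _).symm
      _ ≤ (R + 1 / B + 1 / B) ^ 2 := by gcongr
      _ ≤ 3 * R ^ 2 + 6 * (1 / B) ^ 2 := by
          nlinarith [sq_nonneg (R - 1 / B)]
      _ = _ := by ring
  have hcE : Continuous (fun t => (Yf (ZT T) X t - B + PS X t) ^ 2) :=
    (((Yf_cont _ X).sub continuous_const).add (PS_cont hX0)).pow 2
  have iR' : IntegrableOn (fun t => (16 * RB T L B X Ψ t) ^ 2) (Icc (T / L ^ 3) (T - 2)) := iR.mono_set hsub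
  calc ∫ t in Icc (T / L ^ 3) (T - 2), (Yf (ZT T) X t - B + PS X t) ^ 2
      ≤ ∫ t in Icc (T / L ^ 3) (T - 2), (3 * (16 * RB T L B X Ψ t) ^ 2 + 6 / B ^ 2) := by
        apply setIntegral_mono_on (ioc hcE _ _) ((iR'.const_mul 3).add (ioc continuous_const _ _)) measurableSet_Icc hpt
    _ = 3 * (∫ t in Icc (T / L ^ 3) (T - 2), (16 * RB T L B X Ψ t) ^ 2) + (T - 2 - T / L ^ 3) * (6 / B ^ 2) := by
        rw [integral_add (iR'.const_mul 3) (ioc continuous_const _ _), integral_const_mul, setIntegral_const,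
          Real.volume_real_Icc_of_le haT, smul_eq_mul]
    _ ≤ 3 * (K * (T / B ^ 2)) + T * (6 / B ^ 2) := by
        gcongr
        linarith
    _ = 3 * (K + 2) * (T / B ^ 2) := by ring

end Pool.Agent.Helper57.LS
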