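import Pool.Agent.Helper57.LS.Avg

namespace Pool.Agent.Helper57.LS

open Set MeasureTheory Filter Topology
open Pool.Agent.Helper57.LH
open Pool.Agent.Helper57.Zeta
open Pool.Agent.Helper57.PC
open Pool.Agent.Helper4.PC (EE pcDensity_measurable)
open scoped SchwartzMap FourierTransform ContDiff

lemma inv_sq_int {a b : ℝ} (ha : 0 < a) (hab : a ≤ b) : ∫ u in a..b, (u ^ 2)⁻¹ = 1 / a - 1 / b := by
  have h : ∀ u ∈ uIcc a b, HasDerivAt (fun u : ℝ => -(u⁻¹)) ((u ^ 2)⁻¹) u := by
    intro u hu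
    rw [uIcc_of_le hab] at hu
    have hu0 : u ≠ 0 := by linarith [hu.1]
    have := (hasDerivAt_inv hu0).fun_neg
    refine this.congr_deriv ?_
    rw [neg_neg]
  rw [intervalIntegral.integral_eq_sub_of_hasDerivAt h]
  · rw [one_div, one_div]; ring
  · apply ContinuousOn.intervalIntegrable
    rw [uIcc_of_le hab]
    intro u hu
    have : u ≠ 0 := by linarith [hu.1]
    apply ContinuousAt.continuousWithinAt
    apply ContinuousAt.inv₀ (by fun_prop)
    exact pow_ne_zero 2 this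

lemma inv_cu_int {a b : ℝ} (ha : 0 < a) (hab : a ≤ b) : ∫ u in a..b, (u ^ 3)⁻¹ = (1 / 2) * ((a ^ 2)⁻¹ - (b ^ 2)⁻¹) := by
  have h : ∀ u ∈ uIcc a b, HasDerivAt (fun u : ℝ => -(1 / 2) * (u ^ 2)⁻¹) ((u ^ 3)⁻¹) u := by
    intro u hu
    rw [uIcc_of_le hab] at hu
    have hu0 : u ≠ 0 := by linarith [hu.1]
    have h1 : HasDerivAt (fun u : ℝ => u ^ 2) (2 * u) u := by simpa using hasDerivAt_pow 2 u
    have := (h1.fun_inv (pow_ne_zero 2 hu0)).const_mul (-(1/2))
    refine this.congr_deriv ?_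
    field_simp
  rw [intervalIntegral.integral_eq_sub_of_hasDerivAt h]
  · ring
  · apply ContinuousOn.intervalIntegrable
    rw [uIcc_of_le hab]
    intro u hu
    have : u ≠ 0 := by linarith [hu.1]
    apply ContinuousAt.continuousWithinAt
    apply ContinuousAt.inv₀ (by fun_prop)
    exact pow_ne_zero 3 this

lemma cos_inv_sq {a b : ℝ} (ha : 0 < a) (hab : a ≤ b) : |∫ u in a..b, (u ^ 2)⁻¹ * Real.cos (2 * Real.pi * u)| ≤ 1 / a ^ 2 := by
  have hpi := Real.pi_gt_three
  have hb : 0 < b := by linarith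
  have hne : ∀ u ∈ uIcc a b, u ≠ 0 := by
    intro u hu
    rw [uIcc_of_le hab] at hu
    linarith [hu.1]
  have h1 : ∀ u ∈ uIcc a b, HasDerivAt (fun u : ℝ => (u ^ 2)⁻¹) (-(2 * (u ^ 3)⁻¹)) u := by
    intro u hu
    have hu0 := hne u hu
    have h1 : HasDerivAt (fun u : ℝ => u ^ 2) (2 * u) u := by simpa using hasDerivAt_pow 2 u
    have := h1.fun_inv (pow_ne_zero 2 hu0)
    refine this.congr_deriv ?_
    field_simp
  have h2 : ∀ u ∈ uIcc a b, HasDerivAt (fun u : ℝ => Real.sin (2 * Real.pi * u) / (2 * Real.pi)) (Real.cos (2 * Real.pi * u)) u := by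
    intro u _
    have h3 : HasDerivAt (fun u : ℝ => 2 * Real.pi * u) (2 * Real.pi) u := by simpa using (hasDerivAt_id u).const_mul (2 * Real.pi)
    have := h3.sin.div_const (2 * Real.pi)
    refine this.congr_deriv ?_
    field_simp
  have hc3 : ContinuousOn (fun u : ℝ => (u ^ 3)⁻¹) (uIcc a b) := by
    intro u hu
    apply ContinuousAt.continuousWithinAt
    apply ContinuousAt.inv₀ (by fun_prop)
    exact pow_ne_zero 3 (hne u hu)
  have hi3 : IntervalIntegrable (fun u : ℝ => (u ^ 3)⁻¹) volume a b := hc3.intervalIntegrable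
  have h := intervalIntegral.integral_mul_deriv_eq_deriv_mul h1 h2 (hi3.const_mul 2).neg (by apply Continuous.intervalIntegrable; fun_prop)
  rw [h]
  have h4 : |∫ u in a..b, -(2 * (u ^ 3)⁻¹) * (Real.sin (2 * Real.pi * u) / (2 * Real.pi))| ≤ (1 / (2 * Real.pi)) * ((a ^ 2)⁻¹ - (b ^ 2)⁻¹) := by
    have h5 : |∫ u in a..b, -(2 * (u ^ 3)⁻¹) * (Real.sin (2 * Real.pi * u) / (2 * Real.pi))| ≤ |∫ u in a..b, (1 / Real.pi) * (u ^ 3)⁻¹| := by
      rw [← Real.norm_eq_abs]
      apply intervalIntegral.norm_integral_le_abs_of_norm_le _ (hi3.const_mul _)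
      rw [uIoc_of_le hab]
      filter_upwards [ae_restrict_mem measurableSet_Ioc] with u hu
      have hu0 : 0 < u := by linarith [hu.1]
      rw [norm_mul, norm_neg, norm_div, Real.norm_of_nonneg (by positivity : 0 ≤ 2 * (u ^ 3)⁻¹), Real.norm_of_nonneg (by positivity : 0 ≤ 2 * Real.pi), Real.norm_eq_abs]
      have := Real.abs_sin_le_one (2 * Real.pi * u)
      calc 2 * (u ^ 3)⁻¹ * (|Real.sin (2 * Real.pi * u)| / (2 * Real.pi)) ≤ 2 * (u ^ 3)⁻¹ * (1 / (2 * Real.pi)) := by gcongr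
        _ = _ := by field_simp
    refine h5.trans (le_of_eq ?_)
    rw [intervalIntegral.integral_const_mul, inv_cu_int ha hab, abs_of_nonneg]
    · field_simp
    · have : (b ^ 2)⁻¹ ≤ (a ^ 2)⁻¹ := by gcongr
      have : 0 ≤ (a ^ 2)⁻¹ - (b ^ 2)⁻¹ := by linarith
      positivity
  have h5 : |(b ^ 2)⁻¹ * (Real.sin (2 * Real.pi * b) / (2 * Real.pi))| ≤ (1 / (2 * Real.pi)) * (b ^ 2)⁻¹ := by
    rw [abs_mul, abs_div, abs_of_pos (by positivity : 0 < (b ^ 2)⁻¹), abs_of_pos (by positivity : 0 < 2 * Real.pi)]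
    have := Real.abs_sin_le_one (2 * Real.pi * b)
    calc (b ^ 2)⁻¹ * (|Real.sin (2 * Real.pi * b)| / (2 * Real.pi)) ≤ (b ^ 2)⁻¹ * (1 / (2 * Real.pi)) := by gcongr
      _ = _ := by ring
  have h6 : |(a ^ 2)⁻¹ * (Real.sin (2 * Real.pi * a) / (2 * Real.pi))| ≤ (1 / (2 * Real.pi)) * (a ^ 2)⁻¹ := by
    rw [abs_mul, abs_div, abs_of_pos (by positivity : 0 < (a ^ 2)⁻¹), abs_of_pos (by positivity : 0 < 2 * Real.pi)]
    have := Real.abs_sin_le_one (2 * Real.pi * a)
    calc (a ^ 2)⁻¹ * (|Real.sin (2 * Real.pi * a)| / (2 * Real.pi)) ≤ (a ^ 2)⁻¹ * (1 / (2 * Real.pi)) := by gcongr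
      _ = _ := by ring
  have h7 : (1 / Real.pi) * (a ^ 2)⁻¹ ≤ 1 / a ^ 2 := by
    rw [one_div (a ^ 2)]
    apply mul_le_of_le_one_left (by positivity)
    rw [div_le_one (by positivity)]
    linarith
  have h8 : (1 / Real.pi) * (a ^ 2)⁻¹ = (1 / (2 * Real.pi)) * (b ^ 2)⁻¹ + (1 / (2 * Real.pi)) * (a ^ 2)⁻¹ + (1 / (2 * Real.pi)) * ((a ^ 2)⁻¹ - (b ^ 2)⁻¹) := by
    field_simp
    ring
  refine le_trans ?_ h7
  rw [h8]
  exact (abs_sub _ _).trans (add_le_add ((abs_sub _ _).trans (add_le_add h5 h6)) h4)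

lemma sq_formula {u : ℝ} (hu : u ≠ 0) : pcDensity u = 1 - (1 / (2 * Real.pi ^ 2)) * (u ^ 2)⁻¹ + (1 / (2 * Real.pi ^ 2)) * ((u ^ 2)⁻¹ * Real.cos (2 * Real.pi * u)) := by
  unfold pcDensity
  have h : Real.cos (2 * Real.pi * u) = 1 - 2 * Real.sin (Real.pi * u) ^ 2 := by
    rw [show 2 * Real.pi * u = 2 * (Real.pi * u) by ring, Real.cos_two_mul]
    have := Real.sin_sq_add_cos_sq (Real.pi * u)
    linarith
  rw [h]
  have hpi := Real.pi_ne_zero
  field_simp
  ring

/-- expansion of the prediction -/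
lemma F_expand {a b : ℝ} (ha : 0 < a) (hab : a ≤ b) :
    |(∫ u in a..b, pcDensity u) - ((b - a) - 1 / (2 * Real.pi ^ 2) * (1 / a - 1 / b))| ≤ 1 / a ^ 2 := by
  have hpi := Real.pi_gt_three
  have hne : ∀ u ∈ uIcc a b, u ≠ 0 := by
    intro u hu
    rw [uIcc_of_le hab] at hu
    linarith [hu.1]
  have hc2 : ContinuousOn (fun u : ℝ => (u ^ 2)⁻¹) (uIcc a b) := by
    intro u hu
    apply ContinuousAt.continuousWithinAt
    apply ContinuousAt.inv₀ (by fun_prop)
    exact pow_ne_zero 2 (hne u hu)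
  have i2 : IntervalIntegrable (fun u : ℝ => (u ^ 2)⁻¹) volume a b := hc2.intervalIntegrable
  have i3 : IntervalIntegrable (fun u : ℝ => (u ^ 2)⁻¹ * Real.cos (2 * Real.pi * u)) volume a b := by
    apply ContinuousOn.intervalIntegrable
    exact hc2.mul (by fun_prop)
  have e1 : ∫ u in a..b, pcDensity u = ∫ u in a..b, ((1 - (1 / (2 * Real.pi ^ 2)) * (u ^ 2)⁻¹) + (1 / (2 * Real.pi ^ 2)) * ((u ^ 2)⁻¹ * Real.cos (2 * Real.pi * u))) := by
    apply intervalIntegral.integral_congr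
    intro u hu
    exact sq_formula (hne u hu)
  have e2 : ∫ u in a..b, (1 - (1 / (2 * Real.pi ^ 2)) * (u ^ 2)⁻¹) = (b - a) - 1 / (2 * Real.pi ^ 2) * (1 / a - 1 / b) := by
    rw [intervalIntegral.integral_sub intervalIntegrable_const (i2.const_mul _), intervalIntegral.integral_const_mul, inv_sq_int ha hab]
    simp
  rw [e1, intervalIntegral.integral_add (intervalIntegrable_const.sub (i2.const_mul _)) (i3.const_mul _), e2, intervalIntegral.integral_const_mul,
    add_sub_cancel_left, abs_mul, abs_of_pos (by positivity)]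
  have h := cos_inv_sq ha hab
  have h2 : 1 / (2 * Real.pi ^ 2) ≤ 1 := by
    rw [div_le_one (by positivity)]
    nlinarith
  calc 1 / (2 * Real.pi ^ 2) * |∫ u in a..b, (u ^ 2)⁻¹ * Real.cos (2 * Real.pi * u)| ≤ 1 * (1 / a ^ 2) := by gcongr
    _ = _ := one_mul _

/-- Smoothly averaged windows, with the explicit second order term. -/
theorem avg_law {ψ : ℝ → ℝ} (hψ : ContDiff ℝ ∞ ψ) (hs : HasCompactSupport ψ) (hp : tsupport ψ ⊆ Ioi 0) {α β : ℝ} (hα : 0 < α) (hαβ : α < β) :
    ∃ C : ℝ, ∀ R : ℝ, 0 < R → ∀ᶠ T : ℝ in atTop,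
      |(∫ l, ψ l * pairCount T (l * α * R) (l * β * R)) -
        (R * (β - α) * (∫ l, ψ l * l) - 1 / (2 * Real.pi ^ 2 * R) * (1 / α - 1 / β) * ∫ l, ψ l / l) * SN T| ≤ C / R ^ 2 * SN T := by
  obtain ⟨a, b, ha, hab, h0⟩ := supp_bounds hs hp
  have hc := hψ.continuous
  have hβ : 0 < β := hα.trans hαβ
  set G : 𝓢(ℝ, ℝ) := (GA_compact hc ha hab h0 hα hαβ).toSchwartzMap (GA_smooth hψ α β) with hG
  have hGv : ∀ x, G x = GA ψ α β x := fun x => rfl
  obtain ⟨C, hC⟩ := large_scale G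
  set I : ℝ := ∫ l, |ψ l| * (1 / (a * α) ^ 2) with hI
  have hI0 : 0 ≤ I := integral_nonneg fun l => by positivity
  refine ⟨C + I, fun R hR => ?_⟩
  filter_upwards [hC R hR 0 (Or.inl rfl), eventually_gt_atTop 1] with T hT hT1
  have hS := SN_pos hT1
  have e1 : (fun u => G ((u - 0) / R)) = fun u => GA ψ α β (u / R) := by
    funext u
    rw [sub_zero, hGv]
  rw [e1, avg_count hc hs ha h0 hα hαβ hR] at hT
  set N := ∫ l, ψ l * pairCount T (l * α * R) (l * β * R)
  set P := ∫ l, ψ l * ∫ u in (l * α * R)..(l * β * R), pcDensity u with hP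
  set M := R * (β - α) * (∫ l, ψ l * l) - 1 / (2 * Real.pi ^ 2 * R) * (1 / α - 1 / β) * ∫ l, ψ l / l with hM
  have hi : Integrable ψ := hc.integrable_of_hasCompactSupport hs
  have i1 : Integrable (fun l => ψ l * l) := (hc.mul continuous_id).integrable_of_hasCompactSupport hs.mul_right
  have i2 : Integrable (fun l => ψ l / l) := by
    refine (hi.norm.const_mul (1 / a)).mono' ?_ ?_
    · exact (hc.measurable.div measurable_id).aestronglyMeasurable
    · filter_upwards with l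
      by_cases hl : l ∈ Icc a b
      · rw [norm_div]
        have hl0 : 0 < l := lt_of_lt_of_le ha hl.1
        rw [Real.norm_of_nonneg hl0.le, div_eq_mul_one_div, mul_comm]
        gcongr
        exact hl.1
      · rw [h0 l hl]; simp
  have i3 : Integrable (fun l => ψ l * ∫ u in (l * α * R)..(l * β * R), pcDensity u) := by
    have h1 := (prod_int hc hs ha h0 hα hαβ hR).integral_prod_left
    refine h1.congr ?_
    filter_upwards with l
    rw [integral_const_mul]
    by_cases hl : l ∈ Icc a b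
    · have hl0 : 0 < l := lt_of_lt_of_le ha hl.1
      rw [ic_F (by
        have : α ≤ β := hαβ.le
        gcongr)]
    · rw [h0 l hl, zero_mul, zero_mul]
  have hPM : |P - M| ≤ I / R ^ 2 := by
    have e2 : P - M = ∫ l, (ψ l * (∫ u in (l * α * R)..(l * β * R), pcDensity u) -
        (R * (β - α) * (ψ l * l) - 1 / (2 * Real.pi ^ 2 * R) * (1 / α - 1 / β) * (ψ l / l))) := by
      have i4 : Integrable (fun l => R * (β - α) * (ψ l * l)) := i1.const_mul _
      have i5 : Integrable (fun l => 1 / (2 * Real.pi ^ 2 * R) * (1 / α - 1 / β) * (ψ l / l)) := i2.const_mul _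
      have i6 : Integrable (fun l => R * (β - α) * (ψ l * l) - 1 / (2 * Real.pi ^ 2 * R) * (1 / α - 1 / β) * (ψ l / l)) := i4.sub i5
      rw [integral_sub i3 i6, integral_sub i4 i5, integral_const_mul, integral_const_mul]
    rw [e2, hI, ← integral_div]
    refine abs_integral_le_integral_abs.trans ?_
    apply integral_mono_of_nonneg
    · exact Eventually.of_forall fun l => abs_nonneg _
    · exact (hi.norm.mul_const _).div_const _
    · refine Eventually.of_forall fun l => ?_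
      simp only
      by_cases hl : l ∈ Icc a b
      · have hl0 : 0 < l := lt_of_lt_of_le ha hl.1
        have hle : l * α * R ≤ l * β * R := by
          have : α ≤ β := hαβ.le
          gcongr
        have h1 := F_expand (a := l * α * R) (b := l * β * R) (by positivity) hle
        have e3 : ψ l * (∫ u in (l * α * R)..(l * β * R), pcDensity u) -
            (R * (β - α) * (ψ l * l) - 1 / (2 * Real.pi ^ 2 * R) * (1 / α - 1 / β) * (ψ l / l)) =
            ψ l * ((∫ u in (l * α * R)..(l * β * R), pcDensity u) - ((l * β * R - l * α * R) - 1 / (2 * Real.pi ^ 2) * (1 / (l * α * R) - 1 / (l * β * R)))) := by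
          have hpi := Real.pi_ne_zero
          generalize (∫ u in (l * α * R)..(l * β * R), pcDensity u) = Q
          field_simp
        rw [e3, abs_mul]
        have h2 : 1 / (l * α * R) ^ 2 ≤ 1 / (a * α) ^ 2 / R ^ 2 := by
          rw [div_div, ← mul_pow]
          apply one_div_le_one_div_of_le (by positivity)
          have := hl.1
          gcongr
        calc |ψ l| * |(∫ u in (l * α * R)..(l * β * R), pcDensity u) - ((l * β * R - l * α * R) - 1 / (2 * Real.pi ^ 2) * (1 / (l * α * R) - 1 / (l * β * R)))|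
            ≤ |ψ l| * (1 / (l * α * R) ^ 2) := by gcongr
          _ ≤ |ψ l| * (1 / (a * α) ^ 2 / R ^ 2) := by gcongr
          _ = _ := by ring
      · rw [h0 l hl]
        simp
  have e4 : N - M * SN T = (N - SN T * P) + (P - M) * SN T := by ring
  rw [e4]
  refine (abs_add_le _ _).trans ?_
  rw [abs_mul, abs_of_pos hS]
  have h5 : |P - M| * SN T ≤ I / R ^ 2 * SN T := by gcongr
  have h6 : (C + I) / R ^ 2 * SN T = C / R ^ 2 * SN T + I / R ^ 2 * SN T := by ring
  rw [h6]
  linarith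

end Pool.Agent.Helper57.LS
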