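import Pool.Agent.Helper57.LS.Corr

namespace Pool.Agent.Helper57.LS

open Set MeasureTheory Filter Topology
open Pool.Agent.Helper57.LH
open Pool.Agent.Helper57.Zeta
open Pool.Agent.Helper57.PC (mult IsNontrivialZero zerosUpTo nd SN SN_pos)

lemma Yf_corr_eq (T δ : ℝ) {X : ℝ} (hX : 0 < X) :
    ∫ t, Yf (ZT T) X t * Yf (ZT T) X (t + δ) = 2 * Real.pi / X * ∑ p ∈ Zf T ×ˢ Zf T, (mult p.1 : ℝ) * (mult p.2 : ℝ) * Gm (X / (2 * Real.pi) * (p.1.im - p.2.im + δ)) := by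
  have e1 : ∀ t, Yf (ZT T) X t * Yf (ZT T) X (t + δ) = ∑ ρ ∈ ZT T, ∑ ρ' ∈ ZT T, (mx ρ * mx ρ') * (gs X 0 (t - (ρ:ℂ).im) * gs X 0 (t - ((ρ':ℂ).im - δ))) := by
    intro t
    unfold Yf
    rw [Finset.sum_mul_sum]
    refine Finset.sum_congr rfl fun ρ _ => Finset.sum_congr rfl fun ρ' _ => ?_
    rw [show t - ((ρ':ℂ).im - δ) = t + δ - (ρ':ℂ).im by ring]
    ring
  simp_rw [e1]
  rw [integral_finsetSum]
  · have e2 : ∀ ρ : ZS, ∫ t, ∑ ρ' ∈ ZT T, (mx ρ * mx ρ') * (gs X 0 (t - (ρ:ℂ).im) * gs X 0 (t - ((ρ':ℂ).im - δ))) =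
        ∑ ρ' ∈ ZT T, (mx ρ * mx ρ') * (2 * Real.pi / X * Gm (X / (2 * Real.pi) * ((ρ:ℂ).im - (ρ':ℂ).im + δ))) := by
      intro ρ
      rw [integral_finsetSum]
      · refine Finset.sum_congr rfl fun ρ' _ => ?_
        rw [integral_const_mul, gs_pair hX, show (ρ:ℂ).im - ((ρ':ℂ).im - δ) = (ρ:ℂ).im - (ρ':ℂ).im + δ by ring]
      · intro ρ' _
        exact (gs_pair_integrable hX _ _).const_mul _
    simp_rw [e2]
    have e3 : ∀ ρ : ZS, ∑ ρ' ∈ ZT T, (mx ρ * mx ρ') * (2 * Real.pi / X * Gm (X / (2 * Real.pi) * ((ρ:ℂ).im - (ρ':ℂ).im + δ))) =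
        ∑ ρ' ∈ Zf T, (mx ρ * mx ρ') * (2 * Real.pi / X * Gm (X / (2 * Real.pi) * ((ρ:ℂ).im - ρ'.im + δ))) := fun ρ =>
      sum_ZT T (fun ρ' => (mx ρ * mx ρ') * (2 * Real.pi / X * Gm (X / (2 * Real.pi) * ((ρ:ℂ).im - ρ'.im + δ))))
    simp_rw [e3]
    rw [sum_ZT T (fun ρ => ∑ ρ' ∈ Zf T, (mx ρ * mx ρ') * (2 * Real.pi / X * Gm (X / (2 * Real.pi) * (ρ.im - ρ'.im + δ)))),
      Finset.mul_sum, Finset.sum_product]
    refine Finset.sum_congr rfl fun ρ hρ => Finset.sum_congr rfl fun ρ' hρ' => ?_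
    rw [mem_Zf] at hρ hρ'
    rw [mult_eq hρ.1, mult_eq hρ'.1]
    unfold mx
    ring
  · intro ρ _
    apply integrable_finsetSum
    intro ρ' _
    exact (gs_pair_integrable hX _ _).const_mul _

lemma cS_abs (σ : ℝ) : |cS σ| ≤ 2 := by
  unfold cS
  rw [abs_mul, abs_of_pos (by norm_num : (0:ℝ) < 2)]
  have h := intervalIntegral.norm_integral_le_of_norm_le_const (a := 0) (b := 1) (C := 1) (f := fun v : ℝ => v * (1 - v) ^ 2 * Real.cos (2 * Real.pi * σ * v)) (by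
    intro v hv
    rw [uIoc_of_le zero_le_one] at hv
    rw [Real.norm_eq_abs, abs_mul, abs_of_nonneg (mul_nonneg hv.1.le (sq_nonneg _))]
    have h1 : v * (1 - v) ^ 2 ≤ 1 := by
      have h3 : (1 - v) ^ 2 ≤ 1 := by nlinarith [hv.1, hv.2]
      have := hv.2
      have := hv.1
      nlinarith [sq_nonneg (1 - v)]
    have h2 := Real.abs_cos_le_one (2 * Real.pi * σ * v)
    calc v * (1 - v) ^ 2 * |Real.cos (2 * Real.pi * σ * v)| ≤ 1 * 1 := by
          gcongr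
      _ = 1 := by norm_num)
  rw [sub_zero, abs_one, mul_one, Real.norm_eq_abs] at h
  linarith

lemma E2_bound {T L B a δ : ℝ} (hL : L = Real.log T) (hT0' : 0 < T) (hB0 : 0 < B) (hL0 : 0 < L) (hsT20 : 20 ≤ Real.sqrt T)
    (ha : a = T / L ^ 3) (hδ1 : |δ| ≤ 1)
    (g8 : 19200 * CLA ^ 2 * B * L ^ 2 * T ^ (1/2 : ℝ) ≤ T) (g9 : 2400 * CLA * C1 * B * L ^ 2 * T ^ (5/8 : ℝ) ≤ T)
    (g14 : 2400 * CLA ^ 2 * B ≤ L) (g15 : B / (10 * CLA) ≤ L) (g16 : NT T ≤ T * L) :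
    (20 * CLA * L + 2 * B) * f0 T a (T - 2) (Real.sqrt T) δ ≤ T / B := by
  have hCLA := CLA_pos
  have hC1 := C1_nonneg
  have hsT : Real.sqrt T = T ^ (1/2 : ℝ) := Real.sqrt_eq_rpow T
  have ha0 : 0 ≤ a := by rw [ha]; positivity
  have h1 : 2 * B ≤ 20 * CLA * L := by
    rw [div_le_iff₀ (by positivity)] at g15
    linarith
  have r1 : Real.sqrt T ^ (-(3/4) : ℝ) = T ^ (-(3/8) : ℝ) := by
    rw [hsT, ← Real.rpow_mul hT0'.le]
    norm_num
  have hp : 0 < T ^ (-(3/8) : ℝ) := Real.rpow_pos_of_pos hT0' _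
  have r6 : T * T ^ (-(3/8) : ℝ) = T ^ (5/8 : ℝ) := by
    nth_rewrite 1 [← Real.rpow_one T]
    rw [← Real.rpow_add hT0']
    norm_num
  have hp2 : 0 < T ^ (5/8 : ℝ) := Real.rpow_pos_of_pos hT0' _
  have h2 : f0 T a (T - 2) (Real.sqrt T) δ ≤ 20 * CLA * L * (a + 8 * Real.sqrt T) + 20 * C1 * L * T ^ (5/8 : ℝ) := by
    unfold f0
    rw [← hL, r1]
    have h3 : 20 * CLA * L * (a + (T - (T - 2)) + 4 * |δ| + 2 * Real.sqrt T) ≤ 20 * CLA * L * (a + 8 * Real.sqrt T) :=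
      mul_le_mul_of_nonneg_left (by linarith) (by positivity)
    have h4 : 20 * T ^ (-(3/8) : ℝ) * NT T * C1 ≤ 20 * C1 * L * T ^ (5/8 : ℝ) := by
      calc 20 * T ^ (-(3/8) : ℝ) * NT T * C1 ≤ 20 * T ^ (-(3/8) : ℝ) * (T * L) * C1 := by gcongr
        _ = 20 * C1 * L * (T * T ^ (-(3/8) : ℝ)) := by ring
        _ = _ := by rw [r6]
    linarith
  have hf00 : 0 ≤ 20 * CLA * L * (a + 8 * Real.sqrt T) + 20 * C1 * L * T ^ (5/8 : ℝ) := by positivity
  have k1 : 800 * CLA ^ 2 * L ^ 2 * a ≤ T / (3 * B) := by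
    rw [ha, le_div_iff₀ (by positivity)]
    have : 800 * CLA ^ 2 * L ^ 2 * (T / L ^ 3) * (3 * B) = (2400 * CLA ^ 2 * B) * T / L := by
      field_simp
      ring
    rw [this, div_le_iff₀ hL0, mul_comm T L]
    gcongr
  have k2 : 6400 * CLA ^ 2 * L ^ 2 * T ^ (1/2 : ℝ) ≤ T / (3 * B) := by
    rw [le_div_iff₀ (by positivity)]
    linarith
  have k3 : 800 * CLA * C1 * L ^ 2 * T ^ (5/8 : ℝ) ≤ T / (3 * B) := by
    rw [le_div_iff₀ (by positivity)]
    linarith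
  calc (20 * CLA * L + 2 * B) * f0 T a (T - 2) (Real.sqrt T) δ
      ≤ (20 * CLA * L + 2 * B) * (20 * CLA * L * (a + 8 * Real.sqrt T) + 20 * C1 * L * T ^ (5/8 : ℝ)) := by gcongr
    _ ≤ (40 * CLA * L) * (20 * CLA * L * (a + 8 * Real.sqrt T) + 20 * C1 * L * T ^ (5/8 : ℝ)) := by
        gcongr
        linarith
    _ = 800 * CLA ^ 2 * L ^ 2 * a + 6400 * CLA ^ 2 * L ^ 2 * T ^ (1/2 : ℝ) + 800 * CLA * C1 * L ^ 2 * T ^ (5/8 : ℝ) := by
        rw [hsT]; ring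
    _ ≤ T / (3 * B) + T / (3 * B) + T / (3 * B) := add_le_add (add_le_add k1 k2) k3
    _ = T / B := by field_simp; norm_num

lemma comb {G PP N2 w S c B T a4 e1 e2 e3 t K1 : ℝ} (h1 : |G - (PP + N2 - B ^ 2 * w)| ≤ e1 + e2) (h2 : |PP - w / 2 * S| ≤ e3)
    (h3 : |w / 2 * S - T * c| ≤ t + 2 * a4) (h4 : |N2 - 2 * B ^ 2 * T| ≤ t) (h5 : 0 ≤ T - w) (h6 : T - w ≤ a4) (h7 : e1 ≤ K1 * t)
    (h8 : e2 ≤ t) (h9 : e3 ≤ t) (h10 : (B ^ 2 + 4) * a4 ≤ t) (ha4 : 0 ≤ a4) : |G - T * (B ^ 2 + c)| ≤ (K1 + 12) * t := by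
  have hBw : B ^ 2 * (T - w) ≤ B ^ 2 * a4 := by gcongr
  have hBw0 : 0 ≤ B ^ 2 * (T - w) := by positivity
  have hBa0 : 0 ≤ B ^ 2 * a4 := by positivity
  have hfin : (K1 + 12) * t = K1 * t + 12 * t := by ring
  have e : G - T * (B ^ 2 + c) = (G - (PP + N2 - B ^ 2 * w)) + (PP - w / 2 * S) +
      (w / 2 * S - T * c) + (N2 - 2 * B ^ 2 * T) + B ^ 2 * (T - w) := by ring
  rw [hfin, e]
  rw [abs_le] at h1 h2 h3 h4 ⊢
  constructor
  · linarith [h1.1, h2.1, h3.1, h4.1]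
  · linarith [h1.2, h2.2, h3.2, h4.2]

theorem Y_corr : ∃ C : ℝ, 0 < C ∧ ∀ B : ℝ, 9600 ≤ B → ∀ s : ℝ, ∀ᶠ T : ℝ in atTop,
    |(∫ t, Yf (ZT T) (Real.log T / B) t * Yf (ZT T) (Real.log T / B) (t + -(2 * Real.pi * s / Real.log T))) - T * (B ^ 2 + cS (s / B))| ≤ C * (T / B) := by
  obtain ⟨K, hK, hE2⟩ := E_l2
  refine ⟨6 * Real.sqrt K + K + 12, by positivity, fun B hB s => ?_⟩
  have hB0 : 0 < B := by linarith
  have hl := Real.tendsto_log_atTop
  have hCLA := CLA_pos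
  have hC1 := C1_nonneg
  have hCNP := CNP_nonneg
  have hCMe := CMe_pos
  have hpi := Real.pi_pos
  have hB3 : 3 / B < 1 := by
    rw [div_lt_one hB0]; linarith
  obtain ⟨T₁, hN1⟩ := NT_lower (1 / B ^ 4) (by positivity)
  obtain ⟨T₂, hN2⟩ := NT_upper (1 / B ^ 4) (by positivity)
  filter_upwards [hE2 B hB, eventually_ge_atTop (400:ℝ), hl.eventually_ge_atTop 40, hl.eventually_ge_atTop B,
    eventually_ge_atTop T₁, eventually_ge_atTop T₂, hl.eventually_ge_atTop (2 * Real.pi * |s|),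
    log_pow_le (19200 * CLA ^ 2 * B) 2 (s := 1/2) (by norm_num), log_pow_le (2400 * CLA * C1 * B) 2 (s := 5/8) (by norm_num),
    log_pow_le (40 * B) 0 (s := 3/B) hB3, hl.eventually_ge_atTop (2 * B * (B ^ 2 + 4)), eventually_ge_atTop (8 * B * (B ^ 2 + 4)),
    hl.eventually_ge_atTop (2 * B ^ 2 * (CNP + CMe * (3 + 2 * Real.pi * |s| / B))), hl.eventually_ge_atTop (2400 * CLA ^ 2 * B),
    hl.eventually_ge_atTop (B / (10 * CLA)), NT_le_ev] with T g1 g2 g3 g4 g5 g6 g7 g8 g9 g10 g11 g12 g13 g14 g15 g16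
  have hT0' : 0 < T := by linarith
  have hT3 : 3 ≤ T := by linarith
  have e8 : Real.exp (3 * (Real.log T / B)) = T ^ (3 / B) := by
    rw [Real.rpow_def_of_pos hT0']; congr 1; ring
  obtain ⟨L, hL⟩ : ∃ L, L = Real.log T := ⟨_, rfl⟩
  obtain ⟨X, hX⟩ : ∃ X, X = L / B := ⟨_, rfl⟩
  rw [← hL] at g1 g3 g4 g7 g8 g9 g10 g11 g13 g14 g15 g16 ⊢
  rw [← hX] at g1 ⊢
  rw [← hL, ← hX] at e8
  have hL0 : 0 < L := by linarith
  have hX1 : 1 ≤ X := by rw [hX, le_div_iff₀ hB0]; linarith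
  have hX0 : 0 < X := by linarith
  have hsT : Real.sqrt T = T ^ (1/2 : ℝ) := Real.sqrt_eq_rpow T
  have hsT20 : 20 ≤ Real.sqrt T := by
    rw [Real.le_sqrt (by norm_num) hT0'.le]
    linarith
  obtain ⟨δ, hδ⟩ : ∃ δ : ℝ, δ = -(2 * Real.pi * s / L) := ⟨_, rfl⟩
  rw [← hδ]
  have hδabs : |δ| = 2 * Real.pi * |s| / L := by
    rw [hδ, abs_neg, abs_div, abs_mul, abs_of_pos (by positivity : 0 < 2 * Real.pi), abs_of_pos hL0]
  have hδ1 : |δ| ≤ 1 := by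
    rw [hδabs, div_le_one hL0]; exact g7
  have hδ0 := abs_nonneg δ
  have hL3 : L ≤ L ^ 3 := by
    calc L = L ^ 1 := (pow_one L).symm
      _ ≤ L ^ 3 := pow_le_pow_right₀ (by linarith) (by norm_num)
  obtain ⟨a, ha⟩ : ∃ a, a = T / L ^ 3 := ⟨_, rfl⟩
  rw [← ha] at g1
  have ha0 : 0 ≤ a := by rw [ha]; positivity
  have haT : a ≤ T / 40 := by
    rw [ha]
    apply div_le_div_of_nonneg_left hT0'.le (by norm_num)
    linarith
  have haB : a ≤ T / (2 * B * (B ^ 2 + 4)) := by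
    rw [ha]
    apply div_le_div_of_nonneg_left hT0'.le (by positivity)
    linarith
  have hPS : ∫ t in Icc a (T - 2), PS X t ^ 2 ≤ 9 * T := by
    rw [integral_Icc_eq_integral_Ioc, ← intervalIntegral.integral_of_le (by linarith : a ≤ T - 2)]
    refine (PS_sq hX0 (by linarith)).trans ?_
    have q3 : 40 * B * Real.exp (3 * X) ≤ T := by
      rw [e8]; simpa using g10
    have : 32 * Real.exp (3 * X) ≤ 40 * B * Real.exp (3 * X) :=
      mul_le_mul_of_nonneg_right (by linarith) (Real.exp_pos (3 * X)).le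
    linarith
  have hdet := corr_det (T := T) (X := X) (a := a) (b := T - 2) (M := Real.sqrt T) (δ := δ) (B := B) (η := K * (T / B ^ 2)) (p := 9 * T)
    hT3 hX1 (by linarith) ha0 (by linarith) hB0.le (by linarith) g1 hPS
  rw [← hL] at hdet
  -- E1
  have hE1 : 2 * (Real.sqrt (K * (T / B ^ 2)) * Real.sqrt (9 * T)) + K * (T / B ^ 2) ≤ (6 * Real.sqrt K + K) * (T / B) := by
    have h1 : Real.sqrt (K * (T / B ^ 2)) * Real.sqrt (9 * T) = 3 * Real.sqrt K * (T / B) := by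
      rw [← Real.sqrt_mul (by positivity)]
      have : K * (T / B ^ 2) * (9 * T) = K * (3 * (T / B)) ^ 2 := by ring
      rw [this, Real.sqrt_mul hK.le, Real.sqrt_sq (by positivity)]
      ring
    rw [h1]
    have h2 : T / B ^ 2 ≤ T / B := by
      exact div_le_div_of_nonneg_left hT0'.le hB0 (le_self_pow₀ (by linarith) (by norm_num))
    have h3 : K * (T / B ^ 2) ≤ K * (T / B) := by gcongr
    linarith
  -- E2
  have hE2' : (20 * CLA * L + 2 * B) * f0 T a (T - 2) (Real.sqrt T) δ ≤ T / B :=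
    E2_bound hL hT0' hB0 hL0 hsT20 ha hδ1 g8 g9 g14 g15 g16
  -- prime part
  have hI : a + 2 + 2 * |δ| ≤ a + 4 := by linarith
  have hPPc := PS_cross hX0 δ (a + |δ|) (T - 2 - |δ|)
  have hPPd := prime_diag hX0 δ
  set S := ∑ n ∈ Finset.range (NX X + 1), ap X n ^ 2 * Real.cos (δ * Real.log n) with hS
  have hδX : δ * X = -(2 * Real.pi * (s / B)) := by rw [hδ, hX]; field_simp
  have hJ : 4 * ∫ v in (0:ℝ)..1, v * (1 - v) ^ 2 * Real.cos (δ * X * v) = 2 * cS (s / B) := by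
    unfold cS
    rw [hδX]
    have : ∀ v : ℝ, Real.cos (-(2 * Real.pi * (s / B)) * v) = Real.cos (2 * Real.pi * (s / B) * v) := by
      intro v; rw [neg_mul, Real.cos_neg]
    simp_rw [this]
    ring
  rw [hJ] at hPPd
  have hδX2 : |δ| * X = 2 * Real.pi * |s| / B := by rw [hδabs, hX]; field_simp
  rw [hδX2] at hPPd
  have hE5 : 4 * (CNP + CMe * (3 + 2 * Real.pi * |s| / B)) / X ≤ 2 / B := by
    rw [div_le_div_iff₀ hX0 hB0, hX]
    have : 2 * (L / B) = 2 * L / B := by ring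
    rw [this, le_div_iff₀ hB0]
    calc 4 * (CNP + CMe * (3 + 2 * Real.pi * |s| / B)) * B * B = 2 * (2 * B ^ 2 * (CNP + CMe * (3 + 2 * Real.pi * |s| / B))) := by ring
      _ ≤ 2 * L := by linarith
  have hab2 : a + |δ| ≤ T - 2 - |δ| := by linarith
  rw [intervalIntegral.integral_of_le hab2, ← integral_Icc_eq_integral_Ioc] at hPPc
  have hE3 : 40 * Real.exp (3 * X) ≤ T / B := by
    rw [le_div_iff₀ hB0, e8]
    have : 40 * T ^ (3 / B) * B = 40 * B * L ^ 0 * T ^ (3 / B) := by ring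
    rw [this]; exact g10
  have hE4 : (B ^ 2 + 4) * (a + 4) ≤ T / B := by
    have h1 : (B ^ 2 + 4) * a ≤ T / (2 * B) := by
      calc (B ^ 2 + 4) * a ≤ (B ^ 2 + 4) * (T / (2 * B * (B ^ 2 + 4))) := by gcongr
        _ = _ := by field_simp
    have h2 : (B ^ 2 + 4) * 4 ≤ T / (2 * B) := by
      rw [le_div_iff₀ (by positivity)]
      linarith
    have h3 : T / B = T / (2 * B) + T / (2 * B) := by field_simp; norm_num
    linarith
  -- N(T)
  have hNlo := hN1 T g5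
  have hNhi := hN2 T g6
  rw [← hL] at hNlo hNhi
  have hNT : |2 * B * (2 * Real.pi / X * NT T) - 2 * B ^ 2 * T| ≤ T / B := by
    have e1 : 2 * B * (2 * Real.pi / X * NT T) - 2 * B ^ 2 * T = (4 * Real.pi * B ^ 2 / L) * (NT T - T * L / (2 * Real.pi)) := by
      rw [hX]; field_simp; ring
    have h1 : |NT T - T * L / (2 * Real.pi)| ≤ 1 / B ^ 4 * (T * L / (2 * Real.pi)) := by
      rw [abs_le]
      constructor <;> linarith
    rw [e1, abs_mul, abs_of_pos (by positivity)]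
    calc 4 * Real.pi * B ^ 2 / L * |NT T - T * L / (2 * Real.pi)| ≤ 4 * Real.pi * B ^ 2 / L * (1 / B ^ 4 * (T * L / (2 * Real.pi))) := by gcongr
      _ = 2 * T / B ^ 2 := by field_simp; norm_num
      _ ≤ T / B := by
          rw [div_le_div_iff₀ (by positivity) hB0]
          have : 2 ≤ B := by linarith
          calc 2 * T * B = T * B * 2 := by ring
            _ ≤ T * B * B := by gcongr
            _ = T * B ^ 2 := by ring
  -- combine
  set G := ∫ t, Yf (ZT T) X t * Yf (ZT T) X (t + δ) with hG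
  set PP := ∫ t in Icc (a + |δ|) (T - 2 - |δ|), PS X t * PS X (t + δ) with hPP
  have hc2 := cS_abs (s / B)
  obtain ⟨w, hw⟩ : ∃ w, w = T - 2 - |δ| - (a + |δ|) := ⟨_, rfl⟩
  rw [← hw] at hPPc
  have hw2 : T - 2 - a - 2 * |δ| = w := by rw [hw]; ring
  rw [hw2] at hdet
  have hwT : T - w ≤ a + 4 := by rw [hw]; linarith
  have hwT0 : 0 ≤ T - w := by rw [hw]; linarith
  have hw0 : 0 ≤ w := by rw [hw]; linarith
  -- w/2 * S vs T * cS
  have hwS : |w / 2 * S - T * cS (s / B)| ≤ T / B + 2 * (a + 4) := by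
    have e : w / 2 * S - T * cS (s / B) = w / 2 * (S - 2 * cS (s / B)) - (T - w) * cS (s / B) := by ring
    rw [e]
    refine (abs_sub _ _).trans ?_
    rw [abs_mul, abs_mul, abs_of_nonneg (by positivity : 0 ≤ w / 2), abs_of_nonneg hwT0]
    have h1 : w / 2 * |S - 2 * cS (s / B)| ≤ T / 2 * (2 / B) := by
      have : |S - 2 * cS (s / B)| ≤ 2 / B := hPPd.trans hE5
      have : w ≤ T := by linarith
      gcongr
    have h2 : (T - w) * |cS (s / B)| ≤ (a + 4) * 2 := by gcongr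
    have h3 : T / 2 * (2 / B) = T / B := by ring
    linarith
  exact comb hdet hPPc hwS hNT hwT0 hwT hE1 hE2' hE3 hE4 (by linarith)

/-- Unconditional law for the Fejer type kernel, with all shifts. -/
theorem kernel_law : ∃ C : ℝ, 0 < C ∧ ∀ B : ℝ, 9600 ≤ B → ∀ s : ℝ, ∀ᶠ T : ℝ in atTop,
    |(∑ p ∈ Zf T ×ˢ Zf T, (mult p.1 : ℝ) * (mult p.2 : ℝ) * Gm ((nd T p - s) / B)) - SN T * (B + cS (s / B) / B)| ≤ SN T * (C / B ^ 2) := by
  obtain ⟨C, hC, h⟩ := Y_corr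
  refine ⟨C, hC, fun B hB s => ?_⟩
  have hB0 : 0 < B := by linarith
  filter_upwards [h B hB s, eventually_ge_atTop 3] with T hT hT3
  have hLog := one_le_log hT3
  have hL0 : 0 < Real.log T := by linarith
  have hX0 : 0 < Real.log T / B := by positivity
  have hpi := Real.pi_pos
  rw [Yf_corr_eq T _ hX0] at hT
  have e1 : ∑ p ∈ Zf T ×ˢ Zf T, (mult p.1 : ℝ) * (mult p.2 : ℝ) * Gm ((nd T p - s) / B) =
      ∑ p ∈ Zf T ×ˢ Zf T, (mult p.1 : ℝ) * (mult p.2 : ℝ) * Gm (Real.log T / B / (2 * Real.pi) * (p.1.im - p.2.im + -(2 * Real.pi * s / Real.log T))) := by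
    refine Finset.sum_congr rfl fun p _ => ?_
    congr 2
    unfold nd
    field_simp
    ring
  rw [e1]
  set Sg := ∑ p ∈ Zf T ×ˢ Zf T, (mult p.1 : ℝ) * (mult p.2 : ℝ) * Gm (Real.log T / B / (2 * Real.pi) * (p.1.im - p.2.im + -(2 * Real.pi * s / Real.log T)))
  have e2 : Sg - SN T * (B + cS (s / B) / B) = (Real.log T / B / (2 * Real.pi)) * (2 * Real.pi / (Real.log T / B) * Sg - T * (B ^ 2 + cS (s / B))) := by
    unfold SN
    field_simp
  rw [e2, abs_mul, abs_of_pos (by positivity)]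
  calc Real.log T / B / (2 * Real.pi) * |2 * Real.pi / (Real.log T / B) * Sg - T * (B ^ 2 + cS (s / B))|
      ≤ Real.log T / B / (2 * Real.pi) * (C * (T / B)) := by gcongr
    _ = SN T * (C / B ^ 2) := by
        unfold SN
        field_simp

end Pool.Agent.Helper57.LS
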