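import Pool.Agent.Helper57.LS.PSCross

namespace Pool.Agent.Helper57.LS

open Set MeasureTheory Filter Topology
open Pool.Agent.Helper57.LH
open Pool.Agent.Helper57.Zeta

/-- Cauchy-Schwarz for continuous functions on a compact interval -/
lemma cs_icc {f g : ℝ → ℝ} (hf : Continuous f) (hg : Continuous g) (a b : ℝ) :
    |∫ t in Icc a b, f t * g t| ≤ Real.sqrt (∫ t in Icc a b, f t ^ 2) * Real.sqrt (∫ t in Icc a b, g t ^ 2) := by
  have h := cs_gen (μ := volume.restrict (Icc a b)) (f := fun t => |f t|) (g := fun t => |g t|) (fun _ => abs_nonneg _)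
    (fun t => abs_nonneg _) hf.abs.aestronglyMeasurable hg.abs.aestronglyMeasurable
    ((hf.abs.pow 2).continuousOn.integrableOn_compact isCompact_Icc)
    ((hg.abs.pow 2).continuousOn.integrableOn_compact isCompact_Icc)
  simp_rw [sq_abs] at h
  refine le_trans ?_ h
  rw [← Real.norm_eq_abs]
  refine (norm_integral_le_integral_norm _).trans (le_of_eq ?_)
  congr 1
  funext t
  rw [Real.norm_eq_abs, abs_mul]

lemma ioc {f : ℝ → ℝ} (hf : Continuous f) (a b : ℝ) : IntegrableOn f (Icc a b) :=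
  hf.continuousOn.integrableOn_compact isCompact_Icc

lemma shift_int {f : ℝ → ℝ} (hf : Continuous f) (h0 : ∀ t, 0 ≤ f t) {a b a' b' δ : ℝ} (ha : a' ≤ a + δ) (hb : b + δ ≤ b') :
    ∫ t in Icc a b, f (t + δ) ≤ ∫ t in Icc a' b', f t := by
  have h1 : ∫ t in Icc a b, f (t + δ) = ∫ t in Icc (a + δ) (b + δ), f t := by
    have h2 : ∫ t, (Icc (a + δ) (b + δ)).indicator f (t + δ) = ∫ t, (Icc (a + δ) (b + δ)).indicator f t :=
      integral_add_right_eq_self _ δ
    rw [← integral_indicator measurableSet_Icc, ← integral_indicator measurableSet_Icc, ← h2]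
    congr 1
    funext t
    by_cases h : t ∈ Icc a b
    · have h' : t + δ ∈ Icc (a + δ) (b + δ) := ⟨by linarith [h.1], by linarith [h.2]⟩
      rw [indicator_of_mem h, indicator_of_mem h']
    · have h' : t + δ ∉ Icc (a + δ) (b + δ) := fun h' => h ⟨by linarith [h'.1], by linarith [h'.2]⟩
      rw [indicator_of_notMem h, indicator_of_notMem h']
  rw [h1]
  apply setIntegral_mono_set (ioc hf a' b')
  · exact Eventually.of_forall h0
  · exact (Icc_subset_Icc ha hb).eventuallyLE

/-- The L² comparison for correlations. -/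
lemma cross_l2 {Y P : ℝ → ℝ} (hY : Continuous Y) (hP : Continuous P) {a b δ B η p : ℝ} (hab : a + |δ| ≤ b - |δ|)
    (hE : ∫ t in Icc a b, (Y t - B + P t) ^ 2 ≤ η) (hp : ∫ t in Icc a b, P t ^ 2 ≤ p) :
    |(∫ t in Icc (a + |δ|) (b - |δ|), Y t * Y (t + δ)) - (∫ t in Icc (a + |δ|) (b - |δ|), P t * P (t + δ)) -
      B * ((∫ t in Icc (a + |δ|) (b - |δ|), Y t) + ∫ t in Icc (a + |δ|) (b - |δ|), Y (t + δ)) + B ^ 2 * (b - a - 2 * |δ|)| ≤
      2 * (Real.sqrt η * Real.sqrt p) + η := by
  set E : ℝ → ℝ := fun t => Y t - B + P t with hEd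
  have hEc : Continuous E := (hY.sub continuous_const).add hP
  set I := Icc (a + |δ|) (b - |δ|) with hI
  have hδ := abs_nonneg δ
  have hδ1 := le_abs_self δ
  have hδ2 := neg_abs_le δ
  have hs : Continuous (fun t : ℝ => t + δ) := by fun_prop
  have hEd : Continuous (fun t => E (t + δ)) := hEc.comp hs
  have hPd : Continuous (fun t => P (t + δ)) := hP.comp hs
  have hYd : Continuous (fun t => Y (t + δ)) := hY.comp hs
  -- pointwise identity
  have hpt : ∀ t, Y t * Y (t + δ) = (P t * P (t + δ)) + (B * Y t + (B * Y (t + δ) + (-(B ^ 2) + (-(P t * E (t + δ)) + (-(E t * P (t + δ)) + E t * E (t + δ)))))) := by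
    intro t
    simp only [hEd, E]
    ring
  have i1 : IntegrableOn (fun t => P t * P (t + δ)) I := ioc (hP.mul hPd) _ _
  have i2 : IntegrableOn (fun t => B * Y t) I := ioc (continuous_const.mul hY) _ _
  have i3 : IntegrableOn (fun t => B * Y (t + δ)) I := ioc (continuous_const.mul hYd) _ _
  have i4 : IntegrableOn (fun _ : ℝ => -(B ^ 2)) I := ioc continuous_const _ _
  have i5 : IntegrableOn (fun t => -(P t * E (t + δ))) I := ioc (hP.mul hEd).neg _ _
  have i6 : IntegrableOn (fun t => -(E t * P (t + δ))) I := ioc (hEc.mul hPd).neg _ _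
  have i7 : IntegrableOn (fun t => E t * E (t + δ)) I := ioc (hEc.mul hEd) _ _
  have hsum : ∫ t in I, Y t * Y (t + δ) = (∫ t in I, P t * P (t + δ)) + (B * (∫ t in I, Y t) + (B * (∫ t in I, Y (t + δ)) +
      (-(B ^ 2) * (b - a - 2 * |δ|) + (-(∫ t in I, P t * E (t + δ)) + (-(∫ t in I, E t * P (t + δ)) + ∫ t in I, E t * E (t + δ)))))) := by
    simp_rw [hpt]
    have e1 := integral_add (μ := volume.restrict I) i1 (i2.add (i3.add (i4.add (i5.add (i6.add i7)))))
    have e2 := integral_add (μ := volume.restrict I) i2 (i3.add (i4.add (i5.add (i6.add i7))))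
    have e3 := integral_add (μ := volume.restrict I) i3 (i4.add (i5.add (i6.add i7)))
    have e4 := integral_add (μ := volume.restrict I) i4 (i5.add (i6.add i7))
    have e5 := integral_add (μ := volume.restrict I) i5 (i6.add i7)
    have e6 := integral_add (μ := volume.restrict I) i6 i7
    simp only [Pi.add_apply] at e1 e2 e3 e4 e5 e6
    rw [e1, e2, e3, e4, e5, e6, integral_const_mul, integral_const_mul, setIntegral_const, Real.volume_real_Icc_of_le hab, smul_eq_mul,
      integral_neg, integral_neg]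
    ring
  have hη : ∫ t in I, E t ^ 2 ≤ η := by
    refine le_trans ?_ hE
    apply setIntegral_mono_set (ioc (hEc.pow 2) _ _)
    · exact Eventually.of_forall fun t => sq_nonneg _
    · exact (Icc_subset_Icc (by linarith) (by linarith)).eventuallyLE
  have hη' : ∫ t in I, E (t + δ) ^ 2 ≤ η := by
    refine le_trans ?_ hE
    exact shift_int (f := fun t => E t ^ 2) (hEc.pow 2) (fun t => sq_nonneg _) (by linarith) (by linarith)
  have hp1 : ∫ t in I, P t ^ 2 ≤ p := by
    refine le_trans ?_ hp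
    apply setIntegral_mono_set (ioc (hP.pow 2) _ _)
    · exact Eventually.of_forall fun t => sq_nonneg _
    · exact (Icc_subset_Icc (by linarith) (by linarith)).eventuallyLE
  have hp2 : ∫ t in I, P (t + δ) ^ 2 ≤ p := by
    refine le_trans ?_ hp
    exact shift_int (f := fun t => P t ^ 2) (hP.pow 2) (fun t => sq_nonneg _) (by linarith) (by linarith)
  have hη0 : 0 ≤ η := le_trans (integral_nonneg fun t => sq_nonneg _) hE
  have c1 := cs_icc hP hEd (a + |δ|) (b - |δ|)
  have c2 := cs_icc hEc hPd (a + |δ|) (b - |δ|)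
  have c3 := cs_icc hEc hEd (a + |δ|) (b - |δ|)
  rw [← hI] at c1 c2 c3
  have d1 : |∫ t in I, P t * E (t + δ)| ≤ Real.sqrt p * Real.sqrt η := c1.trans (by gcongr)
  have d2 : |∫ t in I, E t * P (t + δ)| ≤ Real.sqrt η * Real.sqrt p := c2.trans (by gcongr)
  have d3 : |∫ t in I, E t * E (t + δ)| ≤ η := by
    calc |∫ t in I, E t * E (t + δ)| ≤ Real.sqrt η * Real.sqrt η := c3.trans (by gcongr)
      _ = η := Real.mul_self_sqrt hη0
  rw [hsum]
  have e : (∫ t in I, P t * P (t + δ)) + (B * (∫ t in I, Y t) + (B * (∫ t in I, Y (t + δ)) +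
      (-(B ^ 2) * (b - a - 2 * |δ|) + (-(∫ t in I, P t * E (t + δ)) + (-(∫ t in I, E t * P (t + δ)) + ∫ t in I, E t * E (t + δ)))))) -
      (∫ t in I, P t * P (t + δ)) - B * ((∫ t in I, Y t) + ∫ t in I, Y (t + δ)) + B ^ 2 * (b - a - 2 * |δ|) =
      -(∫ t in I, P t * E (t + δ)) + (-(∫ t in I, E t * P (t + δ)) + ∫ t in I, E t * E (t + δ)) := by ring
  rw [e]
  have a1 := abs_le.mp d1
  have a2 := abs_le.mp d2
  have a3 := abs_le.mp d3
  have hcomm : Real.sqrt p * Real.sqrt η = Real.sqrt η * Real.sqrt p := mul_comm _ _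
  rw [hcomm] at a1
  rw [abs_le]
  constructor <;> linarith [a1.1, a1.2, a2.1, a2.2, a3.1, a3.2]

end Pool.Agent.Helper57.LS
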