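import Pool.Agent.Helper57.LS.Super

namespace Pool.Agent.Helper57.LS

open Set MeasureTheory Filter Topology
open Pool.Agent.Helper57.LH
open Pool.Agent.Helper57.Zeta
open Pool.Agent.Helper57.PC
open Pool.Agent.Helper4.PC (gh gh_integrable CT_gh EE KernelLaw Gs_integrable WP_shift Gm_lower EE_add EE_smul phiF_int pcDensity_measurable)
open scoped SchwartzMap FourierTransform

lemma pred_bound {B : ℝ} (hB : 0 < B) (v : ℝ) : |Gm ((0 - v) / B) + ∫ u, Gm ((u - v) / B) * pcDensity u| ≤ 1 + B := by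
  have h1 : Gm ((0 - v) / B) ≤ 1 := (Gm_le _).trans Pool.Agent.Helper4.PC.Gm_zero_le_one
  have h0 := Gm_nonneg ((0 - v) / B)
  have hG := Gs_integrable hB v
  have h2 : ∫ u, Gm ((u - v) / B) * pcDensity u ≤ ∫ u, Gm ((u - v) / B) := by
    apply integral_mono (phiF_int hG) hG
    intro u
    exact mul_le_of_le_one_right (Gm_nonneg _) (pcDensity_le_one u)
  have h3 : ∫ u, Gm ((u - v) / B) = B := by
    have h4 : ∫ u, (fun x => Gm (x / B)) (u - v) = ∫ u, Gm (u / B) := integral_sub_right_eq_self (fun x => Gm (x / B)) v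
    have h5 : ∫ u, Gm (u / B) = B := by
      rw [Measure.integral_comp_div Gm B, Gm_integral, abs_of_pos hB, smul_eq_mul, mul_one]
    rw [h5] at h4; exact h4
  have h6 : 0 ≤ ∫ u, Gm ((u - v) / B) * pcDensity u := integral_nonneg fun u => mul_nonneg (Gm_nonneg _) (pcDensity_nonneg u)
  rw [abs_of_nonneg (by linarith)]
  linarith

/-- uniform bound for the deviation of all kernels, and the law for each one -/
theorem dev : ∃ C : ℝ, 0 < C ∧ (∀ᶠ T : ℝ in atTop, ∀ B : ℝ, 0 < B → ∀ v : ℝ, |EE T (fun u => Gm ((u - v) / B))| ≤ C * (1 + B) * SN T) ∧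
    ∀ B : ℝ, 0 < B → ∀ v : ℝ, ∀ᶠ T : ℝ in atTop, |EE T (fun u => Gm ((u - v) / B))| ≤ C / B ^ 2 * SN T := by
  obtain ⟨C₁, hC₁, hK⟩ := kernelLaw
  obtain ⟨C₂, hC₂, hU⟩ := uni
  have hU' : ∀ᶠ T : ℝ in atTop, ∀ B : ℝ, 0 < B → ∀ v : ℝ, |EE T (fun u => Gm ((u - v) / B))| ≤ (C₂ + 1) * (1 + B) * SN T := by
    filter_upwards [hU, eventually_gt_atTop 1] with T hT hT1 B hB v
    have hS := SN_pos hT1
    unfold EE
    have h1 := hT B hB v
    have h2 := pred_bound hB v
    have h3 : 0 ≤ WP T (fun u => Gm ((u - v) / B)) := WP_nonneg fun u => Gm_nonneg _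
    refine (abs_sub _ _).trans ?_
    rw [abs_of_nonneg h3, abs_mul, abs_of_pos hS]
    have h4 : SN T * |Gm ((0 - v) / B) + ∫ u, Gm ((u - v) / B) * pcDensity u| ≤ SN T * (1 + B) := by gcongr
    linarith
  refine ⟨C₁ + (C₂ + 1) * 9601 * 9600 ^ 2, by positivity, ?_, ?_⟩
  · filter_upwards [hU', eventually_gt_atTop 1] with T hT hT1 B hB v
    have hS := SN_pos hT1
    refine (hT B hB v).trans ?_
    have hc : C₂ + 1 ≤ C₁ + (C₂ + 1) * 9601 * 9600 ^ 2 := by linarith
    exact mul_le_mul_of_nonneg_right (mul_le_mul_of_nonneg_right hc (by linarith)) hS.le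
  · intro B hB v
    rcases le_total 9600 B with h | h
    · filter_upwards [hK B h v, eventually_gt_atTop 1] with T hT hT1
      have hS := SN_pos hT1
      refine hT.trans ?_
      rw [mul_comm]
      gcongr
      have : 0 ≤ (C₂ + 1) * 9601 * 9600 ^ 2 := by positivity
      linarith
    · filter_upwards [hU', eventually_gt_atTop 1] with T hT hT1
      have hS := SN_pos hT1
      refine (hT B hB v).trans ?_
      gcongr
      rw [le_div_iff₀ (by positivity)]
      have h1 : (C₂ + 1) * (1 + B) * B ^ 2 ≤ (C₂ + 1) * (1 + 9600) * 9600 ^ 2 := by gcongr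
      have h2 : (C₂ + 1) * (1 + 9600) * 9600 ^ 2 = (C₂ + 1) * 9601 * 9600 ^ 2 := by norm_num
      linarith

/-- Large scale law for Schwartz test functions. -/
theorem large_scale (g : 𝓢(ℝ, ℝ)) : ∃ C : ℝ, ∀ R : ℝ, 0 < R → ∀ s : ℝ, (s = 0 ∨ ∀ x, g (-x) = g x) →
    ∀ᶠ T : ℝ in atTop, |EE T (fun u => g ((u - s) / R))| ≤ C / R ^ 2 * SN T := by
  obtain ⟨C, hC, hU, hL⟩ := dev
  set I3 : ℝ := ∫ x in Ioi (0:ℝ), |wg g x| * x ^ 3 with hI3
  refine ⟨C * I3 + 1, fun R hR s hs => ?_⟩
  -- kernels in the variable x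
  have hsc : ∀ x : ℝ, 0 < x → (fun u => Gm (x * ((u - s) / R))) = fun u => Gm ((u - s) / (R / x)) := by
    intro x hx
    funext u
    congr 1
    field_simp
  set F : ℝ → ℝ → ℝ := fun T x => wg g x * x * EE T (fun u => Gm (x * ((u - s) / R))) with hF
  have hFi : ∀ T, IntegrableOn (F T) (Ioi 0) := fun T => (EE_super g hR s T).2
  set m : ℝ → ℝ := fun x => |wg g x| * x ^ 3 * (C / R ^ 2) with hm
  have hmi : IntegrableOn m (Ioi 0) := (wg_int g 3).mul_const _
  set h : ℝ → ℝ → ℝ := fun T x => max 0 (|F T x| / SN T - m x) with hh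
  set bd : ℝ → ℝ := fun x => C * (|wg g x| * x ^ 1) + C * R * (|wg g x| * x ^ 0) with hbd
  have hbdi : IntegrableOn bd (Ioi 0) := ((wg_int g 1).const_mul C).add ((wg_int g 0).const_mul (C * R))
  have hbound : ∀ᶠ T : ℝ in atTop, ∀ x ∈ Ioi (0:ℝ), |F T x| / SN T ≤ bd x := by
    filter_upwards [hU, eventually_gt_atTop 1] with T hT hT1 x hx
    have hx0 : 0 < x := hx
    have hS := SN_pos hT1
    rw [div_le_iff₀ hS, hF, hbd]
    simp only
    rw [hsc x hx0, abs_mul, abs_mul, abs_of_pos hx0]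
    have h1 := hT (R / x) (by positivity) s
    calc |wg g x| * x * |EE T (fun u => Gm ((u - s) / (R / x)))| ≤ |wg g x| * x * (C * (1 + R / x) * SN T) := by gcongr
      _ = _ := by field_simp
  have hlim : Tendsto (fun T => ∫ x in Ioi (0:ℝ), h T x) atTop (𝓝 (∫ x in Ioi (0:ℝ), (0:ℝ))) := by
    apply tendsto_integral_filter_of_dominated_convergence bd
    · filter_upwards with T
      have : AEStronglyMeasurable (fun x => |F T x| / SN T - m x) (volume.restrict (Ioi 0)) :=
        ((hFi T).norm.div_const (SN T)).aestronglyMeasurable.sub hmi.aestronglyMeasurable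
      exact aestronglyMeasurable_const.sup this
    · filter_upwards [hbound, eventually_gt_atTop 1] with T hT hT1
      rw [ae_restrict_iff' measurableSet_Ioi]
      filter_upwards with x hx
      have hx0 : 0 < x := hx
      rw [hh]
      simp only
      rw [Real.norm_of_nonneg (le_max_left _ _)]
      have h1 := hT x hx
      have h2 : 0 ≤ m x := by rw [hm]; positivity
      apply max_le
      · exact le_trans (div_nonneg (abs_nonneg _) (SN_pos hT1).le) h1
      · linarith
    · exact hbdi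
    · rw [ae_restrict_iff' measurableSet_Ioi]
      filter_upwards with x hx
      have hx0 : 0 < x := hx
      apply tendsto_const_nhds.congr'
      filter_upwards [hL (R / x) (by positivity) s, eventually_gt_atTop 1] with T hT hT1
      have hS := SN_pos hT1
      rw [hh]
      simp only
      symm
      apply max_eq_left
      rw [sub_nonpos, div_le_iff₀ hS, hF, hm]
      simp only
      rw [hsc x hx0, abs_mul, abs_mul, abs_of_pos hx0]
      calc |wg g x| * x * |EE T (fun u => Gm ((u - s) / (R / x)))| ≤ |wg g x| * x * (C / (R / x) ^ 2 * SN T) := by gcongr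
        _ = _ := by field_simp
  rw [integral_zero] at hlim
  have hev : ∀ᶠ T : ℝ in atTop, ∫ x in Ioi (0:ℝ), h T x ≤ 1 / R ^ 2 := hlim.eventually_le_const (by positivity)
  filter_upwards [hev, hbound, eventually_gt_atTop 1] with T h1 h2 hT1
  have hS := SN_pos hT1
  rw [EE_even g hR hs, (EE_super g hR s T).1]
  have hFi' : IntegrableOn (fun x => |F T x| / SN T) (Ioi 0) := (hFi T).norm.div_const _
  have hhi : IntegrableOn (h T) (Ioi 0) := by
    refine hbdi.mono' ?_ ?_
    · have : AEStronglyMeasurable (fun x => |F T x| / SN T - m x) (volume.restrict (Ioi 0)) :=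
        hFi'.aestronglyMeasurable.sub hmi.aestronglyMeasurable
      exact aestronglyMeasurable_const.sup this
    · rw [ae_restrict_iff' measurableSet_Ioi]
      filter_upwards with x hx
      have hx0 : 0 < x := hx
      rw [hh]
      simp only
      rw [Real.norm_of_nonneg (le_max_left _ _)]
      have h3 := h2 x hx
      have h4 : 0 ≤ m x := by rw [hm]; positivity
      apply max_le
      · exact le_trans (div_nonneg (abs_nonneg _) hS.le) h3
      · linarith
  have h3 : |∫ x in Ioi (0:ℝ), F T x| ≤ ∫ x in Ioi (0:ℝ), |F T x| := abs_integral_le_integral_abs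
  have h4 : ∫ x in Ioi (0:ℝ), |F T x| / SN T ≤ ∫ x in Ioi (0:ℝ), (h T x + m x) := by
    apply setIntegral_mono_on hFi' (hhi.add hmi) measurableSet_Ioi
    intro x _
    simp only [Pi.add_apply, hh]
    have := le_max_right 0 (|F T x| / SN T - m x)
    linarith
  rw [integral_add hhi hmi, integral_div] at h4
  have h5 : ∫ x in Ioi (0:ℝ), m x = C * I3 / R ^ 2 := by
    rw [hm, integral_mul_const, ← hI3]; ring
  rw [h5, div_le_iff₀ hS] at h4
  refine h3.trans (h4.trans ?_)
  gcongr
  have : (C * I3 + 1) / R ^ 2 = 1 / R ^ 2 + C * I3 / R ^ 2 := by ring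
  rw [this]
  linarith

end Pool.Agent.Helper57.LS
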