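import Pool.Agent.Helper57.LS.Rep

namespace Pool.Agent.Helper57.LS

open Set MeasureTheory Filter Topology
open Pool.Agent.Helper57.LH
open scoped SchwartzMap FourierTransform

lemma int_fold {h : ℝ → ℝ} (hh : Integrable h) : ∫ x, h x = ∫ x in Ioi (0:ℝ), (h x + h (-x)) := by
  rw [integral_add hh.integrableOn hh.comp_neg.integrableOn, integral_comp_neg_Ioi, neg_zero,
    ← intervalIntegral.integral_Iic_add_Ioi hh.integrableOn hh.integrableOn (b := 0)]
  ring

/-- complexification -/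
noncomputable def cpx (g : 𝓢(ℝ, ℝ)) : 𝓢(ℝ, ℂ) := g.postcompCLM Complex.ofRealCLM

lemma cpx_apply (g : 𝓢(ℝ, ℝ)) (x : ℝ) : cpx g x = (g x : ℂ) := by
  unfold cpx
  rw [SchwartzMap.postcompCLM_apply]
  rfl

/-- the transform -/
noncomputable def ph (g : 𝓢(ℝ, ℝ)) : 𝓢(ℝ, ℝ) := (𝓕 (cpx g)).postcompCLM Complex.reCLM

lemma ph_apply (g : 𝓢(ℝ, ℝ)) (x : ℝ) : ph g x = (𝓕 (cpx g) x).re := by
  unfold ph
  rw [SchwartzMap.postcompCLM_apply]
  rfl

noncomputable def Ph (g : 𝓢(ℝ, ℝ)) : 𝓢(ℝ, ℝ) :=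
  ph g + SchwartzMap.compCLMOfContinuousLinearEquiv ℝ (LinearIsometryEquiv.neg ℝ (E := ℝ)) (ph g)

lemma Ph_apply (g : 𝓢(ℝ, ℝ)) (x : ℝ) : Ph g x = ph g x + ph g (-x) := by
  unfold Ph
  rw [SchwartzMap.add_apply, SchwartzMap.compCLMOfContinuousLinearEquiv_apply]
  rfl

lemma inv_formula (g : 𝓢(ℝ, ℝ)) (u : ℝ) : (g u : ℂ) = ∫ ξ : ℝ, Complex.exp ((2 * Real.pi * u * ξ : ℝ) * Complex.I) * 𝓕 (cpx g) ξ := by
  have h : 𝓕⁻ (𝓕 (cpx g)) = cpx g := FourierTransform.fourierInv_fourier_eq (cpx g)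
  have h2 : (𝓕⁻ (𝓕 (cpx g))) u = (g u : ℂ) := by rw [h, cpx_apply]
  rw [← h2, SchwartzMap.fourierInv_coe, Real.fourierInv_eq']
  congr 1
  funext ξ
  rw [smul_eq_mul]
  congr 3
  push_cast
  simp
  ring

lemma exp_int (g : 𝓢(ℝ, ℝ)) (u : ℝ) : Integrable (fun ξ : ℝ => Complex.exp ((2 * Real.pi * u * ξ : ℝ) * Complex.I) * 𝓕 (cpx g) ξ) := by
  have hI : Integrable (fun ξ : ℝ => 𝓕 (cpx g) ξ) := (𝓕 (cpx g)).integrable
  refine hI.mono ?_ ?_
  · apply Continuous.aestronglyMeasurable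
    have := (𝓕 (cpx g)).continuous
    fun_prop
  · filter_upwards with x
    rw [norm_mul, Complex.norm_exp_ofReal_mul_I, one_mul]

/-- cosine representation of the even part -/
lemma even_rep (g : 𝓢(ℝ, ℝ)) (u : ℝ) : (g u + g (-u)) / 2 = ∫ x in Ioi (0:ℝ), Ph g x * Real.cos (2 * Real.pi * u * x) := by
  have h1 := inv_formula g u
  have h2 := inv_formula g (-u)
  have h3 : ((g u : ℂ) + (g (-u) : ℂ)) = ∫ ξ : ℝ, (2 * Real.cos (2 * Real.pi * u * ξ) : ℝ) * 𝓕 (cpx g) ξ := by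
    rw [h1, h2, ← integral_add (exp_int g u) (exp_int g (-u))]
    congr 1
    funext ξ
    rw [← add_mul]
    congr 1
    apply Complex.ext
    · rw [Complex.add_re, Complex.exp_ofReal_mul_I_re, Complex.exp_ofReal_mul_I_re, Complex.ofReal_re,
        show 2 * Real.pi * -u * ξ = -(2 * Real.pi * u * ξ) by ring, Real.cos_neg]
      ring
    · rw [Complex.add_im, Complex.exp_ofReal_mul_I_im, Complex.exp_ofReal_mul_I_im, Complex.ofReal_im,
        show 2 * Real.pi * -u * ξ = -(2 * Real.pi * u * ξ) by ring, Real.sin_neg]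
      ring
  have hci : Integrable (fun ξ : ℝ => ((2 * Real.cos (2 * Real.pi * u * ξ) : ℝ) : ℂ) * 𝓕 (cpx g) ξ) := by
    have hI : Integrable (fun ξ : ℝ => (2:ℂ) * 𝓕 (cpx g) ξ) := (𝓕 (cpx g)).integrable.const_mul 2
    refine hI.mono ?_ ?_
    · apply Continuous.aestronglyMeasurable
      have := (𝓕 (cpx g)).continuous
      fun_prop
    · filter_upwards with x
      rw [norm_mul, norm_mul, Complex.norm_real, norm_mul, Real.norm_eq_abs (Real.cos _)]
      have := Real.abs_cos_le_one (2 * Real.pi * u * x)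
      simp only [Real.norm_ofNat, Complex.norm_ofNat]
      gcongr
      linarith
  have h4 : g u + g (-u) = ∫ ξ : ℝ, 2 * Real.cos (2 * Real.pi * u * ξ) * ph g ξ := by
    have h5 := congrArg Complex.re h3
    rw [Complex.add_re, Complex.ofReal_re, Complex.ofReal_re, ← Complex.reCLM_apply (∫ ξ : ℝ, _), ← Complex.reCLM.integral_comp_comm hci] at h5
    rw [h5]
    congr 1
    funext ξ
    rw [Complex.reCLM_apply, Complex.re_ofReal_mul, ph_apply]
  have hpi : Integrable (fun ξ : ℝ => 2 * Real.cos (2 * Real.pi * u * ξ) * ph g ξ) := by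
    have hI : Integrable (fun ξ : ℝ => 2 * ph g ξ) := (ph g).integrable.const_mul 2
    refine hI.mono ?_ ?_
    · apply Continuous.aestronglyMeasurable
      have := (ph g).continuous
      fun_prop
    · filter_upwards with x
      rw [norm_mul, norm_mul, norm_mul, Real.norm_eq_abs (Real.cos _)]
      have := Real.abs_cos_le_one (2 * Real.pi * u * x)
      simp only [Real.norm_ofNat]
      gcongr
      linarith
  rw [h4, int_fold hpi, ← integral_div]
  apply setIntegral_congr_fun measurableSet_Ioi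
  intro x _
  simp only
  rw [Ph_apply, show 2 * Real.pi * u * -x = -(2 * Real.pi * u * x) by ring, Real.cos_neg]
  ring

/-- the weight attached to a Schwartz function -/
noncomputable def wg (g : 𝓢(ℝ, ℝ)) : ℝ → ℝ := wt (Ph g)

/-- superposition of kernels -/
theorem super (g : 𝓢(ℝ, ℝ)) (u : ℝ) : (g u + g (-u)) / 2 = ∫ x in Ioi (0:ℝ), wg g x * x * Gm (x * u) := by
  rw [even_rep, cos_rep]
  rfl

end Pool.Agent.Helper57.LS
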