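import Pool.Agent.Helper57.LS.Bridge
import Pool.Agent.Helper57.LS.SchRep
import Pool.Agent.Helper4.PC.Main

namespace Pool.Agent.Helper57.LS

open Set MeasureTheory Filter Topology
open Pool.Agent.Helper57.LH
open Pool.Agent.Helper57.Zeta
open Pool.Agent.Helper57.PC
open Pool.Agent.Helper4.PC (gh gh_integrable CT_gh EE KernelLaw Gs_integrable WP_shift Gm_lower)

lemma K_int : Integrable (fun y : ℝ => (1 + y ^ 2)⁻¹) := integrable_inv_one_add_sq

lemma sc_K (w : ℝ) : sc w ≤ 5 * (1 + w ^ 2)⁻¹ := by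
  refine (sc_decay w).trans ?_
  unfold Kd
  have hpi := Real.pi_gt_three
  have h1 : w ^ 2 ≤ (2 * Real.pi * w) ^ 2 := by
    rw [mul_pow]
    have : 1 ≤ (2 * Real.pi) ^ 2 := by nlinarith
    nlinarith [sq_nonneg w]
  gcongr

lemma K_pair (x y : ℝ) : (1 + x ^ 2)⁻¹ * (1 + (y - x) ^ 2)⁻¹ ≤ (1 + (y / 2) ^ 2)⁻¹ * ((1 + x ^ 2)⁻¹ + (1 + (y - x) ^ 2)⁻¹) := by
  have p1 : 0 < (1 + x ^ 2)⁻¹ := by positivity
  have p2 : 0 < (1 + (y - x) ^ 2)⁻¹ := by positivity
  have p3 : 0 < (1 + (y / 2) ^ 2)⁻¹ := by positivity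
  rcases le_total ((y / 2) ^ 2) (x ^ 2) with h | h
  · have h1 : (1 + x ^ 2)⁻¹ ≤ (1 + (y / 2) ^ 2)⁻¹ := by gcongr
    calc (1 + x ^ 2)⁻¹ * (1 + (y - x) ^ 2)⁻¹ ≤ (1 + (y / 2) ^ 2)⁻¹ * (1 + (y - x) ^ 2)⁻¹ := by gcongr
      _ ≤ _ := by
        apply mul_le_mul_of_nonneg_left _ p3.le
        linarith
  · have h2 : (y / 2) ^ 2 ≤ (y - x) ^ 2 := by
      have h3 := sq_le_sq.mp h
      rw [sq_le_sq]
      have h4 : |y| ≤ |y - x| + |x| := by
        calc |y| = |(y - x) + x| := by ring_nf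
          _ ≤ _ := abs_add_le _ _
      have h5 : |y / 2| = |y| / 2 := by rw [abs_div]; norm_num
      rw [h5] at h3 ⊢
      linarith
    have h1 : (1 + (y - x) ^ 2)⁻¹ ≤ (1 + (y / 2) ^ 2)⁻¹ := by gcongr
    calc (1 + x ^ 2)⁻¹ * (1 + (y - x) ^ 2)⁻¹ ≤ (1 + x ^ 2)⁻¹ * (1 + (y / 2) ^ 2)⁻¹ := by gcongr
      _ = (1 + (y / 2) ^ 2)⁻¹ * (1 + x ^ 2)⁻¹ := mul_comm _ _
      _ ≤ _ := by
        apply mul_le_mul_of_nonneg_left _ p3.le
        linarith

lemma Gm_upper (y : ℝ) : Gm y ≤ 200 * Real.pi * (1 + y ^ 2)⁻¹ := by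
  unfold Gm
  have hpi := Real.pi_pos
  have hK2 : Integrable (fun x : ℝ => (1 + (y - x) ^ 2)⁻¹) := K_int.comp_sub_left y
  have h1 : ∫ x, sc x * sc (y - x) ≤ ∫ x, 25 * ((1 + (y / 2) ^ 2)⁻¹ * ((1 + x ^ 2)⁻¹ + (1 + (y - x) ^ 2)⁻¹)) := by
    apply integral_mono (scsc_integrable y)
    · exact ((K_int.add hK2).const_mul _).const_mul _
    · intro x
      simp only
      have a1 := sc_K x
      have a2 := sc_K (y - x)
      have b1 := sc_nonneg x
      have b2 := sc_nonneg (y - x)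
      have := K_pair x y
      calc sc x * sc (y - x) ≤ (5 * (1 + x ^ 2)⁻¹) * (5 * (1 + (y - x) ^ 2)⁻¹) := by gcongr
        _ = 25 * ((1 + x ^ 2)⁻¹ * (1 + (y - x) ^ 2)⁻¹) := by ring
        _ ≤ _ := by gcongr
  refine h1.trans ?_
  have h2 : ∫ x : ℝ, (1 + (y - x) ^ 2)⁻¹ = Real.pi := by
    rw [← integral_univ_inv_one_add_sq]
    exact integral_sub_left_eq_self (fun x : ℝ => (1 + x ^ 2)⁻¹) volume y
  rw [integral_const_mul, integral_const_mul, integral_add K_int hK2, h2, integral_univ_inv_one_add_sq]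
  have h3 : (1 + (y / 2) ^ 2)⁻¹ ≤ 4 * (1 + y ^ 2)⁻¹ := by
    rw [← div_eq_mul_inv, inv_le_comm₀ (by positivity) (by positivity), inv_div]
    have : (y / 2) ^ 2 = y ^ 2 / 4 := by ring
    rw [this]
    linarith
  calc 25 * ((1 + (y / 2) ^ 2)⁻¹ * (Real.pi + Real.pi)) ≤ 25 * ((4 * (1 + y ^ 2)⁻¹) * (Real.pi + Real.pi)) := by gcongr
    _ = _ := by ring

lemma Gm_lower' (y : ℝ) : (1 + y ^ 2)⁻¹ ≤ Real.pi ^ 4 * Gm y := by
  have h := Gm_lower y
  have hpi := Real.pi_pos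
  calc (1 + y ^ 2)⁻¹ = Real.pi ^ 4 * (1 / (Real.pi ^ 4 * (1 + y ^ 2))) := by field_simp
    _ ≤ _ := by gcongr

/-- domination of a wide kernel by narrow ones -/
lemma wide {B B₀ : ℝ} (hB₀ : 0 < B₀) (hB : B₀ ≤ B) (u : ℝ) :
    (1 + (u / B) ^ 2)⁻¹ ≤ (6 / B₀) * ∫ v, (1 + (v / B) ^ 2)⁻¹ * (1 + ((u - v) / B₀) ^ 2)⁻¹ := by
  have hB0 : 0 < B := by linarith
  have hint : Integrable (fun v => (1 + (v / B) ^ 2)⁻¹ * (1 + ((u - v) / B₀) ^ 2)⁻¹) := by
    have h1 : Integrable (fun v : ℝ => (1 + (v / B) ^ 2)⁻¹) := K_int.comp_div hB0.ne'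
    refine h1.mono' ?_ ?_
    · apply Continuous.aestronglyMeasurable
      apply Continuous.mul
      · apply Continuous.inv₀ (by fun_prop); intro v; positivity
      · apply Continuous.inv₀ (by fun_prop); intro v; positivity
    · filter_upwards with v
      rw [Real.norm_of_nonneg (by positivity)]
      have : (1 + ((u - v) / B₀) ^ 2)⁻¹ ≤ 1 := inv_le_one_of_one_le₀ (by nlinarith [sq_nonneg ((u - v) / B₀)])
      have h2 : 0 < (1 + (v / B) ^ 2)⁻¹ := by positivity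
      nlinarith
  have h1 : ∫ v in Icc u (u + B₀), (1 / 6) * (1 + (u / B) ^ 2)⁻¹ ≤ ∫ v in Icc u (u + B₀), (1 + (v / B) ^ 2)⁻¹ * (1 + ((u - v) / B₀) ^ 2)⁻¹ := by
    apply setIntegral_mono_on _ hint.integrableOn measurableSet_Icc
    · intro v hv
      have hv1 : 0 ≤ v - u := by linarith [hv.1]
      have hv2 : v - u ≤ B₀ := by linarith [hv.2]
      have h2 : 1 / 2 ≤ (1 + ((u - v) / B₀) ^ 2)⁻¹ := by
        rw [one_div]
        apply inv_anti₀ (by positivity)
        have : ((u - v) / B₀) ^ 2 ≤ 1 := by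
          rw [div_pow, div_le_one (by positivity)]
          nlinarith
        linarith
      have h3 : (1 / 3) * (1 + (u / B) ^ 2)⁻¹ ≤ (1 + (v / B) ^ 2)⁻¹ := by
        have e : (1 / 3) * (1 + (u / B) ^ 2)⁻¹ = (3 * (1 + (u / B) ^ 2))⁻¹ := by rw [mul_inv]; norm_num
        rw [e]
        apply inv_anti₀ (by positivity)
        have h4 : (v / B) ^ 2 ≤ 2 * (u / B) ^ 2 + 2 := by
          have e2 : v / B = u / B + (v - u) / B := by ring
          have h5 : (v - u) / B ≤ 1 := by rw [div_le_one hB0]; linarith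
          have h6 : 0 ≤ (v - u) / B := by positivity
          rw [e2]
          nlinarith [sq_nonneg (u / B - (v - u) / B)]
        linarith [sq_nonneg (u / B)]
      have p1 : 0 < (1 + (u / B) ^ 2)⁻¹ := by positivity
      calc (1 / 6) * (1 + (u / B) ^ 2)⁻¹ = ((1 / 3) * (1 + (u / B) ^ 2)⁻¹) * (1 / 2) := by ring
        _ ≤ _ := by gcongr
    · apply (continuous_const (y := (1 / 6) * (1 + (u / B) ^ 2)⁻¹)).continuousOn.integrableOn_compact isCompact_Icc
  rw [setIntegral_const, Real.volume_real_Icc_of_le (by linarith), smul_eq_mul, add_sub_cancel_left] at h1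
  have h2 : ∫ v in Icc u (u + B₀), (1 + (v / B) ^ 2)⁻¹ * (1 + ((u - v) / B₀) ^ 2)⁻¹ ≤ ∫ v, (1 + (v / B) ^ 2)⁻¹ * (1 + ((u - v) / B₀) ^ 2)⁻¹ :=
    setIntegral_le_integral hint (Eventually.of_forall fun v => by positivity)
  have h3 := h1.trans h2
  calc (1 + (u / B) ^ 2)⁻¹ = (6 / B₀) * (B₀ * ((1 / 6) * (1 + (u / B) ^ 2)⁻¹)) := by field_simp
    _ ≤ _ := by gcongr

lemma WP_integral (T : ℝ) (f : ℝ → ℝ → ℝ) (hf : ∀ u, Integrable (fun v => f v u)) :
    WP T (fun u => ∫ v, f v u) = ∫ v, WP T (f v) := by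
  unfold WP
  rw [integral_finsetSum]
  · refine Finset.sum_congr rfl fun p _ => ?_
    rw [integral_const_mul]
  · intro p _
    exact (hf _).const_mul _

/-- uniform bound for all kernels -/
theorem uni : ∃ C : ℝ, 0 < C ∧ ∀ᶠ T : ℝ in atTop, ∀ B : ℝ, 0 < B → ∀ v : ℝ, WP T (fun u => Gm ((u - v) / B)) ≤ C * (1 + B) * SN T := by
  obtain ⟨C, hC, h⟩ := pair_bound
  have hpi := Real.pi_pos
  set D : ℝ := 9600 + C / 9600 with hD
  have hD0 : 0 < D := by rw [hD]; positivity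
  refine ⟨1200 * Real.pi ^ 6 * D, by positivity, ?_⟩
  filter_upwards [h 9600 le_rfl, eventually_gt_atTop 1] with T hT hT1 B hB v
  have hS := SN_pos hT1
  have hT' : WP T (gB 9600) ≤ SN T * D := hT
  refine (WP_shift hB T v).trans ?_
  have hpi1 : 1 ≤ Real.pi := by linarith [Real.pi_gt_three]
  rcases le_total B 9600 with hB1 | hB1
  · have h1 : ∀ u, gB B u ≤ 200 * Real.pi ^ 5 * gB 9600 u := by
      intro u
      unfold gB
      have a1 := Gm_upper (u / B)
      have a2 := Gm_lower' (u / 9600)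
      have a3 : (1 + (u / B) ^ 2)⁻¹ ≤ (1 + (u / 9600) ^ 2)⁻¹ := by
        apply inv_anti₀ (by positivity)
        have : (u / 9600) ^ 2 ≤ (u / B) ^ 2 := by
          rw [div_pow, div_pow]
          gcongr
        linarith
      calc Gm (u / B) ≤ 200 * Real.pi * (1 + (u / B) ^ 2)⁻¹ := a1
        _ ≤ 200 * Real.pi * (Real.pi ^ 4 * Gm (u / 9600)) := by gcongr; exact a3.trans a2
        _ = _ := by ring
    have h2 := WP_mono (T := T) h1
    rw [WP_smul] at h2
    have hp56 : Real.pi ^ 5 ≤ Real.pi ^ 6 := pow_le_pow_right₀ hpi1 (by norm_num)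
    calc WP T (gB B) ≤ 200 * Real.pi ^ 5 * WP T (gB 9600) := h2
      _ ≤ 200 * Real.pi ^ 5 * (SN T * D) := by gcongr
      _ ≤ 1200 * Real.pi ^ 6 * (SN T * D) := by gcongr; norm_num
      _ = 1200 * Real.pi ^ 6 * D * 1 * SN T := by ring
      _ ≤ 1200 * Real.pi ^ 6 * D * (1 + B) * SN T := by gcongr; linarith
  · have hBp : 0 < B := hB
    have hK1 : Integrable (fun v : ℝ => (1 + (v / B) ^ 2)⁻¹) := K_int.comp_div hBp.ne'
    have hGi : ∀ u, Integrable (fun v : ℝ => (1 + (v / B) ^ 2)⁻¹ * Gm ((u - v) / 9600)) := by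
      intro u
      refine (hK1.mul_const (Gm 0)).mono' ?_ ?_
      · apply Continuous.aestronglyMeasurable
        apply Continuous.mul
        · apply Continuous.inv₀ (by fun_prop); intro v; positivity
        · exact Gm_cont.comp (by fun_prop)
      · filter_upwards with v
        have p1 : 0 < (1 + (v / B) ^ 2)⁻¹ := by positivity
        rw [Real.norm_of_nonneg (mul_nonneg p1.le (Gm_nonneg _))]
        have := Gm_le ((u - v) / 9600)
        gcongr
    have h1 : ∀ u, gB B u ≤ (200 * Real.pi * (6 / 9600) * Real.pi ^ 4) * ∫ v, (1 + (v / B) ^ 2)⁻¹ * Gm ((u - v) / 9600) := by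
      intro u
      unfold gB
      have a1 := Gm_upper (u / B)
      have a2 := wide (B₀ := 9600) (by norm_num) hB1 u
      have a3 : ∫ v, (1 + (v / B) ^ 2)⁻¹ * (1 + ((u - v) / 9600) ^ 2)⁻¹ ≤ ∫ v, (1 + (v / B) ^ 2)⁻¹ * (Real.pi ^ 4 * Gm ((u - v) / 9600)) := by
        apply integral_mono_of_nonneg
        · exact Eventually.of_forall fun v => by positivity
        · have := (hGi u).const_mul (Real.pi ^ 4)
          refine this.congr ?_
          filter_upwards with v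
          ring
        · exact Eventually.of_forall fun v => by
            simp only
            have := Gm_lower' ((u - v) / 9600)
            gcongr
      have a4 : ∫ v, (1 + (v / B) ^ 2)⁻¹ * (Real.pi ^ 4 * Gm ((u - v) / 9600)) = Real.pi ^ 4 * ∫ v, (1 + (v / B) ^ 2)⁻¹ * Gm ((u - v) / 9600) := by
        rw [← integral_const_mul]
        congr 1
        funext v
        ring
      rw [a4] at a3
      calc Gm (u / B) ≤ 200 * Real.pi * (1 + (u / B) ^ 2)⁻¹ := a1
        _ ≤ 200 * Real.pi * ((6 / 9600) * (Real.pi ^ 4 * ∫ v, (1 + (v / B) ^ 2)⁻¹ * Gm ((u - v) / 9600))) := by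
            gcongr
            exact a2.trans (by gcongr)
        _ = _ := by ring
    have h2 := WP_mono (T := T) h1
    rw [WP_smul, WP_integral T (fun v u => (1 + (v / B) ^ 2)⁻¹ * Gm ((u - v) / 9600)) hGi] at h2
    have h3 : ∫ v, WP T (fun u => (1 + (v / B) ^ 2)⁻¹ * Gm ((u - v) / 9600)) ≤ ∫ v, (1 + (v / B) ^ 2)⁻¹ * (SN T * D) := by
      apply integral_mono_of_nonneg
      · exact Eventually.of_forall fun v => WP_nonneg fun u => mul_nonneg (by positivity) (Gm_nonneg _)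
      · exact hK1.mul_const _
      · exact Eventually.of_forall fun v => by
          simp only
          rw [WP_smul]
          apply mul_le_mul_of_nonneg_left _ (by positivity)
          exact (WP_shift (by norm_num) T v).trans hT'
    have h4 : ∫ v : ℝ, (1 + (v / B) ^ 2)⁻¹ * (SN T * D) = B * Real.pi * (SN T * D) := by
      rw [integral_mul_const, Measure.integral_comp_div (fun y : ℝ => (1 + y ^ 2)⁻¹) B, integral_univ_inv_one_add_sq, abs_of_pos hBp, smul_eq_mul]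
    rw [h4] at h3
    calc WP T (gB B) ≤ (200 * Real.pi * (6 / 9600) * Real.pi ^ 4) * ∫ v, WP T (fun u => (1 + (v / B) ^ 2)⁻¹ * Gm ((u - v) / 9600)) := h2
      _ ≤ (200 * Real.pi * (6 / 9600) * Real.pi ^ 4) * (B * Real.pi * (SN T * D)) := by gcongr
      _ = (1200 / 9600) * Real.pi ^ 6 * D * B * SN T := by ring
      _ ≤ 1200 * Real.pi ^ 6 * D * (1 + B) * SN T := by
          gcongr
          · norm_num
          · linarith

end Pool.Agent.Helper57.LS
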