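import Pool.Agent.Helper57.LH.Prime

namespace Pool.Agent.Helper57.LS

open Set MeasureTheory Filter Topology
open Pool.Agent.Helper57.LH
open scoped ArithmeticFunction

lemma log_fact (N : ℕ) : ∑ n ∈ Finset.range (N + 1), Real.log n = ∑ d ∈ Finset.range (N + 1), Λ d * ((N / d : ℕ) : ℝ) := by
  classical
  have e1 : ∀ n ∈ Finset.range (N + 1), Real.log n = ∑ d ∈ Finset.range (N + 1), if (n ≠ 0 ∧ d ∣ n) then Λ d else 0 := by
    intro n hn
    rw [Finset.mem_range] at hn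
    rw [← ArithmeticFunction.vonMangoldt_sum, ← Finset.sum_filter]
    apply Finset.sum_congr
    · ext d
      rw [Nat.mem_divisors, Finset.mem_filter, Finset.mem_range]
      constructor
      · rintro ⟨h1, h2⟩
        have := Nat.le_of_dvd (Nat.pos_of_ne_zero h2) h1
        exact ⟨by omega, h2, h1⟩
      · rintro ⟨_, h2, h1⟩
        exact ⟨h1, h2⟩
    · intro d _; rfl
  rw [Finset.sum_congr rfl e1, Finset.sum_comm]
  refine Finset.sum_congr rfl fun d _ => ?_
  rw [← Finset.sum_filter, Finset.sum_const, nsmul_eq_mul, ← Nat.card_multiples' N d]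
  ring

lemma log_fact_lower (N : ℕ) : N * Real.log N - N ≤ ∑ n ∈ Finset.range (N + 1), Real.log n := by
  induction N with
  | zero => simp
  | succ N ih =>
    rw [Finset.sum_range_succ]
    rcases Nat.eq_zero_or_pos N with rfl | hN
    · simp
    have hN0 : (0:ℝ) < N := by exact_mod_cast hN
    have h1 : Real.log ((N + 1 : ℕ) : ℝ) - Real.log N ≤ 1 / N := by
      rw [← Real.log_div (by positivity) hN0.ne']
      have h2 := Real.log_le_sub_one_of_pos (show (0:ℝ) < ((N + 1 : ℕ) : ℝ) / N by positivity)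
      have h3 : ((N + 1 : ℕ) : ℝ) / N - 1 = 1 / N := by push_cast; field_simp; ring
      linarith
    have h4 : N * (Real.log ((N + 1 : ℕ) : ℝ) - Real.log N) ≤ N * (1 / N) := by gcongr
    rw [mul_one_div_cancel hN0.ne'] at h4
    push_cast at h4 ih ⊢
    linarith

lemma log_fact_upper (N : ℕ) : ∑ n ∈ Finset.range (N + 1), Real.log n ≤ N * Real.log N := by
  rw [Finset.sum_range_succ']
  simp only [Nat.cast_zero, Real.log_zero, add_zero]
  calc ∑ k ∈ Finset.range N, Real.log ((k + 1 : ℕ) : ℝ) ≤ ∑ k ∈ Finset.range N, Real.log N := by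
        refine Finset.sum_le_sum fun k hk => ?_
        rw [Finset.mem_range] at hk
        apply Real.log_le_log (by positivity)
        exact_mod_cast hk
    _ = _ := by rw [Finset.sum_const, Finset.card_range, nsmul_eq_mul]

lemma psi_range (N : ℕ) : ∑ d ∈ Finset.range (N + 1), Λ d ≤ (Real.log 4 + 4) * N := by
  have h := Chebyshev.psi_le_const_mul_self (x := (N:ℝ)) (by positivity)
  rw [Chebyshev.psi_eq_sum_Icc, Nat.floor_natCast] at h
  refine le_trans (le_of_eq ?_) h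
  apply Finset.sum_congr _ (fun _ _ => rfl)
  ext d
  simp

lemma vM_lower {N : ℕ} (hN : 1 ≤ N) : Real.log N - 1 ≤ ∑ d ∈ Finset.range (N + 1), Λ d / d := by
  have hN0 : (0:ℝ) < N := by exact_mod_cast hN
  have h1 := log_fact_lower N
  rw [log_fact] at h1
  have h3 : ∑ d ∈ Finset.range (N + 1), Λ d * ((N / d : ℕ) : ℝ) ≤ ∑ d ∈ Finset.range (N + 1), (N:ℝ) * (Λ d / d) := by
    refine Finset.sum_le_sum fun d _ => ?_
    have h9 := @ArithmeticFunction.vonMangoldt_nonneg d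
    have h10 : ((N / d : ℕ) : ℝ) ≤ (N:ℝ) / d := Nat.cast_div_le
    calc Λ d * ((N / d : ℕ) : ℝ) ≤ Λ d * ((N:ℝ) / d) := by gcongr
      _ = _ := by ring
  rw [← Finset.mul_sum] at h3
  have h4 : N * (Real.log N - 1) ≤ N * ∑ d ∈ Finset.range (N + 1), Λ d / d := by linarith
  exact le_of_mul_le_mul_left h4 hN0

lemma vM_upper {N : ℕ} (hN : 1 ≤ N) : ∑ d ∈ Finset.range (N + 1), Λ d / d ≤ Real.log N + (Real.log 4 + 4) := by
  have hN0 : (0:ℝ) < N := by exact_mod_cast hN
  have h1 := log_fact_upper N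
  rw [log_fact] at h1
  have h3 : ∑ d ∈ Finset.range (N + 1), (N:ℝ) * (Λ d / d) ≤ ∑ d ∈ Finset.range (N + 1), (Λ d * ((N / d : ℕ) : ℝ) + Λ d) := by
    refine Finset.sum_le_sum fun d _ => ?_
    have h9 := @ArithmeticFunction.vonMangoldt_nonneg d
    rcases Nat.eq_zero_or_pos d with rfl | hd
    · simp
    have hd0 : (0:ℝ) < d := by exact_mod_cast hd
    have h10 : (N:ℝ) / d ≤ ((N / d : ℕ) : ℝ) + 1 := by
      rw [div_le_iff₀ hd0]
      have h6 : N < d * (N / d) + d := by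
        have := Nat.div_add_mod N d
        have := Nat.mod_lt N hd
        omega
      have h8 : (N:ℝ) < d * ((N / d : ℕ) : ℝ) + d := by exact_mod_cast h6
      linarith
    calc (N:ℝ) * (Λ d / d) = Λ d * ((N:ℝ) / d) := by ring
      _ ≤ Λ d * (((N / d : ℕ) : ℝ) + 1) := by gcongr
      _ = _ := by ring
  rw [← Finset.mul_sum, Finset.sum_add_distrib] at h3
  have h4 := psi_range N
  have h5 : N * ∑ d ∈ Finset.range (N + 1), Λ d / d ≤ N * (Real.log N + (Real.log 4 + 4)) := by linarith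
  exact le_of_mul_le_mul_left h5 hN0

/-- the constant in Mertens' theorem -/
noncomputable def CMe : ℝ := Real.log 4 + 6

lemma CMe_pos : 0 < CMe := by
  unfold CMe
  have : 0 < Real.log 4 := Real.log_pos (by norm_num)
  linarith

lemma NX_one_le {y : ℝ} (hy : 0 ≤ y) : 1 ≤ NX y := by
  unfold NX
  rw [Nat.le_floor_iff (Real.exp_pos y).le]
  push_cast
  exact Real.one_le_exp hy

/-- Mertens -/
lemma mertens {y : ℝ} (hy : 0 ≤ y) : |(∑ n ∈ Finset.range (NX y + 1), Λ n / n) - y| ≤ CMe := by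
  have h1 := NX_one_le hy
  have hN0 : (0:ℝ) < NX y := by exact_mod_cast h1
  have h2 : (NX y : ℝ) ≤ Real.exp y := Nat.floor_le (Real.exp_pos y).le
  have h3 : Real.exp y < NX y + 1 := Nat.lt_floor_add_one _
  have h1' : (1:ℝ) ≤ NX y := by exact_mod_cast h1
  have h4 : Real.log (NX y) ≤ y := by rwa [Real.log_le_iff_le_exp hN0]
  have h5 : y - 1 ≤ Real.log (NX y) := by
    rw [Real.le_log_iff_exp_le hN0, Real.exp_sub]
    have h6 : 2 ≤ Real.exp 1 := by
      have := Real.add_one_le_exp (1:ℝ)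
      linarith
    rw [div_le_iff₀ (by positivity)]
    nlinarith
  have h7 := vM_lower h1
  have h8 := vM_upper h1
  have : 0 < Real.log 4 := Real.log_pos (by norm_num)
  unfold CMe
  rw [abs_le]
  constructor <;> linarith

/-- discrete Abel summation bound -/
lemma abel_le {a : ℕ → ℝ} {D : ℕ → ℝ} (hD : ∀ N, ∑ n ∈ Finset.range (N + 1), a n = D N) (N : ℕ) :
    ∑ n ∈ Finset.range (N + 1), a (n + 1) / ((n:ℝ) + 1) =
      (D (N + 1) - D 0) / ((N:ℝ) + 1) + ∑ n ∈ Finset.range N, (D (n + 1) - D 0) * (1 / ((n:ℝ) + 1) - 1 / ((n:ℝ) + 2)) := by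
  have hs : ∀ n, a (n + 1) = D (n + 1) - D n := by
    intro n
    rw [← hD (n + 1), ← hD n, Finset.sum_range_succ]; ring
  induction N with
  | zero => simp [hs]
  | succ N ih =>
    rw [Finset.sum_range_succ, ih, Finset.sum_range_succ, hs]
    push_cast
    have h1 : (N:ℝ) + 1 ≠ 0 := by positivity
    have h2 : (N:ℝ) + 2 ≠ 0 := by positivity
    have h3 : (N:ℝ) + 1 + 1 = N + 2 := by ring
    rw [h3]
    field_simp
    ring

open Classical in
/-- the von Mangoldt function off the primes -/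
noncomputable def aN (n : ℕ) : ℝ := if n.Prime then 0 else Λ n

lemma aN_nonneg (n : ℕ) : 0 ≤ aN n := by
  unfold aN
  split_ifs
  · exact le_rfl
  · exact ArithmeticFunction.vonMangoldt_nonneg

lemma aN_sum_le {N : ℕ} (hN : 1 ≤ N) : ∑ n ∈ Finset.range (N + 1), aN n ≤ 8 * (N:ℝ) ^ (3/4 : ℝ) := by
  have hN1 : (1:ℝ) ≤ N := by exact_mod_cast hN
  have hN0 : (0:ℝ) < N := by linarith
  have h := Chebyshev.psi_sub_theta_le hN1
  rw [Chebyshev.psi_sub_theta_eq_sum_not_prime, Nat.floor_natCast] at h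
  have e1 : ∑ n ∈ Finset.range (N + 1), aN n = ∑ n ∈ Finset.Ioc 0 N with ¬ n.Prime, Λ n := by
    rw [Finset.sum_filter]
    symm
    have e2 : ∀ n ∈ Finset.Ioc 0 N, (if ¬ n.Prime then Λ n else 0) = aN n := by
      intro n _
      unfold aN
      split_ifs <;> simp_all
    rw [Finset.sum_congr rfl e2]
    apply Finset.sum_subset
    · intro n hn
      rw [Finset.mem_Ioc] at hn
      rw [Finset.mem_range]
      omega
    · intro n hn hn2
      rw [Finset.mem_range] at hn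
      rw [Finset.mem_Ioc] at hn2
      have : n = 0 := by omega
      subst this
      unfold aN; simp
  rw [e1]
  refine h.trans ?_
  have h2 := Real.log_le_rpow_div hN0.le (show (0:ℝ) < 1/4 by norm_num)
  have h3 : Real.sqrt N = (N:ℝ) ^ (1/2 : ℝ) := Real.sqrt_eq_rpow _
  have h4 : (N:ℝ) ^ (3/4 : ℝ) = (N:ℝ) ^ (1/2 : ℝ) * (N:ℝ) ^ (1/4 : ℝ) := by
    rw [← Real.rpow_add hN0]; norm_num
  rw [h3, h4]
  calc 2 * (N:ℝ) ^ (1/2 : ℝ) * Real.log N ≤ 2 * (N:ℝ) ^ (1/2 : ℝ) * ((N:ℝ) ^ (1/4 : ℝ) / (1/4)) := by gcongr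
    _ = _ := by ring

/-- the constant for non-primes -/
noncomputable def CNP : ℝ := 8 + 8 * ∑' n : ℕ, 1 / ((n:ℝ) + 1) ^ (5/4 : ℝ)

lemma rp_summable : Summable (fun n : ℕ => 1 / ((n:ℝ) + 1) ^ (5/4 : ℝ)) := by
  have h := (Real.summable_one_div_nat_rpow (p := 5/4)).mpr (by norm_num)
  have := (summable_nat_add_iff 1).mpr h
  refine this.congr ?_
  intro n
  push_cast
  rfl

lemma CNP_nonneg : 0 ≤ CNP := by
  unfold CNP
  have : 0 ≤ ∑' n : ℕ, 1 / ((n:ℝ) + 1) ^ (5/4 : ℝ) := tsum_nonneg fun n => by positivity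
  linarith

lemma nonprime_sum (N : ℕ) : ∑ n ∈ Finset.range (N + 1), aN n / n ≤ CNP := by
  rcases Nat.eq_zero_or_pos N with rfl | hN
  · simp; exact CNP_nonneg
  obtain ⟨M, rfl⟩ : ∃ M, N = M + 1 := ⟨N - 1, by omega⟩
  rw [Finset.sum_range_succ']
  simp only [Nat.cast_zero, div_zero, add_zero]
  have h := abel_le (a := aN) (D := fun N => ∑ n ∈ Finset.range (N + 1), aN n) (fun _ => rfl) M
  have e1 : ∑ k ∈ Finset.range (M + 1), aN (k + 1) / ((k + 1 : ℕ) : ℝ) = ∑ n ∈ Finset.range (M + 1), aN (n + 1) / ((n:ℝ) + 1) := by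
    refine Finset.sum_congr rfl fun n _ => ?_
    push_cast; rfl
  rw [e1, h]
  have e0 : ∑ n ∈ Finset.range (0 + 1), aN n = 0 := by
    simp; unfold aN; simp
  simp only [e0, sub_zero]
  unfold CNP
  have hD : ∀ m : ℕ, ∑ n ∈ Finset.range (m + 1 + 1), aN n ≤ 8 * ((m:ℝ) + 1) ^ (3/4 : ℝ) := by
    intro m
    have := aN_sum_le (N := m + 1) (by omega)
    push_cast at this
    exact this
  apply add_le_add
  · have h1 := hD M
    rw [div_le_iff₀ (by positivity)]
    refine h1.trans ?_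
    have h2 : ((M:ℝ) + 1) ^ (3/4 : ℝ) ≤ ((M:ℝ) + 1) ^ (1 : ℝ) := by
      apply Real.rpow_le_rpow_of_exponent_le
      · have : (0:ℝ) ≤ M := by positivity
        linarith
      · norm_num
    rw [Real.rpow_one] at h2
    linarith
  · rw [← tsum_mul_left]
    refine le_trans ?_ ((rp_summable.mul_left 8).sum_le_tsum (Finset.range M) (fun n _ => by positivity))
    refine Finset.sum_le_sum fun n _ => ?_
    have h1 := hD n
    have h2 : 1 / ((n:ℝ) + 1) - 1 / ((n:ℝ) + 2) ≤ 1 / ((n:ℝ) + 1) ^ 2 := by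
      have h3 : (0:ℝ) < (n:ℝ) + 1 := by positivity
      have h4 : (0:ℝ) < (n:ℝ) + 2 := by positivity
      rw [div_sub_div _ _ h3.ne' h4.ne', div_le_div_iff₀ (by positivity) (by positivity)]
      nlinarith
    have h5 : 0 ≤ 1 / ((n:ℝ) + 1) - 1 / ((n:ℝ) + 2) := by
      rw [sub_nonneg]
      apply one_div_le_one_div_of_le <;> [positivity; linarith]
    have h6 : ((n:ℝ) + 1) ^ 2 = ((n:ℝ) + 1) ^ (3/4 : ℝ) * ((n:ℝ) + 1) ^ (5/4 : ℝ) := by
      rw [← Real.rpow_add (by positivity), ← Real.rpow_natCast]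
      norm_num
    have h7 : 0 < ((n:ℝ) + 1) ^ (3/4 : ℝ) := by positivity
    have h8 : 0 < ((n:ℝ) + 1) ^ (5/4 : ℝ) := by positivity
    calc (∑ n ∈ Finset.range (n + 1 + 1), aN n) * (1 / ((n:ℝ) + 1) - 1 / ((n:ℝ) + 2))
        ≤ (8 * ((n:ℝ) + 1) ^ (3/4 : ℝ)) * (1 / ((n:ℝ) + 1) ^ 2) := by gcongr
      _ = 8 * (1 / ((n:ℝ) + 1) ^ (5/4 : ℝ)) := by
          rw [h6]; field_simp

end Pool.Agent.Helper57.LS
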