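import Pool.Agent.Helper57.LS.Large

namespace Pool.Agent.Helper57.LS

open Set MeasureTheory Filter Topology
open Pool.Agent.Helper57.LH
open scoped SchwartzMap FourierTransform ContDiff

/-- a Schwartz function whose sine transform is the identity on `[0,1]` -/
theorem exists_sine : ∃ a : 𝓢(ℝ, ℝ), ∀ ξ ∈ Icc (0:ℝ) 1, ∫ t, a t * Real.sin (2 * Real.pi * t * ξ) = ξ := by
  -- a bump function equal to one on [-1,1]
  let χ : ContDiffBump (0:ℝ) := ⟨1, 2, one_pos, one_lt_two⟩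
  have hm1 : HasCompactSupport (fun ξ : ℝ => ((ξ * χ ξ : ℝ) : ℂ)) := by
    have : HasCompactSupport (fun ξ : ℝ => (ξ * χ ξ : ℝ)) := χ.hasCompactSupport.mul_left
    exact this.comp_left (g := fun x : ℝ => (x : ℂ)) (by simp)
  have hm2 : ContDiff ℝ ∞ (fun ξ : ℝ => ((ξ * χ ξ : ℝ) : ℂ)) :=
    Complex.ofRealCLM.contDiff.comp (contDiff_id.mul χ.contDiff)
  let M : 𝓢(ℝ, ℂ) := hm1.toSchwartzMap hm2
  have hM : ∀ ξ, M ξ = ((ξ * χ ξ : ℝ) : ℂ) := fun ξ => rfl
  let A : 𝓢(ℝ, ℂ) := 𝓕⁻ M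
  have hA : 𝓕 A = M := FourierTransform.fourier_fourierInv_eq M
  let a : 𝓢(ℝ, ℝ) := A.postcompCLM Complex.imCLM
  have ha : ∀ t, a t = (A t).im := by
    intro t
    change (A.postcompCLM Complex.imCLM) t = _
    rw [SchwartzMap.postcompCLM_apply]
    rfl
  have hint : ∀ ξ : ℝ, Integrable (fun t : ℝ => Complex.exp ((-(2 * Real.pi * t * ξ) : ℝ) * Complex.I) * A t) := by
    intro ξ
    have hI : Integrable (fun t : ℝ => A t) := A.integrable
    refine hI.mono ?_ ?_
    · apply Continuous.aestronglyMeasurable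
      have := A.continuous
      fun_prop
    · filter_upwards with x
      rw [norm_mul, Complex.norm_exp_ofReal_mul_I, one_mul]
  have hF : ∀ ξ : ℝ, ((ξ * χ ξ : ℝ) : ℂ) = ∫ t : ℝ, Complex.exp ((-(2 * Real.pi * t * ξ) : ℝ) * Complex.I) * A t := by
    intro ξ
    rw [← hM ξ, ← hA, SchwartzMap.fourier_coe, Real.fourier_eq']
    congr 1
    funext t
    rw [smul_eq_mul]
    congr 3
    push_cast
    simp
    ring
  have hR : ∀ ξ : ℝ, ξ * χ ξ = ∫ t : ℝ, ((A t).re * Real.cos (2 * Real.pi * t * ξ) + (A t).im * Real.sin (2 * Real.pi * t * ξ)) := by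
    intro ξ
    have h := congrArg Complex.re (hF ξ)
    rw [Complex.ofReal_re, ← Complex.reCLM_apply (∫ t : ℝ, _), ← Complex.reCLM.integral_comp_comm (hint ξ)] at h
    rw [h]
    congr 1
    funext t
    rw [Complex.reCLM_apply, Complex.mul_re, Complex.exp_ofReal_mul_I_re, Complex.exp_ofReal_mul_I_im, Real.cos_neg, Real.sin_neg]
    ring
  have hint2 : ∀ ξ : ℝ, Integrable (fun t : ℝ => ((A t).re * Real.cos (2 * Real.pi * t * ξ) + (A t).im * Real.sin (2 * Real.pi * t * ξ))) := by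
    intro ξ
    have h := (hint ξ).re
    refine h.congr ?_
    filter_upwards with t
    simp only [RCLike.re_to_complex]
    rw [Complex.mul_re, Complex.exp_ofReal_mul_I_re, Complex.exp_ofReal_mul_I_im, Real.cos_neg, Real.sin_neg]
    ring
  refine ⟨a, fun ξ hξ => ?_⟩
  have h1 := hR ξ
  have h2 := hR (-ξ)
  have hχ : χ ξ = 1 := χ.one_of_mem_closedBall (by
    rw [mem_closedBall_zero_iff, Real.norm_eq_abs, abs_of_nonneg hξ.1]
    exact hξ.2)
  have hχ' : χ (-ξ) = 1 := χ.one_of_mem_closedBall (by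
    rw [mem_closedBall_zero_iff, Real.norm_eq_abs, abs_neg, abs_of_nonneg hξ.1]
    exact hξ.2)
  rw [hχ, mul_one] at h1
  rw [hχ', mul_one] at h2
  have h3 := integral_sub (hint2 ξ) (hint2 (-ξ))
  rw [← h1, ← h2] at h3
  have h4 : ∫ t : ℝ, ((A t).re * Real.cos (2 * Real.pi * t * ξ) + (A t).im * Real.sin (2 * Real.pi * t * ξ) -
      ((A t).re * Real.cos (2 * Real.pi * t * -ξ) + (A t).im * Real.sin (2 * Real.pi * t * -ξ))) = ∫ t : ℝ, 2 * ((A t).im * Real.sin (2 * Real.pi * t * ξ)) := by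
    congr 1
    funext t
    rw [mul_neg, Real.cos_neg, Real.sin_neg]
    ring
  rw [h4, integral_const_mul] at h3
  simp_rw [ha]
  linarith

end Pool.Agent.Helper57.LS
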