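import Pool.Agent.Helper57.LS.OddA

namespace Pool.Agent.Helper57.LS

open Set MeasureTheory Filter Topology
open Pool.Agent.Helper57.LH
open scoped SchwartzMap FourierTransform ContDiff

/-- the odd kernel -/
noncomputable def Ho (u : ℝ) : ℝ := 2 * ∫ v in (0:ℝ)..1, (1 - v) ^ 2 * v * Real.sin (2 * Real.pi * u * v)

lemma Gm_diff (u t : ℝ) : (Gm (u - t) - Gm (u + t)) / 2 = ∫ v in Ioc (0:ℝ) 1, 2 * ((1 - v) ^ 2 * Real.sin (2 * Real.pi * u * v) * Real.sin (2 * Real.pi * t * v)) := by
  rw [← intervalIntegral.integral_of_le zero_le_one, Gm_FT, Gm_FT, ← mul_sub, ← intervalIntegral.integral_sub, mul_div_assoc, ← intervalIntegral.integral_div, ← intervalIntegral.integral_const_mul]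
  · apply intervalIntegral.integral_congr
    intro v _
    simp only
    have h1 : Real.cos (2 * Real.pi * (u - t) * v) = Real.cos (2 * Real.pi * u * v) * Real.cos (2 * Real.pi * t * v) + Real.sin (2 * Real.pi * u * v) * Real.sin (2 * Real.pi * t * v) := by
      rw [← Real.cos_sub]; congr 1; ring
    have h2 : Real.cos (2 * Real.pi * (u + t) * v) = Real.cos (2 * Real.pi * u * v) * Real.cos (2 * Real.pi * t * v) - Real.sin (2 * Real.pi * u * v) * Real.sin (2 * Real.pi * t * v) := by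
      rw [← Real.cos_add]; congr 1; ring
    rw [h1, h2]
    ring
  · apply Continuous.intervalIntegrable; fun_prop
  · apply Continuous.intervalIntegrable; fun_prop

lemma Ho_conv (a : 𝓢(ℝ, ℝ)) (ha : ∀ ξ ∈ Icc (0:ℝ) 1, ∫ t, a t * Real.sin (2 * Real.pi * t * ξ) = ξ) (u : ℝ) :
    Ho u = ∫ t, a t * ((Gm (u - t) - Gm (u + t)) / 2) := by
  simp_rw [Gm_diff]
  have h1 : ∀ t : ℝ, a t * ∫ v in Ioc (0:ℝ) 1, 2 * ((1 - v) ^ 2 * Real.sin (2 * Real.pi * u * v) * Real.sin (2 * Real.pi * t * v)) =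
      ∫ v in Ioc (0:ℝ) 1, a t * (2 * ((1 - v) ^ 2 * Real.sin (2 * Real.pi * u * v) * Real.sin (2 * Real.pi * t * v))) := by
    intro t
    exact (integral_const_mul _ _).symm
  simp_rw [h1]
  have hprod : Integrable (Function.uncurry fun (t v : ℝ) => a t * (2 * ((1 - v) ^ 2 * Real.sin (2 * Real.pi * u * v) * Real.sin (2 * Real.pi * t * v))))
      (volume.prod (volume.restrict (Ioc (0:ℝ) 1))) := by
    have h2 : Integrable (fun z : ℝ × ℝ => ‖a z.1‖ * (2:ℝ)) (volume.prod (volume.restrict (Ioc (0:ℝ) 1))) :=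
      Integrable.mul_prod (f := fun t => ‖a t‖) (g := fun _ : ℝ => (2:ℝ)) a.integrable.norm (integrable_const _)
    refine h2.mono' ?_ ?_
    · apply Continuous.aestronglyMeasurable
      have := a.continuous
      unfold Function.uncurry
      fun_prop
    · have h3 : ∀ᵐ z : ℝ × ℝ ∂(volume.prod (volume.restrict (Ioc (0:ℝ) 1))), z.2 ∈ Ioc (0:ℝ) 1 := by
        have := Measure.quasiMeasurePreserving_snd (μ := (volume : Measure ℝ)) (ν := volume.restrict (Ioc (0:ℝ) 1))
        exact this.ae (ae_restrict_mem measurableSet_Ioc)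
      filter_upwards [h3] with z hz
      unfold Function.uncurry
      simp only
      rw [norm_mul, norm_mul, norm_mul, norm_mul, norm_pow]
      have e1 : ‖(1 - z.2)‖ ≤ 1 := by
        rw [Real.norm_eq_abs, abs_le]
        constructor <;> linarith [hz.1, hz.2]
      have e2 := Real.abs_sin_le_one (2 * Real.pi * u * z.2)
      have e3 := Real.abs_sin_le_one (2 * Real.pi * z.1 * z.2)
      rw [← Real.norm_eq_abs] at e2 e3
      have e4 : ‖(1 - z.2)‖ ^ 2 * ‖Real.sin (2 * Real.pi * u * z.2)‖ * ‖Real.sin (2 * Real.pi * z.1 * z.2)‖ ≤ 1 ^ 2 * 1 * 1 := by gcongr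
      have e5 : ‖(2:ℝ)‖ = 2 := by norm_num
      rw [e5]
      have e6 : 0 ≤ ‖a z.1‖ := norm_nonneg _
      calc ‖a z.1‖ * (2 * (‖(1 - z.2)‖ ^ 2 * ‖Real.sin (2 * Real.pi * u * z.2)‖ * ‖Real.sin (2 * Real.pi * z.1 * z.2)‖)) ≤ ‖a z.1‖ * (2 * (1 ^ 2 * 1 * 1)) := by gcongr
        _ = ‖a z.1‖ * 2 := by ring
  rw [integral_integral_swap hprod]
  unfold Ho
  rw [← intervalIntegral.integral_const_mul, intervalIntegral.integral_of_le zero_le_one]
  apply setIntegral_congr_fun measurableSet_Ioc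
  intro v hv
  simp only
  have h4 : ∀ t : ℝ, a t * (2 * ((1 - v) ^ 2 * Real.sin (2 * Real.pi * u * v) * Real.sin (2 * Real.pi * t * v))) =
      (2 * ((1 - v) ^ 2 * Real.sin (2 * Real.pi * u * v))) * (a t * Real.sin (2 * Real.pi * t * v)) := fun t => by ring
  simp_rw [h4]
  rw [integral_const_mul, ha v ⟨hv.1.le, hv.2⟩]
  ring

lemma Gm_hasDeriv (u : ℝ) : HasDerivAt Gm (-(2 * Real.pi) * Ho u) u := by
  have hG : Gm = fun y => 2 * ∫ v in (0:ℝ)..1, (1 - v) ^ 2 * Real.cos (2 * Real.pi * y * v) := by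
    funext y; exact Gm_FT y
  rw [hG]
  have h := intervalIntegral.hasDerivAt_integral_of_dominated_loc_of_deriv_le (μ := volume) (a := 0) (b := 1)
    (F := fun y v => (1 - v) ^ 2 * Real.cos (2 * Real.pi * y * v)) (F' := fun y v => (1 - v) ^ 2 * (-Real.sin (2 * Real.pi * y * v) * (2 * Real.pi * v)))
    (x₀ := u) (s := univ) (bound := fun _ => 2 * Real.pi) univ_mem ?_ ?_ ?_ ?_ ?_ ?_
  · refine (h.2.const_mul 2).congr_deriv ?_
    unfold Ho
    rw [← intervalIntegral.integral_const_mul, ← mul_assoc, ← intervalIntegral.integral_const_mul]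
    apply intervalIntegral.integral_congr
    intro v _
    simp only
    ring
  · filter_upwards with x
    apply Continuous.aestronglyMeasurable; fun_prop
  · apply Continuous.intervalIntegrable; fun_prop
  · apply Continuous.aestronglyMeasurable; fun_prop
  · filter_upwards with v hv x _
    rw [uIoc_of_le zero_le_one] at hv
    have hpi := Real.pi_pos
    rw [norm_mul, norm_mul, norm_neg, norm_pow, Real.norm_of_nonneg (by have := hv.1; positivity : 0 ≤ 2 * Real.pi * v)]
    have e1 : ‖(1 - v)‖ ≤ 1 := by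
      rw [Real.norm_eq_abs, abs_le]
      constructor <;> linarith [hv.1, hv.2]
    have e2 := Real.abs_sin_le_one (2 * Real.pi * x * v)
    rw [← Real.norm_eq_abs] at e2
    have e3 : 2 * Real.pi * v ≤ 2 * Real.pi * 1 := by
      have := hv.2
      gcongr
    have e4 : 0 ≤ 2 * Real.pi * v := by have := hv.1; positivity
    calc ‖(1 - v)‖ ^ 2 * (‖Real.sin (2 * Real.pi * x * v)‖ * (2 * Real.pi * v)) ≤ 1 ^ 2 * (1 * (2 * Real.pi * 1)) := by gcongr
      _ = _ := by ring
  · apply Continuous.intervalIntegrable; fun_prop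
  · filter_upwards with v _ x _
    have h1 : HasDerivAt (fun y : ℝ => 2 * Real.pi * y * v) (2 * Real.pi * v) x := by
      have h2 := ((hasDerivAt_id x).const_mul (2 * Real.pi)).mul_const v
      simpa using h2
    exact (h1.cos).const_mul _

lemma Ho_bound (u : ℝ) : |Ho u| ≤ 2 := by
  unfold Ho
  rw [abs_mul, abs_of_pos two_pos]
  have h := intervalIntegral.norm_integral_le_of_norm_le_const (a := 0) (b := 1) (C := 1) (f := fun v => (1 - v) ^ 2 * v * Real.sin (2 * Real.pi * u * v)) (by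
    intro v hv
    rw [uIoc_of_le zero_le_one] at hv
    rw [norm_mul, norm_mul, norm_pow]
    have e1 : ‖(1 - v)‖ ≤ 1 := by
      rw [Real.norm_eq_abs, abs_le]
      constructor <;> linarith [hv.1, hv.2]
    have e2 := Real.abs_sin_le_one (2 * Real.pi * u * v)
    rw [← Real.norm_eq_abs] at e2
    have e3 : ‖v‖ ≤ 1 := by
      rw [Real.norm_eq_abs, abs_le]
      constructor <;> linarith [hv.1, hv.2]
    calc ‖(1 - v)‖ ^ 2 * ‖v‖ * ‖Real.sin (2 * Real.pi * u * v)‖ ≤ 1 ^ 2 * 1 * 1 := by gcongr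
      _ = 1 := by norm_num)
  rw [Real.norm_eq_abs, sub_zero, abs_one, mul_one] at h
  linarith

lemma Ho_cont : Continuous Ho := by
  unfold Ho
  apply Continuous.mul continuous_const
  exact intervalIntegral.continuous_parametric_intervalIntegral_of_continuous' (f := fun u v => (1 - v) ^ 2 * v * Real.sin (2 * Real.pi * u * v)) (by
    unfold Function.uncurry; fun_prop) 0 1

end Pool.Agent.Helper57.LS
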