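import Pool.Agent.Helper57.LS.OddB

namespace Pool.Agent.Helper57.LS

open Set MeasureTheory Filter Topology
open Pool.Agent.Helper57.LH
open scoped SchwartzMap FourierTransform ContDiff

/-- primitive of an odd Schwartz function -/
noncomputable def prG (g : 𝓢(ℝ, ℝ)) (y : ℝ) : ℝ := ∫ t in Iic y, g t

lemma prG_deriv (g : 𝓢(ℝ, ℝ)) (y : ℝ) : HasDerivAt (prG g) (g y) y := by
  have h : prG g = fun y => prG g 0 + ∫ t in (0:ℝ)..y, g t := by
    funext y
    unfold prG
    have := intervalIntegral.integral_Iic_sub_Iic (a := 0) (b := y) (f := g) (μ := volume) g.integrable.integrableOn g.integrable.integrableOn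
    linarith
  rw [h]
  exact (intervalIntegral.integral_hasDerivAt_right (g.continuous.intervalIntegrable _ _)
    (g.continuous.stronglyMeasurableAtFilter _ _) g.continuous.continuousAt).const_add _

lemma prG_decay (g : 𝓢(ℝ, ℝ)) (hg : ∀ x, g (-x) = -g x) (k : ℕ) (y : ℝ) : |y| ^ k * |prG g y| ≤ ∫ t, |t| ^ k * |g t| := by
  have hi : Integrable (fun t : ℝ => |t| ^ k * |g t|) := g.integrable_pow_mul volume k
  -- the left half line
  have hneg : ∀ y : ℝ, y ≤ 0 → |y| ^ k * |prG g y| ≤ ∫ t, |t| ^ k * |g t| := by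
    intro y hy
    unfold prG
    have h1 : |∫ t in Iic y, g t| ≤ ∫ t in Iic y, |g t| := abs_integral_le_integral_abs
    have h2 : |y| ^ k * ∫ t in Iic y, |g t| ≤ ∫ t in Iic y, |t| ^ k * |g t| := by
      rw [← integral_const_mul]
      apply setIntegral_mono_on (g.integrable.abs.integrableOn.const_mul _) hi.integrableOn measurableSet_Iic
      intro t ht
      have ht' : t ≤ y := ht
      have h3 : |y| ≤ |t| := by
        rw [abs_of_nonpos hy, abs_of_nonpos (ht'.trans hy)]
        linarith
      gcongr
    have h3 : ∫ t in Iic y, |t| ^ k * |g t| ≤ ∫ t, |t| ^ k * |g t| :=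
      setIntegral_le_integral hi (Eventually.of_forall fun t => by positivity)
    calc |y| ^ k * |∫ t in Iic y, g t| ≤ |y| ^ k * ∫ t in Iic y, |g t| := by gcongr
      _ ≤ _ := h2.trans h3
  rcases le_total y 0 with hy | hy
  · exact hneg y hy
  · -- evenness
    have he : prG g y = prG g (-y) := by
      unfold prG
      have h1 := intervalIntegral.integral_Iic_sub_Iic (a := -y) (b := y) (f := g) (μ := volume) g.integrable.integrableOn g.integrable.integrableOn
      have h2 : ∫ t in (-y)..y, g t = 0 := by
        have h3 : ∫ t in (-y)..y, g (-t) = ∫ t in (-y)..y, g t := by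
          rw [intervalIntegral.integral_comp_neg]; simp
        simp_rw [hg] at h3
        rw [intervalIntegral.integral_neg] at h3
        linarith
      linarith
    rw [he]
    have := hneg (-y) (by linarith)
    rwa [abs_neg] at this

/-- the primitive as a Schwartz function -/
noncomputable def prS (g : 𝓢(ℝ, ℝ)) (hg : ∀ x, g (-x) = -g x) : 𝓢(ℝ, ℝ) where
  toFun := prG g
  smooth' := by
    have hd : deriv (prG g) = g := funext fun y => (prG_deriv g y).deriv
    rw [contDiff_infty_iff_deriv, hd]
    exact ⟨fun y => (prG_deriv g y).differentiableAt, g.smooth _⟩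
  decay' := by
    intro k n
    have hd : deriv (prG g) = g := funext fun y => (prG_deriv g y).deriv
    cases n with
    | zero =>
      refine ⟨∫ t, |t| ^ k * |g t|, fun x => ?_⟩
      rw [norm_iteratedFDeriv_zero, Real.norm_eq_abs, Real.norm_eq_abs]
      exact prG_decay g hg k x
    | succ m =>
      obtain ⟨C, hC⟩ := g.decay' k m
      refine ⟨C, fun x => ?_⟩
      have h := hC x
      rw [norm_iteratedFDeriv_eq_norm_iteratedDeriv] at h ⊢
      rw [iteratedDeriv_succ', hd]
      exact h

lemma prS_apply (g : 𝓢(ℝ, ℝ)) (hg : ∀ x, g (-x) = -g x) (y : ℝ) : prS g hg y = prG g y := rfl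

lemma prG_even (g : 𝓢(ℝ, ℝ)) (hg : ∀ x, g (-x) = -g x) (y : ℝ) : prG g (-y) = prG g y := by
  unfold prG
  have h1 := intervalIntegral.integral_Iic_sub_Iic (a := -y) (b := y) (f := g) (μ := volume) g.integrable.integrableOn g.integrable.integrableOn
  have h2 : ∫ t in (-y)..y, g t = 0 := by
    have h3 : ∫ t in (-y)..y, g (-t) = ∫ t in (-y)..y, g t := by
      rw [intervalIntegral.integral_comp_neg]; simp
    simp_rw [hg] at h3
    rw [intervalIntegral.integral_neg] at h3
    linarith
  linarith

/-- representation of an odd Schwartz function by the odd kernel -/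
theorem odd_rep (g : 𝓢(ℝ, ℝ)) (hg : ∀ x, g (-x) = -g x) (u : ℝ) :
    g u = ∫ x in Ioi (0:ℝ), (-(2 * Real.pi) * wg (prS g hg) x * x ^ 2) * Ho (x * u) := by
  have hG : ∀ y, prG g y = ∫ x in Ioi (0:ℝ), wg (prS g hg) x * x * Gm (x * y) := by
    intro y
    have h := super (prS g hg) y
    rw [prS_apply, prS_apply, prG_even g hg] at h
    linarith
  have hGm : ∀ z : ℝ, |Gm z| ≤ Gm 0 := fun z => by rw [abs_of_nonneg (Gm_nonneg z)]; exact Gm_le z
  have h := hasDerivAt_integral_of_dominated_loc_of_deriv_le (μ := volume.restrict (Ioi (0:ℝ)))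
    (F := fun y x => wg (prS g hg) x * x * Gm (x * y)) (F' := fun y x => wg (prS g hg) x * x * (x * (-(2 * Real.pi) * Ho (x * y))))
    (x₀ := u) (s := univ) (bound := fun x => (4 * Real.pi) * (|wg (prS g hg) x| * x ^ 2)) univ_mem ?_ ?_ ?_ ?_ ?_ ?_
  · have h1 := (prG_deriv g u)
    have h2 : prG g = fun y => ∫ x in Ioi (0:ℝ), wg (prS g hg) x * x * Gm (x * y) := funext hG
    rw [h2] at h1
    rw [h1.unique h.2]
    congr 1
    funext x
    ring
  · filter_upwards with y
    apply Continuous.aestronglyMeasurable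
    exact ((wg_cont _).mul continuous_id).mul (Gm_cont.comp (by fun_prop))
  · have h1 := (wg_int (prS g hg) 1).mul_const (Gm 0)
    refine h1.mono' ?_ ?_
    · apply Continuous.aestronglyMeasurable
      exact ((wg_cont _).mul continuous_id).mul (Gm_cont.comp (by fun_prop))
    · rw [ae_restrict_iff' measurableSet_Ioi]
      filter_upwards with x hx
      have hx0 : 0 < x := hx
      rw [norm_mul, norm_mul, Real.norm_eq_abs, Real.norm_eq_abs, Real.norm_eq_abs, abs_of_pos hx0, pow_one]
      have := hGm (x * u)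
      gcongr
  · apply Continuous.aestronglyMeasurable
    exact ((wg_cont _).mul continuous_id).mul (continuous_id.mul (continuous_const.mul (Ho_cont.comp (by fun_prop))))
  · rw [ae_restrict_iff' measurableSet_Ioi]
    filter_upwards with x hx y _
    have hx0 : 0 < x := hx
    have hpi := Real.pi_pos
    rw [norm_mul, norm_mul, norm_mul, norm_mul, Real.norm_eq_abs, Real.norm_eq_abs, Real.norm_eq_abs, Real.norm_eq_abs, abs_of_pos hx0, abs_neg, abs_of_pos (by positivity : 0 < 2 * Real.pi)]
    have := Ho_bound (x * y)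
    calc |wg (prS g hg) x| * x * (x * (2 * Real.pi * |Ho (x * y)|)) ≤ |wg (prS g hg) x| * x * (x * (2 * Real.pi * 2)) := by gcongr
      _ = _ := by ring
  · exact (wg_int (prS g hg) 2).const_mul _
  · filter_upwards with x y _
    have h1 : HasDerivAt (fun y : ℝ => x * y) x y := by simpa using (hasDerivAt_id y).const_mul x
    have h2 := (Gm_hasDeriv (x * y)).comp y h1
    have h3 : HasDerivAt (fun y => Gm (x * y)) (x * (-(2 * Real.pi) * Ho (x * y))) y := by
      refine h2.congr_deriv ?_
      ring
    exact h3.const_mul _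

end Pool.Agent.Helper57.LS
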