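import Pool.Agent.Helper57.LS.TwoSided

namespace Pool.Agent.Helper57.LS

open Set MeasureTheory Filter Topology
open Pool.Agent.Helper57.LH
open Pool.Agent.Helper57.Zeta

lemma int_cos_sh {c : ℝ} (hc : c ≠ 0) (θ a b : ℝ) : |∫ t in a..b, Real.cos (c * t + θ)| ≤ 2 / |c| := by
  rw [intervalIntegral.integral_comp_mul_add (fun t => Real.cos t) hc, integral_cos, smul_eq_mul, abs_mul, abs_inv, ← div_eq_inv_mul]
  gcongr
  refine (abs_sub _ _).trans ?_
  have := Real.abs_sin_le_one (c * b + θ)
  have := Real.abs_sin_le_one (c * a + θ)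
  linarith

lemma cos_cos_sh (c d δ t : ℝ) : Real.cos (c * t) * Real.cos (d * (t + δ)) =
    (1 / 2) * Real.cos ((c - d) * t + (-(d * δ))) + (1 / 2) * Real.cos ((c + d) * t + d * δ) := by
  have e1 : (c - d) * t + (-(d * δ)) = c * t - d * (t + δ) := by ring
  have e2 : (c + d) * t + d * δ = c * t + d * (t + δ) := by ring
  rw [e1, e2, Real.cos_sub, Real.cos_add]
  ring

lemma int_cos_cos_sh {c d : ℝ} (h1 : c - d ≠ 0) (h2 : c + d ≠ 0) (δ a b : ℝ) :
    |∫ t in a..b, Real.cos (c * t) * Real.cos (d * (t + δ))| ≤ 1 / |c - d| + 1 / |c + d| := by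
  simp_rw [cos_cos_sh]
  rw [intervalIntegral.integral_add (by apply Continuous.intervalIntegrable; fun_prop) (by apply Continuous.intervalIntegrable; fun_prop),
    intervalIntegral.integral_const_mul, intervalIntegral.integral_const_mul]
  refine (abs_add_le _ _).trans ?_
  rw [abs_mul, abs_mul, abs_of_pos (by norm_num : (0:ℝ) < 1/2)]
  have i1 := int_cos_sh h1 (-(d * δ)) a b
  have i2 := int_cos_sh h2 (d * δ) a b
  have e1 : 1 / 2 * (2 / |c - d|) = 1 / |c - d| := by ring
  have e2 : 1 / 2 * (2 / |c + d|) = 1 / |c + d| := by ring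
  rw [← e1, ← e2]
  gcongr

lemma int_cos_diag {c : ℝ} (hc : 1 / 2 ≤ c) (δ a b : ℝ) :
    |(∫ t in a..b, Real.cos (c * t) * Real.cos (c * (t + δ))) - (b - a) / 2 * Real.cos (δ * c)| ≤ 1 := by
  simp_rw [cos_cos_sh]
  rw [intervalIntegral.integral_add (by apply Continuous.intervalIntegrable; fun_prop) (by apply Continuous.intervalIntegrable; fun_prop),
    intervalIntegral.integral_const_mul, intervalIntegral.integral_const_mul]
  have e1 : ∫ t in a..b, Real.cos ((c - c) * t + (-(c * δ))) = (b - a) * Real.cos (δ * c) := by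
    have : ∀ t : ℝ, Real.cos ((c - c) * t + (-(c * δ))) = Real.cos (δ * c) := by
      intro t; rw [sub_self, zero_mul, zero_add, Real.cos_neg, mul_comm]
    simp_rw [this]
    rw [intervalIntegral.integral_const, smul_eq_mul]
  rw [e1]
  have e2 : 1 / 2 * ((b - a) * Real.cos (δ * c)) + 1 / 2 * (∫ t in a..b, Real.cos ((c + c) * t + c * δ)) - (b - a) / 2 * Real.cos (δ * c) =
      1 / 2 * (∫ t in a..b, Real.cos ((c + c) * t + c * δ)) := by ring
  rw [e2, abs_mul, abs_of_pos (by norm_num : (0:ℝ) < 1/2)]
  have h := int_cos_sh (c := c + c) (by linarith) (c * δ) a b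
  rw [abs_of_pos (by linarith : 0 < c + c)] at h
  have h2 : 2 / (c + c) ≤ 2 := by
    rw [div_le_iff₀ (by linarith)]; linarith
  linarith

/-- correlation of the prime sum -/
lemma PS_cross {X : ℝ} (hX : 0 < X) (δ a b : ℝ) :
    |(∫ t in a..b, PS X t * PS X (t + δ)) - (b - a) / 2 * ∑ n ∈ Finset.range (NX X + 1), ap X n ^ 2 * Real.cos (δ * Real.log n)| ≤
      40 * Real.exp (3 * X) := by
  have h1 : ∫ t in a..b, PS X t * PS X (t + δ) = ∑ m ∈ Finset.range (NX X + 1), ∑ n ∈ Finset.range (NX X + 1),
      ap X m * ap X n * ∫ t in a..b, Real.cos (Real.log m * t) * Real.cos (Real.log n * (t + δ)) := by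
    have e : ∀ t : ℝ, PS X t * PS X (t + δ) = ∑ m ∈ Finset.range (NX X + 1), ∑ n ∈ Finset.range (NX X + 1),
        ap X m * ap X n * (Real.cos (Real.log m * t) * Real.cos (Real.log n * (t + δ))) := by
      intro t
      rw [PS_eq hX, PS_eq hX, Finset.sum_mul_sum]
      refine Finset.sum_congr rfl fun m _ => Finset.sum_congr rfl fun n _ => ?_
      ring
    simp_rw [e]
    rw [intervalIntegral.integral_finsetSum]
    · refine Finset.sum_congr rfl fun m _ => ?_
      rw [intervalIntegral.integral_finsetSum]
      · refine Finset.sum_congr rfl fun n _ => ?_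
        rw [intervalIntegral.integral_const_mul]
      · intro n _
        apply Continuous.intervalIntegrable
        fun_prop
    · intro m _
      apply Continuous.intervalIntegrable
      fun_prop
  have h0 : (b - a) / 2 * ∑ n ∈ Finset.range (NX X + 1), ap X n ^ 2 * Real.cos (δ * Real.log n) =
      ∑ m ∈ Finset.range (NX X + 1), ∑ n ∈ Finset.range (NX X + 1), (if m = n then ap X m * ap X n * ((b - a) / 2 * Real.cos (δ * Real.log n)) else 0) := by
    rw [Finset.mul_sum]
    refine Finset.sum_congr rfl fun m hm => ?_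
    rw [Finset.sum_ite_eq, if_pos hm]
    ring
  rw [h1, h0, ← Finset.sum_sub_distrib]
  simp_rw [← Finset.sum_sub_distrib]
  have hterm : ∀ m ∈ Finset.range (NX X + 1), ∀ n ∈ Finset.range (NX X + 1),
      |ap X m * ap X n * (∫ t in a..b, Real.cos (Real.log m * t) * Real.cos (Real.log n * (t + δ))) -
        (if m = n then ap X m * ap X n * ((b - a) / 2 * Real.cos (δ * Real.log n)) else 0)| ≤
        (if m = n then ap X m ^ 2 else 0) + ap X m * ap X n * (2 * Real.exp X) := by
    intro m hm n hn
    rw [Finset.mem_range] at hm hn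
    have ham := ap_nonneg hX m
    have han := ap_nonneg hX n
    by_cases hmn : m = n
    · rw [if_pos hmn, if_pos hmn]
      subst hmn
      rcases Nat.lt_or_ge m 2 with h2 | h2
      · rw [ap_zero_lt h2]; simp
      rw [← mul_sub, abs_mul, abs_of_nonneg (mul_nonneg ham ham)]
      have hl : 1 / 2 ≤ Real.log m := by
        have hn2 : (2:ℝ) ≤ m := by exact_mod_cast h2
        have := Real.log_le_log (by norm_num) hn2
        have := Real.log_two_gt_d9
        linarith
      have h3 := int_cos_diag hl δ a b
      calc ap X m * ap X m * |(∫ t in a..b, Real.cos (Real.log m * t) * Real.cos (Real.log m * (t + δ))) - (b - a) / 2 * Real.cos (δ * Real.log m)|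
          ≤ ap X m * ap X m * 1 := by gcongr
        _ = ap X m ^ 2 := by ring
        _ ≤ _ := by
          have : 0 ≤ ap X m * ap X m * (2 * Real.exp X) := by positivity
          linarith
    · rw [if_neg hmn, if_neg hmn, zero_add, sub_zero]
      rcases Nat.lt_or_ge m 2 with h2 | h2
      · rw [ap_zero_lt h2]; simp
      rcases Nat.lt_or_ge n 2 with h3 | h3
      · rw [ap_zero_lt h3]; simp
      rw [abs_mul, abs_of_nonneg (mul_nonneg ham han)]
      apply mul_le_mul_of_nonneg_left _ (by positivity)
      have hlm : 0 < Real.log m := Real.log_pos (by exact_mod_cast (by omega : 1 < m))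
      have hln : 0 < Real.log n := Real.log_pos (by exact_mod_cast (by omega : 1 < n))
      have hd : Real.exp (-X) ≤ |Real.log m - Real.log n| := by
        rcases lt_or_gt_of_ne hmn with h | h
        · have := log_diff (X := X) (m := n) (n := m) (by omega) h (by omega)
          rw [abs_sub_comm]
          exact this.trans (le_abs_self _)
        · exact (log_diff (X := X) (by omega) h (by omega)).trans (le_abs_self _)
      have hs : |Real.log m - Real.log n| ≤ |Real.log m + Real.log n| := by
        rw [abs_of_pos (by linarith : 0 < Real.log m + Real.log n), abs_le]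
        constructor <;> linarith
      have hE := Real.exp_pos (-X)
      have hdpos : 0 < |Real.log m - Real.log n| := lt_of_lt_of_le hE hd
      refine (int_cos_cos_sh (by rwa [← abs_pos]) (by linarith) δ a b).trans ?_
      calc 1 / |Real.log m - Real.log n| + 1 / |Real.log m + Real.log n|
          ≤ 1 / Real.exp (-X) + 1 / Real.exp (-X) := by
            gcongr
            exact hd.trans hs
        _ = 2 * Real.exp X := by rw [Real.exp_neg, one_div, inv_inv]; ring
  refine (Finset.abs_sum_le_sum_abs _ _).trans ?_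
  refine (Finset.sum_le_sum fun m _ => Finset.abs_sum_le_sum_abs _ _).trans ?_
  calc ∑ m ∈ Finset.range (NX X + 1), ∑ n ∈ Finset.range (NX X + 1),
      |ap X m * ap X n * (∫ t in a..b, Real.cos (Real.log m * t) * Real.cos (Real.log n * (t + δ))) -
        (if m = n then ap X m * ap X n * ((b - a) / 2 * Real.cos (δ * Real.log n)) else 0)|
      ≤ ∑ m ∈ Finset.range (NX X + 1), ∑ n ∈ Finset.range (NX X + 1),
        ((if m = n then ap X m ^ 2 else 0) + ap X m * ap X n * (2 * Real.exp X)) :=
        Finset.sum_le_sum fun m hm => Finset.sum_le_sum fun n hn => hterm m hm n hn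
    _ = (∑ m ∈ Finset.range (NX X + 1), ap X m ^ 2) + (∑ m ∈ Finset.range (NX X + 1), ap X m) ^ 2 * (2 * Real.exp X) := by
        simp_rw [Finset.sum_add_distrib]
        congr 1
        · refine Finset.sum_congr rfl fun m hm => ?_
          rw [Finset.sum_ite_eq, if_pos hm]
        · rw [sq, Finset.sum_mul_sum, Finset.sum_mul]
          refine Finset.sum_congr rfl fun m _ => ?_
          rw [Finset.sum_mul]
    _ ≤ 8 + (4 * Real.exp X) ^ 2 * (2 * Real.exp X) := by
        have h5 := sum_ap_sq hX
        have h6 := sum_ap_le hX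
        have h7 : 0 ≤ ∑ m ∈ Finset.range (NX X + 1), ap X m := Finset.sum_nonneg fun m _ => ap_nonneg hX m
        gcongr
    _ ≤ _ := by
        have : Real.exp (3 * X) = Real.exp X ^ 3 := by rw [← Real.exp_nat_mul]; norm_num
        have h8 : 1 ≤ Real.exp (3 * X) := Real.one_le_exp (by linarith)
        calc 8 + (4 * Real.exp X) ^ 2 * (2 * Real.exp X) = 8 + 32 * Real.exp (3 * X) := by rw [this]; ring
          _ ≤ _ := by linarith

end Pool.Agent.Helper57.LS
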