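import Pool.Agent.Helper57.LS.Mertens

namespace Pool.Agent.Helper57.LS

open Set MeasureTheory Filter Topology
open Pool.Agent.Helper57.LH
open scoped ArithmeticFunction

/-- the weight -/
noncomputable def hw (X δ y : ℝ) : ℝ := y * (1 - y / X) ^ 2 * Real.cos (δ * y)

noncomputable def hw' (X δ y : ℝ) : ℝ :=
  ((1 - y / X) ^ 2 + y * (2 * (1 - y / X) * (-(1 / X)))) * Real.cos (δ * y) + y * (1 - y / X) ^ 2 * (-Real.sin (δ * y) * δ)

lemma hw_deriv (X δ y : ℝ) : HasDerivAt (hw X δ) (hw' X δ y) y := by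
  have h1 : HasDerivAt (fun y : ℝ => 1 - y / X) (-(1 / X)) y := by
    simpa using ((hasDerivAt_id y).div_const X).const_sub 1
  have h2 : HasDerivAt (fun y : ℝ => (1 - y / X) ^ 2) (2 * (1 - y / X) * (-(1 / X))) y := by
    have := h1.fun_pow 2
    simpa using this
  have h3 : HasDerivAt (fun y : ℝ => Real.cos (δ * y)) (-Real.sin (δ * y) * δ) y := by
    have h4 : HasDerivAt (fun y : ℝ => δ * y) δ y := by simpa using (hasDerivAt_id y).const_mul δ
    exact h4.cos
  have h5 := ((hasDerivAt_id y).fun_mul h2).fun_mul h3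
  unfold hw
  refine h5.congr_deriv ?_
  unfold hw'
  simp only [id]
  ring

lemma hw'_cont (X δ : ℝ) : Continuous (hw' X δ) := by unfold hw'; fun_prop
lemma hw_cont (X δ : ℝ) : Continuous (hw X δ) := by unfold hw; fun_prop

lemma hw_X {X : ℝ} (hX : 0 < X) (δ : ℝ) : hw X δ X = 0 := by
  unfold hw; rw [div_self hX.ne']; ring

lemma hw_zero (X δ : ℝ) : hw X δ 0 = 0 := by unfold hw; ring

lemma hw'_le {X : ℝ} (hX : 0 < X) (δ : ℝ) {y : ℝ} (hy0 : 0 ≤ y) (hyX : y ≤ X) : |hw' X δ y| ≤ 3 + |δ| * X := by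
  have h1 : 0 ≤ y / X := by positivity
  have h2 : y / X ≤ 1 := by rw [div_le_one hX]; exact hyX
  have hc := Real.abs_cos_le_one (δ * y)
  have hs := Real.abs_sin_le_one (δ * y)
  have e : hw' X δ y = ((1 - y / X) ^ 2 - 2 * (y / X) * (1 - y / X)) * Real.cos (δ * y) - y * (1 - y / X) ^ 2 * (Real.sin (δ * y) * δ) := by
    unfold hw'; field_simp; ring
  rw [e]
  have h3 : |((1 - y / X) ^ 2 - 2 * (y / X) * (1 - y / X))| ≤ 3 := by
    rw [abs_le]; constructor <;> nlinarith
  have h4 : (1 - y / X) ^ 2 ≤ 1 := by nlinarith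
  have h4' : 0 ≤ (1 - y / X) ^ 2 := sq_nonneg _
  calc |((1 - y / X) ^ 2 - 2 * (y / X) * (1 - y / X)) * Real.cos (δ * y) - y * (1 - y / X) ^ 2 * (Real.sin (δ * y) * δ)|
      ≤ |((1 - y / X) ^ 2 - 2 * (y / X) * (1 - y / X)) * Real.cos (δ * y)| + |y * (1 - y / X) ^ 2 * (Real.sin (δ * y) * δ)| := abs_sub _ _
    _ ≤ 3 * 1 + X * 1 * (1 * |δ|) := by
        rw [abs_mul, abs_mul, abs_mul, abs_mul, abs_of_nonneg hy0, abs_of_nonneg h4']
        gcongr
    _ = _ := by ring

lemma hw_repr {X : ℝ} (hX : 0 < X) (δ : ℝ) {a : ℝ} (ha : 0 ≤ a) (haX : a ≤ X) :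
    hw X δ a = -∫ y in (0:ℝ)..X, (if a ≤ y then hw' X δ y else 0) := by
  have h1 : ∫ y in a..X, hw' X δ y = hw X δ X - hw X δ a :=
    intervalIntegral.integral_eq_sub_of_hasDerivAt (fun y _ => hw_deriv X δ y) ((hw'_cont X δ).intervalIntegrable _ _)
  rw [hw_X hX, zero_sub] at h1
  have h2 : ∫ y in (0:ℝ)..X, (if a ≤ y then hw' X δ y else 0) = ∫ y in a..X, hw' X δ y := by
    rw [intervalIntegral.integral_of_le hX.le, intervalIntegral.integral_of_le haX, ← integral_indicator measurableSet_Ioc,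
      ← integral_indicator measurableSet_Ioc]
    apply integral_congr_ae
    have : ∀ᵐ y : ℝ, y ≠ a := by
      rw [ae_iff]; simp
    filter_upwards [this] with y hy
    by_cases h3 : y ∈ Ioc 0 X
    · rw [indicator_of_mem h3]
      by_cases h4 : a ≤ y
      · have h5 : y ∈ Ioc a X := ⟨lt_of_le_of_ne h4 (Ne.symm hy), h3.2⟩
        rw [if_pos h4, indicator_of_mem h5]
      · rw [if_neg h4, indicator_of_notMem (fun h => h4 h.1.le)]
    · rw [indicator_of_notMem h3]
      by_cases h4 : y ∈ Ioc a X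
      · exact absurd ⟨lt_of_le_of_lt ha h4.1, h4.2⟩ h3
      · rw [indicator_of_notMem h4]
  rw [h2, h1]
  ring

/-- summatory function -/
noncomputable def Me (y : ℝ) : ℝ := ∑ n ∈ Finset.range (NX y + 1), Λ n / n

lemma Me_eq {X y : ℝ} (hyX : y ≤ X) (_hy0 : 0 ≤ y) :
    ∑ n ∈ Finset.range (NX X + 1), (Λ n / n) * (if Real.log n ≤ y then (1:ℝ) else 0) = Me y := by
  unfold Me
  have hsub : Finset.range (NX y + 1) ⊆ Finset.range (NX X + 1) := by
    apply Finset.range_mono
    have : NX y ≤ NX X := by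
      unfold NX
      exact Nat.floor_mono (Real.exp_le_exp.mpr hyX)
    omega
  rw [← Finset.sum_subset hsub]
  · refine Finset.sum_congr rfl fun n hn => ?_
    rw [Finset.mem_range] at hn
    rcases Nat.eq_zero_or_pos n with rfl | hn0
    · simp
    have h1 : (0:ℝ) < n := by exact_mod_cast hn0
    have h2 : (n:ℝ) ≤ Real.exp y := (Nat.le_floor_iff (Real.exp_pos y).le).mp (by unfold NX at hn; omega)
    rw [if_pos, mul_one]
    rwa [Real.log_le_iff_le_exp h1]
  · intro n _ hn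
    rw [Finset.mem_range, not_lt] at hn
    have h2 : Real.exp y < n := (Nat.floor_lt (Real.exp_pos y).le).mp (by unfold NX at hn; omega)
    have h1 : (0:ℝ) < n := (Real.exp_pos y).trans h2
    rw [if_neg, mul_zero]
    rw [not_le]
    rwa [Real.lt_log_iff_exp_lt h1]

lemma main_sum {X : ℝ} (hX : 0 < X) (δ : ℝ) :
    |(∑ n ∈ Finset.range (NX X + 1), (Λ n / n) * hw X δ (Real.log n)) - ∫ y in (0:ℝ)..X, hw X δ y| ≤ CMe * (3 + |δ| * X) * X := by
  set S := Finset.range (NX X + 1) with hS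
  have hlog : ∀ n ∈ S, 0 ≤ Real.log n ∧ Real.log n ≤ X := by
    intro n hn
    rw [hS, Finset.mem_range] at hn
    refine ⟨Real.log_natCast_nonneg n, ?_⟩
    rcases Nat.eq_zero_or_pos n with rfl | hn0
    · simpa using hX.le
    have h1 : (0:ℝ) < n := by exact_mod_cast hn0
    have h2 : (n:ℝ) ≤ Real.exp X := (Nat.le_floor_iff (Real.exp_pos X).le).mp (by unfold NX at hn; omega)
    rwa [Real.log_le_iff_le_exp h1]
  have hii : ∀ a : ℝ, IntervalIntegrable (fun y => if a ≤ y then hw' X δ y else 0) volume 0 X := by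
    intro a
    have h0 : (fun y => if a ≤ y then hw' X δ y else 0) = (Ici a).indicator (hw' X δ) := by
      funext y
      by_cases h : a ≤ y
      · rw [if_pos h, indicator_of_mem (mem_Ici.mpr h)]
      · rw [if_neg h, indicator_of_notMem (fun h' => h (mem_Ici.mp h'))]
    rw [h0, intervalIntegrable_iff]
    rw [IntegrableOn, integrable_indicator_iff measurableSet_Ici]
    have : IntegrableOn (hw' X δ) (uIoc 0 X) := intervalIntegrable_iff.mp ((hw'_cont X δ).intervalIntegrable _ _)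
    exact this.integrable.integrableOn
  have e1 : ∑ n ∈ S, (Λ n / n) * hw X δ (Real.log n) = -∫ y in (0:ℝ)..X, hw' X δ y * Me y := by
    have e2 : ∀ n ∈ S, (Λ n / n) * hw X δ (Real.log n) = -∫ y in (0:ℝ)..X, (Λ n / n) * (if Real.log n ≤ y then hw' X δ y else 0) := by
      intro n hn
      obtain ⟨h1, h2⟩ := hlog n hn
      rw [hw_repr hX δ h1 h2, intervalIntegral.integral_const_mul]
      ring
    rw [Finset.sum_congr rfl e2, Finset.sum_neg_distrib, ← intervalIntegral.integral_finsetSum (fun n _ => (hii _).const_mul _)]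
    congr 1
    apply intervalIntegral.integral_congr
    intro y hy
    rw [uIcc_of_le hX.le] at hy
    simp only
    rw [← Me_eq hy.2 hy.1, Finset.mul_sum]
    refine Finset.sum_congr rfl fun n _ => ?_
    split_ifs <;> ring
  have hMi : IntervalIntegrable (fun y => hw' X δ y * Me y) volume 0 X := by
    have h1 : IntervalIntegrable (fun y => ∑ n ∈ S, (Λ n / n) * (if Real.log n ≤ y then hw' X δ y else 0)) volume 0 X := by
      have := IntervalIntegrable.sum S (fun n _ => (hii (Real.log n)).const_mul (Λ n / (n:ℝ)))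
      refine this.congr_ae ?_
      filter_upwards with y
      simp
    refine h1.congr ?_
    intro y hy
    rw [uIoc_of_le hX.le] at hy
    simp only
    rw [← Me_eq hy.2 hy.1.le, Finset.mul_sum]
    refine Finset.sum_congr rfl fun n _ => ?_
    split_ifs <;> ring
  have hyi : IntervalIntegrable (fun y => hw' X δ y * y) volume 0 X := by
    apply Continuous.intervalIntegrable
    exact (hw'_cont X δ).mul continuous_id
  have e3 : ∫ y in (0:ℝ)..X, hw' X δ y * y = -∫ y in (0:ℝ)..X, hw X δ y := by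
    have h1 := intervalIntegral.integral_mul_deriv_eq_deriv_mul (a := 0) (b := X) (u := fun y => y) (v := hw X δ) (u' := fun _ => 1) (v' := hw' X δ)
      (fun y _ => hasDerivAt_id y) (fun y _ => hw_deriv X δ y) (by simp) ((hw'_cont X δ).intervalIntegrable _ _)
    rw [hw_X hX, hw_zero] at h1
    simp only [mul_zero, sub_self, zero_sub, one_mul] at h1
    rw [← h1]
    apply intervalIntegral.integral_congr
    intro y _
    simp only
    ring
  have e4 : (∑ n ∈ S, (Λ n / n) * hw X δ (Real.log n)) - ∫ y in (0:ℝ)..X, hw X δ y = -∫ y in (0:ℝ)..X, hw' X δ y * (Me y - y) := by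
    have e5 : ∫ y in (0:ℝ)..X, hw' X δ y * (Me y - y) = (∫ y in (0:ℝ)..X, hw' X δ y * Me y) - ∫ y in (0:ℝ)..X, hw' X δ y * y := by
      rw [← intervalIntegral.integral_sub hMi hyi]
      apply intervalIntegral.integral_congr
      intro y _
      simp only
      ring
    rw [e5, e3, e1]
    ring
  rw [e4, abs_neg, ← Real.norm_eq_abs]
  have h5 := intervalIntegral.norm_integral_le_of_norm_le_const (a := 0) (b := X) (C := CMe * (3 + |δ| * X)) (f := fun y => hw' X δ y * (Me y - y)) (by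
    intro y hy
    rw [uIoc_of_le hX.le] at hy
    rw [norm_mul, Real.norm_eq_abs, Real.norm_eq_abs, mul_comm]
    have h6 := hw'_le hX δ hy.1.le hy.2
    have h7 := mertens hy.1.le
    have := CMe_pos
    unfold Me
    gcongr)
  rw [sub_zero, abs_of_pos hX] at h5
  exact h5

/-- the main constant -/
noncomputable def cS (σ : ℝ) : ℝ := 2 * ∫ v in (0:ℝ)..1, v * (1 - v) ^ 2 * Real.cos (2 * Real.pi * σ * v)

lemma hw_int {X : ℝ} (hX : 0 < X) (δ : ℝ) : ∫ y in (0:ℝ)..X, hw X δ y = X ^ 2 * ∫ v in (0:ℝ)..1, v * (1 - v) ^ 2 * Real.cos (δ * X * v) := by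
  have h1 := intervalIntegral.integral_comp_mul_left (a := 0) (b := 1) (hw X δ) hX.ne'
  rw [mul_zero, mul_one, smul_eq_mul] at h1
  have h2 : ∫ y in (0:ℝ)..X, hw X δ y = X * ∫ v in (0:ℝ)..1, hw X δ (X * v) := by
    rw [h1, ← mul_assoc, mul_inv_cancel₀ hX.ne', one_mul]
  rw [h2, ← intervalIntegral.integral_const_mul, ← intervalIntegral.integral_const_mul]
  apply intervalIntegral.integral_congr
  intro v _
  simp only
  unfold hw
  rw [mul_div_cancel_left₀ _ hX.ne', show δ * X * v = δ * (X * v) by ring]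
  ring

/-- asymptotics of the diagonal prime sum -/
theorem prime_diag {X : ℝ} (hX : 0 < X) (δ : ℝ) :
    |(∑ n ∈ Finset.range (NX X + 1), ap X n ^ 2 * Real.cos (δ * Real.log n)) - 4 * ∫ v in (0:ℝ)..1, v * (1 - v) ^ 2 * Real.cos (δ * X * v)| ≤
      4 * (CNP + CMe * (3 + |δ| * X)) / X := by
  set S := Finset.range (NX X + 1) with hS
  have hlog : ∀ n ∈ S, 0 ≤ Real.log n ∧ Real.log n ≤ X := by
    intro n hn
    rw [hS, Finset.mem_range] at hn
    refine ⟨Real.log_natCast_nonneg n, ?_⟩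
    rcases Nat.eq_zero_or_pos n with rfl | hn0
    · simpa using hX.le
    have h1 : (0:ℝ) < n := by exact_mod_cast hn0
    have h2 : (n:ℝ) ≤ Real.exp X := (Nat.le_floor_iff (Real.exp_pos X).le).mp (by unfold NX at hn; omega)
    rwa [Real.log_le_iff_le_exp h1]
  have h1 : ∀ n ∈ S, |ap X n ^ 2 * Real.cos (δ * Real.log n) - 4 / X ^ 2 * ((Λ n / n) * hw X δ (Real.log n))| ≤ 4 / X * (aN n / n) := by
    intro n hn
    obtain ⟨h2, h3⟩ := hlog n hn
    have h8 := aN_nonneg n
    rcases Nat.eq_zero_or_pos n with rfl | hn0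
    · rw [ap_zero_lt (by norm_num)]
      simp
    have hn0' : (0:ℝ) < n := by exact_mod_cast hn0
    rw [ap_eq hX hn0 (by rw [hS, Finset.mem_range] at hn; omega)]
    have hs := Real.sq_sqrt hn0'.le
    have e1 : (2 / X * (Λ n * (1 - Real.log n / X) / Real.sqrt n)) ^ 2 * Real.cos (δ * Real.log n) =
        4 / X ^ 2 * (Λ n ^ 2 * (1 - Real.log n / X) ^ 2 / n * Real.cos (δ * Real.log n)) := by
      have : (2 / X * (Λ n * (1 - Real.log n / X) / Real.sqrt n)) ^ 2 = 4 / X ^ 2 * (Λ n ^ 2 * (1 - Real.log n / X) ^ 2 / Real.sqrt n ^ 2) := by ring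
      rw [this, hs]; ring
    rw [e1]
    unfold hw
    have e2 : 4 / X ^ 2 * (Λ n ^ 2 * (1 - Real.log n / X) ^ 2 / n * Real.cos (δ * Real.log n)) -
        4 / X ^ 2 * (Λ n / n * (Real.log n * (1 - Real.log n / X) ^ 2 * Real.cos (δ * Real.log n))) =
        4 / X ^ 2 * ((Λ n * (Λ n - Real.log n) / n) * ((1 - Real.log n / X) ^ 2 * Real.cos (δ * Real.log n))) := by ring
    rw [e2, abs_mul, abs_of_pos (by positivity : 0 < 4 / X ^ 2), abs_mul]
    have h4 : 0 ≤ Real.log n / X := by positivity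
    have h5 : Real.log n / X ≤ 1 := by rw [div_le_one hX]; exact h3
    have h6 : |(1 - Real.log n / X) ^ 2 * Real.cos (δ * Real.log n)| ≤ 1 := by
      rw [abs_mul, abs_of_nonneg (sq_nonneg _)]
      have := Real.abs_cos_le_one (δ * Real.log n)
      have h7 : (1 - Real.log n / X) ^ 2 ≤ 1 := by nlinarith
      calc (1 - Real.log n / X) ^ 2 * |Real.cos (δ * Real.log n)| ≤ 1 * 1 := by gcongr
        _ = 1 := by norm_num
    have h7 : |Λ n * (Λ n - Real.log n) / n| ≤ X * (aN n / n) := by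
      unfold aN
      split_ifs with hp
      · rw [ArithmeticFunction.vonMangoldt_apply_prime hp, sub_self]; simp
      · have h9 := @ArithmeticFunction.vonMangoldt_nonneg n
        have h10 := @ArithmeticFunction.vonMangoldt_le_log n
        rw [abs_div, abs_mul, abs_of_nonneg h9, abs_of_nonpos (by linarith), abs_of_pos hn0']
        calc Λ n * -(Λ n - Real.log n) / n ≤ Λ n * X / n := by
              gcongr
              linarith
          _ = _ := by ring
    calc 4 / X ^ 2 * (|Λ n * (Λ n - Real.log n) / n| * |(1 - Real.log n / X) ^ 2 * Real.cos (δ * Real.log n)|)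
        ≤ 4 / X ^ 2 * (X * (aN n / n) * 1) := by gcongr
      _ = _ := by field_simp
  have h2 : |(∑ n ∈ S, ap X n ^ 2 * Real.cos (δ * Real.log n)) - 4 / X ^ 2 * ∑ n ∈ S, (Λ n / n) * hw X δ (Real.log n)| ≤ 4 / X * CNP := by
    rw [Finset.mul_sum, ← Finset.sum_sub_distrib]
    refine (Finset.abs_sum_le_sum_abs _ _).trans ((Finset.sum_le_sum h1).trans ?_)
    rw [← Finset.mul_sum]
    have := nonprime_sum (NX X)
    gcongr
  have h3 := main_sum hX δ
  rw [← hS, hw_int hX] at h3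
  have h4 : |4 / X ^ 2 * (∑ n ∈ S, (Λ n / n) * hw X δ (Real.log n)) - 4 * ∫ v in (0:ℝ)..1, v * (1 - v) ^ 2 * Real.cos (δ * X * v)| ≤
      4 / X * (CMe * (3 + |δ| * X)) := by
    have e : 4 / X ^ 2 * (∑ n ∈ S, (Λ n / n) * hw X δ (Real.log n)) - 4 * ∫ v in (0:ℝ)..1, v * (1 - v) ^ 2 * Real.cos (δ * X * v) =
        4 / X ^ 2 * ((∑ n ∈ S, (Λ n / n) * hw X δ (Real.log n)) - X ^ 2 * ∫ v in (0:ℝ)..1, v * (1 - v) ^ 2 * Real.cos (δ * X * v)) := by
      generalize (∫ v in (0:ℝ)..1, v * (1 - v) ^ 2 * Real.cos (δ * X * v)) = Q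
      field_simp
    rw [e, abs_mul, abs_of_pos (by positivity : 0 < 4 / X ^ 2)]
    calc 4 / X ^ 2 * |(∑ n ∈ S, (Λ n / n) * hw X δ (Real.log n)) - X ^ 2 * ∫ v in (0:ℝ)..1, v * (1 - v) ^ 2 * Real.cos (δ * X * v)|
        ≤ 4 / X ^ 2 * (CMe * (3 + |δ| * X) * X) := by gcongr
      _ = _ := by field_simp
  calc |(∑ n ∈ S, ap X n ^ 2 * Real.cos (δ * Real.log n)) - 4 * ∫ v in (0:ℝ)..1, v * (1 - v) ^ 2 * Real.cos (δ * X * v)|
      ≤ |(∑ n ∈ S, ap X n ^ 2 * Real.cos (δ * Real.log n)) - 4 / X ^ 2 * ∑ n ∈ S, (Λ n / n) * hw X δ (Real.log n)| +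
        |4 / X ^ 2 * (∑ n ∈ S, (Λ n / n) * hw X δ (Real.log n)) - 4 * ∫ v in (0:ℝ)..1, v * (1 - v) ^ 2 * Real.cos (δ * X * v)| := abs_sub_le _ _ _
    _ ≤ 4 / X * CNP + 4 / X * (CMe * (3 + |δ| * X)) := add_le_add h2 h4
    _ = _ := by ring

end Pool.Agent.Helper57.LS
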