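import Pool.Agent.Helper57.LS.GmFT

namespace Pool.Agent.Helper57.LS

open Set MeasureTheory Filter Topology
open Pool.Agent.Helper57.LH
open scoped SchwartzMap FourierTransform

lemma sch_int (f : 𝓢(ℝ, ℝ)) {S : ℝ → ℝ} {k : ℕ} (hSc : Continuous S) (hb : ∀ x, 0 ≤ x → |S x| ≤ x ^ k) :
    IntegrableOn (fun x => f x * S x) (Ioi 0) := by
  have h := (f.integrable_pow_mul volume k).integrableOn (s := Ioi (0:ℝ))
  refine h.mono' ((f.continuous.mul hSc).aestronglyMeasurable) ?_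
  rw [ae_restrict_iff' measurableSet_Ioi]
  filter_upwards with x hx
  have hx0 : 0 ≤ x := le_of_lt hx
  rw [norm_mul, Real.norm_eq_abs, Real.norm_eq_abs, Real.norm_eq_abs, abs_of_nonneg hx0, mul_comm]
  have := hb x hx0
  gcongr

lemma parts (f : 𝓢(ℝ, ℝ)) {S S' : ℝ → ℝ} {k : ℕ} (hS : ∀ x, HasDerivAt S (S' x) x) (hSc : Continuous S') (h0 : S 0 = 0)
    (hb : ∀ x, 0 ≤ x → |S x| ≤ x ^ (k + 1)) (hb' : ∀ x, 0 ≤ x → |S' x| ≤ x ^ k) :
    ∫ x in Ioi (0:ℝ), f x * S' x = -∫ x in Ioi (0:ℝ), (SchwartzMap.derivCLM ℝ ℝ f) x * S x := by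
  have hSC : Continuous S := continuous_iff_continuousAt.mpr fun x => (hS x).continuousAt
  have hd : ∀ x, HasDerivAt f ((SchwartzMap.derivCLM ℝ ℝ f) x) x := by
    intro x
    rw [SchwartzMap.derivCLM_apply]
    exact (f.differentiable x).hasDerivAt
  have h := integral_Ioi_mul_deriv_eq_deriv_mul (a := 0) (a' := 0) (b' := 0) (u := f) (v := S) (u' := (SchwartzMap.derivCLM ℝ ℝ f)) (v' := S')
    (fun x _ => hd x) (fun x _ => hS x) (sch_int f hSc hb') (sch_int _ hSC hb) (by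
      have h1 : Tendsto (fun x => f x * S x) (𝓝 0) (𝓝 (f 0 * S 0)) := (f.continuous.mul hSC).continuousAt
      rw [h0, mul_zero] at h1
      exact h1.mono_left nhdsWithin_le_nhds) (by
      obtain ⟨C, hC, hdec⟩ := f.decay (k + 2) 0
      apply squeeze_zero_norm' (a := fun x : ℝ => C * x⁻¹)
      · filter_upwards [eventually_gt_atTop 0] with x hx
        have h2 := hdec x
        rw [norm_iteratedFDeriv_zero, Real.norm_eq_abs, abs_of_pos hx] at h2
        have h3 := hb x hx.le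
        simp only [Pi.mul_apply]
        rw [norm_mul, Real.norm_eq_abs (S x)]
        calc ‖f x‖ * |S x| ≤ ‖f x‖ * x ^ (k + 1) := by gcongr
          _ = (x ^ (k + 2) * ‖f x‖) * x⁻¹ := by
              field_simp
              ring
          _ ≤ C * x⁻¹ := by gcongr
      · have := tendsto_inv_atTop_zero (𝕜 := ℝ)
        simpa using this.const_mul C)
  rw [h]
  ring

/-- iterated primitives of the cosine -/
noncomputable def S1 (u x : ℝ) : ℝ := ∫ y in (0:ℝ)..x, Real.cos (2 * Real.pi * u * y)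
noncomputable def S2 (u x : ℝ) : ℝ := ∫ y in (0:ℝ)..x, S1 u y
noncomputable def S3 (u x : ℝ) : ℝ := ∫ y in (0:ℝ)..x, S2 u y

lemma S1_deriv (u x : ℝ) : HasDerivAt (S1 u) (Real.cos (2 * Real.pi * u * x)) x :=
  intervalIntegral.integral_hasDerivAt_right (by apply Continuous.intervalIntegrable; fun_prop) (by
    apply Continuous.stronglyMeasurableAtFilter; fun_prop) (by fun_prop)

lemma S1_cont (u : ℝ) : Continuous (S1 u) := continuous_iff_continuousAt.mpr fun x => (S1_deriv u x).continuousAt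

lemma S2_deriv (u x : ℝ) : HasDerivAt (S2 u) (S1 u x) x :=
  intervalIntegral.integral_hasDerivAt_right ((S1_cont u).intervalIntegrable _ _)
    ((S1_cont u).stronglyMeasurableAtFilter _ _) (S1_cont u).continuousAt

lemma S2_cont (u : ℝ) : Continuous (S2 u) := continuous_iff_continuousAt.mpr fun x => (S2_deriv u x).continuousAt

lemma S3_deriv (u x : ℝ) : HasDerivAt (S3 u) (S2 u x) x :=
  intervalIntegral.integral_hasDerivAt_right ((S2_cont u).intervalIntegrable _ _)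
    ((S2_cont u).stronglyMeasurableAtFilter _ _) (S2_cont u).continuousAt

lemma S3_cont (u : ℝ) : Continuous (S3 u) := continuous_iff_continuousAt.mpr fun x => (S3_deriv u x).continuousAt

lemma prim_bound {f : ℝ → ℝ} {k : ℕ} (hf : ∀ x, 0 ≤ x → |f x| ≤ x ^ k) {x : ℝ} (hx : 0 ≤ x) :
    |∫ y in (0:ℝ)..x, f y| ≤ x ^ (k + 1) := by
  have h := intervalIntegral.norm_integral_le_of_norm_le_const (a := 0) (b := x) (C := x ^ k) (f := f) (by
    intro y hy
    rw [uIoc_of_le hx] at hy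
    rw [Real.norm_eq_abs]
    refine (hf y hy.1.le).trans ?_
    exact pow_le_pow_left₀ hy.1.le hy.2 k)
  rw [sub_zero, abs_of_nonneg hx, Real.norm_eq_abs] at h
  rw [pow_succ]
  exact h

lemma S0_bound (u x : ℝ) (_hx : 0 ≤ x) : |Real.cos (2 * Real.pi * u * x)| ≤ x ^ 0 := by
  rw [pow_zero]; exact Real.abs_cos_le_one _
lemma S1_bound (u x : ℝ) (hx : 0 ≤ x) : |S1 u x| ≤ x ^ 1 := prim_bound (k := 0) (S0_bound u) hx
lemma S2_bound (u x : ℝ) (hx : 0 ≤ x) : |S2 u x| ≤ x ^ 2 := prim_bound (k := 1) (S1_bound u) hx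
lemma S3_bound (u x : ℝ) (hx : 0 ≤ x) : |S3 u x| ≤ x ^ 3 := prim_bound (k := 2) (S2_bound u) hx

lemma S3_eq (u x : ℝ) : S3 u x = (1 / 2) * ∫ y in (0:ℝ)..x, (x - y) ^ 2 * Real.cos (2 * Real.pi * u * y) := by
  have hd2 : ∀ y : ℝ, HasDerivAt (fun y : ℝ => (x - y) ^ 2) (-(2 * (x - y))) y := by
    intro y
    have h1 : HasDerivAt (fun y : ℝ => x - y) (-1) y := by simpa using (hasDerivAt_id y).const_sub x
    have := h1.fun_pow 2
    refine this.congr_deriv ?_
    simp
  have hd1 : ∀ y : ℝ, HasDerivAt (fun y : ℝ => x - y) (-1) y := by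
    intro y; simpa using (hasDerivAt_id y).const_sub x
  have h1 := intervalIntegral.integral_mul_deriv_eq_deriv_mul (a := 0) (b := x) (u := fun y => (x - y) ^ 2) (v := S1 u) (u' := fun y => -(2 * (x - y)))
    (v' := fun y => Real.cos (2 * Real.pi * u * y)) (fun y _ => hd2 y) (fun y _ => S1_deriv u y)
    (by apply Continuous.intervalIntegrable; fun_prop) (by apply Continuous.intervalIntegrable; fun_prop)
  have h2 := intervalIntegral.integral_mul_deriv_eq_deriv_mul (a := 0) (b := x) (u := fun y => (x - y)) (v := S2 u) (u' := fun _ => -1)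
    (v' := S1 u) (fun y _ => hd1 y) (fun y _ => S2_deriv u y)
    (by apply Continuous.intervalIntegrable; fun_prop) ((S1_cont u).intervalIntegrable _ _)
  have z1 : S1 u 0 = 0 := by unfold S1; simp
  have z2 : S2 u 0 = 0 := by unfold S2; simp
  simp only [sub_self, z1, z2, mul_zero, ne_eq, OfNat.ofNat_ne_zero, not_false_eq_true, zero_pow, zero_mul, zero_sub] at h1 h2
  have h3 : ∫ y in (0:ℝ)..x, -(2 * (x - y)) * S1 u y = -2 * ∫ y in (0:ℝ)..x, (x - y) * S1 u y := by
    rw [← intervalIntegral.integral_const_mul]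
    apply intervalIntegral.integral_congr
    intro y _
    simp only
    ring
  have h4 : ∫ y in (0:ℝ)..x, (-1) * S2 u y = -S3 u x := by
    rw [intervalIntegral.integral_const_mul]
    unfold S3
    ring
  rw [h1, h3, h2, h4]
  ring

lemma S3_Gm {x : ℝ} (hx : 0 < x) (u : ℝ) : S3 u x = x ^ 3 / 4 * Gm (x * u) := by
  rw [S3_eq, Gm_FT]
  have h1 := intervalIntegral.integral_comp_mul_left (a := 0) (b := 1) (fun y => (x - y) ^ 2 * Real.cos (2 * Real.pi * u * y)) hx.ne'
  rw [mul_zero, mul_one, smul_eq_mul] at h1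
  have h2 : ∫ y in (0:ℝ)..x, (x - y) ^ 2 * Real.cos (2 * Real.pi * u * y) =
      x * ∫ v in (0:ℝ)..1, (x - x * v) ^ 2 * Real.cos (2 * Real.pi * u * (x * v)) := by
    rw [h1, ← mul_assoc, mul_inv_cancel₀ hx.ne', one_mul]
  have h3 : ∫ v in (0:ℝ)..1, (x - x * v) ^ 2 * Real.cos (2 * Real.pi * u * (x * v)) = x ^ 2 * ∫ v in (0:ℝ)..1, (1 - v) ^ 2 * Real.cos (2 * Real.pi * (x * u) * v) := by
    rw [← intervalIntegral.integral_const_mul]
    apply intervalIntegral.integral_congr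
    intro v _
    simp only
    rw [show 2 * Real.pi * u * (x * v) = 2 * Real.pi * (x * u) * v by ring]
    ring
  rw [h2, h3]
  ring

/-- third derivative of a Schwartz function -/
noncomputable def D3 (f : 𝓢(ℝ, ℝ)) : 𝓢(ℝ, ℝ) := SchwartzMap.derivCLM ℝ ℝ (SchwartzMap.derivCLM ℝ ℝ (SchwartzMap.derivCLM ℝ ℝ f))

/-- the weight of the superposition -/
noncomputable def wt (f : 𝓢(ℝ, ℝ)) (x : ℝ) : ℝ := -(x ^ 2 / 4 * D3 f x)

lemma cos_rep (f : 𝓢(ℝ, ℝ)) (u : ℝ) :
    ∫ x in Ioi (0:ℝ), f x * Real.cos (2 * Real.pi * u * x) = ∫ x in Ioi (0:ℝ), wt f x * x * Gm (x * u) := by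
  have z1 : S1 u 0 = 0 := by unfold S1; simp
  have z2 : S2 u 0 = 0 := by unfold S2; simp
  have z3 : S3 u 0 = 0 := by unfold S3; simp
  rw [parts (k := 0) f (S1_deriv u) (by fun_prop) z1 (S1_bound u) (S0_bound u)]
  rw [parts (k := 1) _ (S2_deriv u) (S1_cont u) z2 (S2_bound u) (S1_bound u)]
  rw [parts (k := 2) _ (S3_deriv u) (S2_cont u) z3 (S3_bound u) (S2_bound u)]
  rw [neg_neg, ← integral_neg]
  apply setIntegral_congr_fun measurableSet_Ioi
  intro x hx
  simp only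
  rw [S3_Gm hx]
  unfold wt D3
  ring

lemma wt_cont (f : 𝓢(ℝ, ℝ)) : Continuous (wt f) := by
  unfold wt
  have := (D3 f).continuous
  fun_prop

lemma wt_int (f : 𝓢(ℝ, ℝ)) (k : ℕ) : IntegrableOn (fun x => |wt f x| * x ^ k) (Ioi 0) := by
  have h := (((D3 f).integrable_pow_mul volume (k + 2)).const_mul (1/4)).integrableOn (s := Ioi (0:ℝ))
  refine h.mono' ((wt_cont f).abs.mul (by fun_prop)).aestronglyMeasurable ?_
  rw [ae_restrict_iff' measurableSet_Ioi]
  filter_upwards with x hx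
  have hx0 : 0 ≤ x := le_of_lt hx
  unfold wt
  rw [norm_mul, Real.norm_eq_abs, Real.norm_eq_abs, Real.norm_eq_abs, Real.norm_eq_abs, abs_abs, abs_neg, abs_mul, abs_of_nonneg (by positivity : 0 ≤ x ^ 2 / 4),
    abs_of_nonneg hx0, abs_of_nonneg (by positivity : 0 ≤ x ^ k)]
  apply le_of_eq
  ring

end Pool.Agent.Helper57.LS
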