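import Pool.Agent.Helper57.LS.Local

namespace Pool.Agent.Helper57.LS

open Set MeasureTheory Filter Topology
open Pool.Agent.Helper57.LH
open Pool.Agent.Helper57.Zeta
open Pool.Agent.Helper57.PC
open Pool.Agent.Helper4.PC (gh gh_integrable CT_gh EE KernelLaw Gs_integrable WP_shift Gm_lower EE_add EE_smul phiF_int pcDensity_measurable)
open scoped SchwartzMap FourierTransform

lemma WP_integral' {α : Type*} [MeasurableSpace α] (μ : Measure α) (T : ℝ) (f : α → ℝ → ℝ) (hf : ∀ u, Integrable (fun v => f v u) μ) :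
    WP T (fun u => ∫ v, f v u ∂μ) = ∫ v, WP T (f v) ∂μ := by
  unfold WP
  rw [integral_finsetSum]
  · refine Finset.sum_congr rfl fun p _ => ?_
    rw [integral_const_mul]
  · intro p _
    exact (hf _).const_mul _

lemma EE_neg (T : ℝ) (φ : ℝ → ℝ) : EE T (fun u => φ (-u)) = EE T φ := by
  unfold EE
  rw [WP_neg]
  simp only [neg_zero]
  have h : ∫ u, φ (-u) * pcDensity u = ∫ u, φ u * pcDensity u := by
    rw [← integral_neg_eq_self (fun u => φ u * pcDensity u) volume]
    congr 1
    funext u
    rw [pc_even]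
  rw [h]

lemma sch_comp_int (g : 𝓢(ℝ, ℝ)) {R : ℝ} (hR : 0 < R) (s : ℝ) : Integrable (fun u => g ((u - s) / R)) :=
  (g.integrable.comp_div hR.ne').comp_sub_right s

lemma EE_even (g : 𝓢(ℝ, ℝ)) {R : ℝ} (hR : 0 < R) {s : ℝ} (hs : s = 0 ∨ ∀ x, g (-x) = g x) (T : ℝ) :
    EE T (fun u => g ((u - s) / R)) = EE T (fun u => (g ((u - s) / R) + g (-((u - s) / R))) / 2) := by
  rcases hs with rfl | he
  · have h1 := EE_neg T (fun u => g ((u - 0) / R))
    have i1 := sch_comp_int g hR 0
    have i2 : Integrable (fun u => g ((-u - 0) / R)) := i1.comp_neg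
    have h2 : (fun u : ℝ => (g ((u - 0) / R) + g (-((u - 0) / R))) / 2) = fun u => (1 / 2) * g ((u - 0) / R) + (1 / 2) * g ((-u - 0) / R) := by
      funext u
      rw [show -((u - 0) / R) = (-u - 0) / R by ring]
      ring
    rw [h2, EE_add T (i1.const_mul _) (i2.const_mul _), EE_smul, EE_smul, h1]
    ring
  · congr 1
    funext u
    rw [he]
    ring

/-- the integrand -/
noncomputable def Fi (g : 𝓢(ℝ, ℝ)) (R s x u : ℝ) : ℝ := wg g x * x * Gm (x * ((u - s) / R))

lemma wg_cont (g : 𝓢(ℝ, ℝ)) : Continuous (wg g) := wt_cont _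

lemma wg_int (g : 𝓢(ℝ, ℝ)) (k : ℕ) : IntegrableOn (fun x => |wg g x| * x ^ k) (Ioi 0) := wt_int _ k

lemma Fi_int_x (g : 𝓢(ℝ, ℝ)) (R s u : ℝ) : IntegrableOn (fun x => Fi g R s x u) (Ioi 0) := by
  have h := (wg_int g 1).mul_const (Gm 0)
  refine h.mono' ?_ ?_
  · apply Continuous.aestronglyMeasurable
    unfold Fi
    exact ((wg_cont g).mul continuous_id).mul (Gm_cont.comp (by fun_prop))
  · rw [ae_restrict_iff' measurableSet_Ioi]
    filter_upwards with x hx
    have hx0 : 0 ≤ x := le_of_lt hx
    unfold Fi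
    rw [norm_mul, norm_mul, Real.norm_eq_abs, Real.norm_of_nonneg hx0, Real.norm_of_nonneg (Gm_nonneg _), pow_one]
    have := Gm_le (x * ((u - s) / R))
    gcongr

lemma Gm_scale_int {x R : ℝ} (hx : 0 < x) (hR : 0 < R) (s : ℝ) : Integrable (fun u => Gm (x * ((u - s) / R))) := by
  have h := Gs_integrable (B := R / x) (by positivity) s
  refine h.congr ?_
  filter_upwards with u
  congr 1
  field_simp

lemma Gm_scale_integral {x R : ℝ} (hx : 0 < x) (hR : 0 < R) (s : ℝ) : ∫ u, Gm (x * ((u - s) / R)) = R / x := by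
  have hB : 0 < R / x := by positivity
  have h1 : ∀ u, Gm (x * ((u - s) / R)) = (fun y => Gm (y / (R / x))) (u - s) := by
    intro u
    simp only
    congr 1
    field_simp
  simp_rw [h1]
  rw [integral_sub_right_eq_self (fun y => Gm (y / (R / x))) s, Measure.integral_comp_div Gm (R / x), Gm_integral, abs_of_pos hB, smul_eq_mul, mul_one]

lemma Fi_prod (g : 𝓢(ℝ, ℝ)) {R : ℝ} (hR : 0 < R) (s : ℝ) :
    Integrable (fun p : ℝ × ℝ => Fi g R s p.1 p.2 * pcDensity p.2) ((volume.restrict (Ioi 0)).prod volume) := by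
  have hm : AEStronglyMeasurable (fun p : ℝ × ℝ => Fi g R s p.1 p.2 * pcDensity p.2) ((volume.restrict (Ioi 0)).prod volume) := by
    apply Measurable.aestronglyMeasurable
    apply Measurable.mul
    · apply Continuous.measurable
      unfold Fi
      exact (((wg_cont g).comp continuous_fst).mul continuous_fst).mul (Gm_cont.comp (by fun_prop))
    · exact pcDensity_measurable.comp measurable_snd
  rw [integrable_prod_iff hm]
  have hF : ∀ x : ℝ, x ∈ Ioi (0:ℝ) → Integrable (fun u => Fi g R s x u * pcDensity u) := by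
    intro x hx
    unfold Fi
    apply phiF_int
    exact (Gm_scale_int hx hR s).const_mul _
  constructor
  · rw [ae_restrict_iff' measurableSet_Ioi]
    filter_upwards with x hx
    exact hF x hx
  · have h := (wg_int g 0).const_mul R
    refine h.mono' ?_ ?_
    · exact (hm.norm.integral_prod_right')
    · rw [ae_restrict_iff' measurableSet_Ioi]
      filter_upwards with x hx
      have hx0 : 0 < x := hx
      rw [Real.norm_of_nonneg (integral_nonneg fun _ => norm_nonneg _)]
      have h1 : ∫ u, ‖Fi g R s x u * pcDensity u‖ ≤ ∫ u, |wg g x| * x * Gm (x * ((u - s) / R)) := by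
        apply integral_mono (hF x hx).norm ((Gm_scale_int hx hR s).const_mul _)
        intro u
        simp only
        unfold Fi
        rw [norm_mul, norm_mul, norm_mul, Real.norm_eq_abs, Real.norm_of_nonneg hx0.le, Real.norm_of_nonneg (Gm_nonneg _), Real.norm_of_nonneg (pcDensity_nonneg u)]
        apply mul_le_of_le_one_right _ (pcDensity_le_one u)
        have := Gm_nonneg (x * ((u - s) / R))
        positivity
      refine h1.trans ?_
      rw [integral_const_mul, Gm_scale_integral hx hR]
      apply le_of_eq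
      field_simp

/-- the deviation of a superposition -/
theorem EE_super (g : 𝓢(ℝ, ℝ)) {R : ℝ} (hR : 0 < R) (s T : ℝ) :
    EE T (fun u => (g ((u - s) / R) + g (-((u - s) / R))) / 2) = ∫ x in Ioi (0:ℝ), wg g x * x * EE T (fun u => Gm (x * ((u - s) / R))) ∧
    IntegrableOn (fun x => wg g x * x * EE T (fun u => Gm (x * ((u - s) / R)))) (Ioi 0) := by
  have hg : ∀ u, (g ((u - s) / R) + g (-((u - s) / R))) / 2 = ∫ x in Ioi (0:ℝ), Fi g R s x u := by
    intro u
    rw [super g ((u - s) / R)]
    rfl
  have hprod := Fi_prod g hR s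
  have hi1 : IntegrableOn (fun x => WP T (fun u => Fi g R s x u)) (Ioi 0) := by
    unfold WP
    apply integrable_finsetSum
    intro p _
    exact (Fi_int_x g R s _).const_mul _
  have hi2 : IntegrableOn (fun x => Fi g R s x 0) (Ioi 0) := Fi_int_x g R s 0
  have hi3 : IntegrableOn (fun x => ∫ u, Fi g R s x u * pcDensity u) (Ioi 0) := hprod.integral_prod_left
  have he : ∀ x, wg g x * x * EE T (fun u => Gm (x * ((u - s) / R))) = WP T (fun u => Fi g R s x u) -
      SN T * (Fi g R s x 0 + ∫ u, Fi g R s x u * pcDensity u) := by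
    intro x
    unfold EE
    have h1 : WP T (fun u => Fi g R s x u) = wg g x * x * WP T (fun u => Gm (x * ((u - s) / R))) := by
      unfold Fi
      rw [WP_smul]
    have h2 : ∫ u, Fi g R s x u * pcDensity u = wg g x * x * ∫ u, Gm (x * ((u - s) / R)) * pcDensity u := by
      rw [← integral_const_mul]
      congr 1
      funext u
      unfold Fi
      ring
    rw [h1, h2]
    unfold Fi
    ring
  constructor
  · simp_rw [he]
    have e1 : ∫ x in Ioi (0:ℝ), (WP T (fun u => Fi g R s x u) - SN T * (Fi g R s x 0 + ∫ u, Fi g R s x u * pcDensity u)) =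
        (∫ x in Ioi (0:ℝ), WP T (fun u => Fi g R s x u)) - SN T * ((∫ x in Ioi (0:ℝ), Fi g R s x 0) + ∫ x in Ioi (0:ℝ), ∫ u, Fi g R s x u * pcDensity u) := by
      have i4 : IntegrableOn (fun x => SN T * (Fi g R s x 0 + ∫ u, Fi g R s x u * pcDensity u)) (Ioi 0) := (hi2.add hi3).const_mul (SN T)
      rw [integral_sub hi1 i4, integral_const_mul, integral_add hi2 hi3]
    rw [e1]
    unfold EE
    simp_rw [hg]
    rw [WP_integral' (volume.restrict (Ioi 0)) T (fun x u => Fi g R s x u) (Fi_int_x g R s)]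
    congr 3
    have h3 : ∀ u, (∫ x in Ioi (0:ℝ), Fi g R s x u) * pcDensity u = ∫ x in Ioi (0:ℝ), Fi g R s x u * pcDensity u := by
      intro u
      rw [integral_mul_const]
    simp_rw [h3]
    exact (integral_integral_swap hprod).symm
  · have : (fun x => wg g x * x * EE T (fun u => Gm (x * ((u - s) / R)))) = fun x => WP T (fun u => Fi g R s x u) -
      SN T * (Fi g R s x 0 + ∫ u, Fi g R s x u * pcDensity u) := funext he
    rw [this]
    exact hi1.sub ((hi2.add hi3).const_mul _)

end Pool.Agent.Helper57.LS
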