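import Pool.Agent.Helper57.LS.OddC

namespace Pool.Agent.Helper57.LS

open Set MeasureTheory Filter Topology
open Pool.Agent.Helper57.LH
open Pool.Agent.Helper57.Zeta
open Pool.Agent.Helper57.PC
open Pool.Agent.Helper4.PC (gh gh_integrable CT_gh EE KernelLaw Gs_integrable WP_shift Gm_lower EE_add EE_smul phiF_int pcDensity_measurable)
open scoped SchwartzMap FourierTransform

section gen

variable {X : Type*} [MeasurableSpace X] {μ : Measure X} [SFinite μ] {w B v : X → ℝ}

lemma gK_meas (hw : Measurable w) (hBm : Measurable B) (hv : Measurable v) (u : ℝ) : Measurable (fun x => w x * Gm ((u - v x) / B x)) :=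
  hw.mul (Gm_cont.measurable.comp ((measurable_const.sub hv).div hBm))

lemma gK_int (hw : Measurable w) (hBm : Measurable B) (hv : Measurable v) (hB : ∀ᵐ x ∂μ, 0 < B x)
    (h1 : Integrable (fun x => |w x| * (1 + B x)) μ) (u : ℝ) : Integrable (fun x => w x * Gm ((u - v x) / B x)) μ := by
  refine (h1.mul_const (Gm 0)).mono' (gK_meas hw hBm hv u).aestronglyMeasurable ?_
  filter_upwards [hB] with x hx
  rw [norm_mul, Real.norm_eq_abs, Real.norm_of_nonneg (Gm_nonneg _)]
  have h2 := Gm_le ((u - v x) / B x)
  have h3 := Gm_nonneg ((u - v x) / B x)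
  calc |w x| * Gm ((u - v x) / B x) ≤ |w x| * 1 * Gm 0 := by rw [mul_one]; gcongr
    _ ≤ |w x| * (1 + B x) * Gm 0 := by
        gcongr
        · exact h3.trans h2
        · linarith

lemma Gs_integral {b : ℝ} (hb : 0 < b) (c : ℝ) : ∫ u, Gm ((u - c) / b) = b := by
  have h4 : ∫ u, (fun x => Gm (x / b)) (u - c) = ∫ u, Gm (u / b) := integral_sub_right_eq_self (fun x => Gm (x / b)) c
  have h5 : ∫ u, Gm (u / b) = b := by
    rw [Measure.integral_comp_div Gm b, Gm_integral, abs_of_pos hb, smul_eq_mul, mul_one]
  rw [h5] at h4; exact h4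

lemma gK_prod (hw : Measurable w) (hBm : Measurable B) (hv : Measurable v) (hB : ∀ᵐ x ∂μ, 0 < B x)
    (h1 : Integrable (fun x => |w x| * (1 + B x)) μ) :
    Integrable (fun p : X × ℝ => w p.1 * Gm ((p.2 - v p.1) / B p.1) * pcDensity p.2) (μ.prod volume) := by
  have hm : AEStronglyMeasurable (fun p : X × ℝ => w p.1 * Gm ((p.2 - v p.1) / B p.1) * pcDensity p.2) (μ.prod volume) := by
    apply Measurable.aestronglyMeasurable
    apply Measurable.mul
    · exact (hw.comp measurable_fst).mul (Gm_cont.measurable.comp ((measurable_snd.sub (hv.comp measurable_fst)).div (hBm.comp measurable_fst)))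
    · exact pcDensity_measurable.comp measurable_snd
  rw [integrable_prod_iff hm]
  have hF : ∀ x : X, 0 < B x → Integrable (fun u => w x * Gm ((u - v x) / B x) * pcDensity u) := by
    intro x hx
    apply phiF_int
    exact (Gs_integrable hx _).const_mul _
  constructor
  · filter_upwards [hB] with x hx
    exact hF x hx
  · refine h1.mono' ?_ ?_
    · exact (hm.norm.integral_prod_right')
    · filter_upwards [hB] with x hx
      rw [Real.norm_of_nonneg (integral_nonneg fun _ => norm_nonneg _)]
      have h2 : ∫ u, ‖w x * Gm ((u - v x) / B x) * pcDensity u‖ ≤ ∫ u, |w x| * Gm ((u - v x) / B x) := by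
        apply integral_mono (hF x hx).norm ((Gs_integrable hx _).const_mul _)
        intro u
        simp only
        rw [norm_mul, norm_mul, Real.norm_eq_abs, Real.norm_of_nonneg (Gm_nonneg _), Real.norm_of_nonneg (pcDensity_nonneg u)]
        apply mul_le_of_le_one_right _ (pcDensity_le_one u)
        have := Gm_nonneg ((u - v x) / B x)
        positivity
      refine h2.trans ?_
      rw [integral_const_mul, Gs_integral hx]
      gcongr
      linarith

/-- the deviation of a general superposition of kernels -/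
theorem EE_gen (hw : Measurable w) (hBm : Measurable B) (hv : Measurable v) (hB : ∀ᵐ x ∂μ, 0 < B x)
    (h1 : Integrable (fun x => |w x| * (1 + B x)) μ) (T : ℝ) :
    EE T (fun u => ∫ x, w x * Gm ((u - v x) / B x) ∂μ) = ∫ x, w x * EE T (fun u => Gm ((u - v x) / B x)) ∂μ ∧
    Integrable (fun x => w x * EE T (fun u => Gm ((u - v x) / B x))) μ := by
  have hprod := gK_prod hw hBm hv hB h1
  have hKi : ∀ u, Integrable (fun x => w x * Gm ((u - v x) / B x)) μ := gK_int hw hBm hv hB h1
  have hi1 : Integrable (fun x => WP T (fun u => w x * Gm ((u - v x) / B x))) μ := by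
    unfold WP
    apply integrable_finsetSum
    intro p _
    exact (hKi _).const_mul _
  have hi2 : Integrable (fun x => w x * Gm ((0 - v x) / B x)) μ := hKi 0
  have hi3 : Integrable (fun x => ∫ u, w x * Gm ((u - v x) / B x) * pcDensity u) μ := hprod.integral_prod_left
  have he : ∀ x, w x * EE T (fun u => Gm ((u - v x) / B x)) = WP T (fun u => w x * Gm ((u - v x) / B x)) -
      SN T * (w x * Gm ((0 - v x) / B x) + ∫ u, w x * Gm ((u - v x) / B x) * pcDensity u) := by
    intro x
    unfold EE
    have h1 : WP T (fun u => w x * Gm ((u - v x) / B x)) = w x * WP T (fun u => Gm ((u - v x) / B x)) := by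
      rw [WP_smul]
    have h2 : ∫ u, w x * Gm ((u - v x) / B x) * pcDensity u = w x * ∫ u, Gm ((u - v x) / B x) * pcDensity u := by
      rw [← integral_const_mul]
      congr 1
      funext u
      ring
    rw [h1, h2]
    ring
  constructor
  · simp_rw [he]
    have e1 : ∫ x, (WP T (fun u => w x * Gm ((u - v x) / B x)) - SN T * (w x * Gm ((0 - v x) / B x) + ∫ u, w x * Gm ((u - v x) / B x) * pcDensity u)) ∂μ =
        (∫ x, WP T (fun u => w x * Gm ((u - v x) / B x)) ∂μ) - SN T * ((∫ x, w x * Gm ((0 - v x) / B x) ∂μ) + ∫ x, ∫ u, w x * Gm ((u - v x) / B x) * pcDensity u ∂volume ∂μ) := by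
      have i4 : Integrable (fun x => SN T * (w x * Gm ((0 - v x) / B x) + ∫ u, w x * Gm ((u - v x) / B x) * pcDensity u)) μ := (hi2.add hi3).const_mul (SN T)
      rw [integral_sub hi1 i4, integral_const_mul, integral_add hi2 hi3]
    rw [e1]
    unfold EE
    rw [WP_integral' μ T (fun x u => w x * Gm ((u - v x) / B x)) hKi]
    congr 3
    have h3 : ∀ u, (∫ x, w x * Gm ((u - v x) / B x) ∂μ) * pcDensity u = ∫ x, w x * Gm ((u - v x) / B x) * pcDensity u ∂μ := by
      intro u
      rw [integral_mul_const]
    simp_rw [h3]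
    exact (integral_integral_swap hprod).symm
  · have : (fun x => w x * EE T (fun u => Gm ((u - v x) / B x))) = fun x => WP T (fun u => w x * Gm ((u - v x) / B x)) -
      SN T * (w x * Gm ((0 - v x) / B x) + ∫ u, w x * Gm ((u - v x) / B x) * pcDensity u) := funext he
    rw [this]
    exact hi1.sub ((hi2.add hi3).const_mul _)

/-- the law for a general superposition -/
theorem law_gen {C : ℝ} (hC : 0 < C) (hU : ∀ᶠ T : ℝ in atTop, ∀ B : ℝ, 0 < B → ∀ v : ℝ, |EE T (fun u => Gm ((u - v) / B))| ≤ C * (1 + B) * SN T)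
    (hL : ∀ B : ℝ, 0 < B → ∀ v : ℝ, ∀ᶠ T : ℝ in atTop, |EE T (fun u => Gm ((u - v) / B))| ≤ C / B ^ 2 * SN T)
    (hw : Measurable w) (hBm : Measurable B) (hv : Measurable v) (hB : ∀ᵐ x ∂μ, 0 < B x)
    (h1 : Integrable (fun x => |w x| * (1 + B x)) μ) (h2 : Integrable (fun x => |w x| / B x ^ 2) μ) {ε : ℝ} (hε : 0 < ε) :
    ∀ᶠ T : ℝ in atTop, |EE T (fun u => ∫ x, w x * Gm ((u - v x) / B x) ∂μ)| ≤ (C * (∫ x, |w x| / B x ^ 2 ∂μ) + ε) * SN T := by
  set F : ℝ → X → ℝ := fun T x => w x * EE T (fun u => Gm ((u - v x) / B x)) with hF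
  have hFi : ∀ T, Integrable (F T) μ := fun T => (EE_gen hw hBm hv hB h1 T).2
  set m : X → ℝ := fun x => C * (|w x| / B x ^ 2) with hm
  have hmi : Integrable m μ := h2.const_mul _
  set h : ℝ → X → ℝ := fun T x => max 0 (|F T x| / SN T - m x) with hh
  set bd : X → ℝ := fun x => C * (|w x| * (1 + B x)) with hbd
  have hbdi : Integrable bd μ := h1.const_mul C
  have hbound : ∀ᶠ T : ℝ in atTop, ∀ x, 0 < B x → |F T x| / SN T ≤ bd x := by
    filter_upwards [hU, eventually_gt_atTop 1] with T hT hT1 x hx
    have hS := SN_pos hT1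
    rw [div_le_iff₀ hS, hF, hbd]
    simp only
    rw [abs_mul]
    have h1 := hT (B x) hx (v x)
    calc |w x| * |EE T (fun u => Gm ((u - v x) / B x))| ≤ |w x| * (C * (1 + B x) * SN T) := by gcongr
      _ = _ := by ring
  have hm0 : ∀ x, 0 ≤ m x := fun x => by rw [hm]; positivity
  have hlim : Tendsto (fun T => ∫ x, h T x ∂μ) atTop (𝓝 (∫ _x, (0:ℝ) ∂μ)) := by
    apply tendsto_integral_filter_of_dominated_convergence bd
    · filter_upwards with T
      have : AEStronglyMeasurable (fun x => |F T x| / SN T - m x) μ :=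
        ((hFi T).norm.div_const (SN T)).aestronglyMeasurable.sub hmi.aestronglyMeasurable
      exact aestronglyMeasurable_const.sup this
    · filter_upwards [hbound, eventually_gt_atTop 1] with T hT hT1
      filter_upwards [hB] with x hx
      rw [hh]
      simp only
      rw [Real.norm_of_nonneg (le_max_left _ _)]
      have h1 := hT x hx
      have h2 : 0 ≤ m x := hm0 x
      apply max_le
      · exact le_trans (div_nonneg (abs_nonneg _) (SN_pos hT1).le) h1
      · linarith
    · exact hbdi
    · filter_upwards [hB] with x hx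
      apply tendsto_const_nhds.congr'
      filter_upwards [hL (B x) hx (v x), eventually_gt_atTop 1] with T hT hT1
      have hS := SN_pos hT1
      rw [hh]
      simp only
      symm
      apply max_eq_left
      rw [sub_nonpos, div_le_iff₀ hS, hF, hm]
      simp only
      rw [abs_mul]
      calc |w x| * |EE T (fun u => Gm ((u - v x) / B x))| ≤ |w x| * (C / B x ^ 2 * SN T) := by gcongr
        _ = _ := by ring
  rw [integral_zero] at hlim
  have hev : ∀ᶠ T : ℝ in atTop, ∫ x, h T x ∂μ ≤ ε := hlim.eventually_le_const hε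
  filter_upwards [hev, hbound, eventually_gt_atTop 1] with T h3 h4 hT1
  have hS := SN_pos hT1
  rw [(EE_gen hw hBm hv hB h1 T).1]
  have hFi' : Integrable (fun x => |F T x| / SN T) μ := (hFi T).norm.div_const _
  have hhi : Integrable (h T) μ := by
    refine hbdi.mono' ?_ ?_
    · have : AEStronglyMeasurable (fun x => |F T x| / SN T - m x) μ :=
        hFi'.aestronglyMeasurable.sub hmi.aestronglyMeasurable
      exact aestronglyMeasurable_const.sup this
    · filter_upwards [hB] with x hx
      rw [hh]
      simp only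
      rw [Real.norm_of_nonneg (le_max_left _ _)]
      have h5 := h4 x hx
      have h6 : 0 ≤ m x := hm0 x
      apply max_le
      · exact le_trans (div_nonneg (abs_nonneg _) hS.le) h5
      · linarith
  have h5 : |∫ x, F T x ∂μ| ≤ ∫ x, |F T x| ∂μ := abs_integral_le_integral_abs
  have h6 : ∫ x, |F T x| / SN T ∂μ ≤ ∫ x, (h T x + m x) ∂μ := by
    apply integral_mono hFi' (hhi.add hmi)
    intro x
    simp only [Pi.add_apply, hh]
    have := le_max_right 0 (|F T x| / SN T - m x)
    linarith
  rw [integral_add hhi hmi, integral_div] at h6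
  have h7 : ∫ x, m x ∂μ = C * ∫ x, |w x| / B x ^ 2 ∂μ := by
    rw [hm, integral_const_mul]
  rw [h7, div_le_iff₀ hS] at h6
  refine h5.trans (h6.trans ?_)
  refine mul_le_mul_of_nonneg_right ?_ hS.le
  linarith

end gen

end Pool.Agent.Helper57.LS
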