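import Pool.Agent.Helper57.LH.Gtwo
import Pool.Agent.Helper57.LS.PrimeAsym

namespace Pool.Agent.Helper57.LS

open Set MeasureTheory Filter Topology
open Pool.Agent.Helper57.LH
open Pool.Agent.Helper57.Zeta

/-- tail of zeros outside `[0,T]` seen from inside -/
lemma tail_bound {T X t : ℝ} (hT : 3 ≤ T) (hX : 1 ≤ X) (ht : 2 ≤ t) (htT : t ≤ T - 2) (F : Finset ZS) (hF : ∀ ρ ∈ F, ρ ∉ ZT T) :
    ∑ ρ ∈ F, mx ρ * gs X 0 (t - (ρ:ℂ).im) ≤ 10 * CLA * Real.log T / X ^ 2 := by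
  have hX0 : 0 < X := by linarith
  have hA := Afun_log hT (by linarith : (0:ℝ) ≤ t) (by linarith : t ≤ T)
  have h1 : ∑ ρ ∈ F, fz ρ t ≤ Afun t := sum_le_hasSum F (fun i _ => fz_nonneg i t) (fz_hasSum t)
  have h2 : ∑ ρ ∈ F, mx ρ * gs X 0 (t - (ρ:ℂ).im) ≤ ∑ ρ ∈ F, 10 / X ^ 2 * fz ρ t := by
    refine Finset.sum_le_sum fun ρ hρ => ?_
    have hr := zs_re ρ
    have hn := hF ρ hρ
    rw [mem_ZT, not_and_or, not_le, not_le] at hn
    have hm := mx_nonneg (ρ:ℂ)
    set w := t - (ρ:ℂ).im with hw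
    have hw2 : 4 ≤ w ^ 2 := by
      rcases hn with h | h
      · have : 2 ≤ w := by rw [hw]; linarith
        nlinarith
      · have : w ≤ -2 := by rw [hw]; linarith
        nlinarith
    have h3 : gs X 0 w ≤ 5 / (X ^ 2 * w ^ 2) := by
      refine (gs_zero_decay hX0 _).trans ?_
      unfold Kd
      rw [div_eq_mul_inv]
      gcongr
      have : 0 < X ^ 2 := by positivity
      nlinarith
    unfold fz
    set a := 2 - (ρ:ℂ).re with ha
    have ha1 : 1 < a := by rw [ha]; linarith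
    have ha2 : a < 2 := by rw [ha]; linarith
    have h6 : 5 / (X ^ 2 * w ^ 2) ≤ 10 / X ^ 2 * (a / (a ^ 2 + w ^ 2)) := by
      have hX2 : 0 < X ^ 2 := by positivity
      have hw20 : 0 < w ^ 2 := by linarith
      have e1 : 5 / (X ^ 2 * w ^ 2) = 1 / X ^ 2 * (5 / w ^ 2) := by field_simp
      have e2 : 10 / X ^ 2 * (a / (a ^ 2 + w ^ 2)) = 1 / X ^ 2 * (10 * a / (a ^ 2 + w ^ 2)) := by ring
      rw [e1, e2]
      apply mul_le_mul_of_nonneg_left _ (by positivity)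
      rw [div_le_div_iff₀ hw20 (by positivity)]
      nlinarith
    calc mx ρ * gs X 0 w ≤ mx ρ * (10 / X ^ 2 * (a / (a ^ 2 + w ^ 2))) := by
          gcongr
          exact h3.trans h6
      _ = _ := by ring
  rw [← Finset.mul_sum] at h2
  calc ∑ ρ ∈ F, mx ρ * gs X 0 (t - (ρ:ℂ).im) ≤ 10 / X ^ 2 * ∑ ρ ∈ F, fz ρ t := h2
    _ ≤ 10 / X ^ 2 * (CLA * Real.log T) := by gcongr; linarith
    _ = _ := by ring

/-- two sided approximation of the Fejer sum over the zeros in `[0,T]` -/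
theorem Y_two {T L B X t : ℝ} (hL : L = Real.log T) (hL40 : 40 ≤ L) (hB : 9600 ≤ B) (hX : X = L / B) (hX1 : 1 ≤ X)
    (hT3 : 3 ≤ T) (ht : 20 ≤ t) (htT : t ≤ T - 2) {Ψ : ℝ → ℝ} (hΨc : Continuous Ψ) (hΨ : DomPsi T B Ψ) :
    |Yf (ZT T) X t - (MT X t / X - PS X t)| ≤ 16 * RB T L B X Ψ t + 10 * CLA * Real.log T / X ^ 2 := by
  have hX0 : 0 < X := by linarith
  set d : ZS → ℝ := fun ρ => mx ρ * |gs X ((ρ:ℂ).re - 1 / 2) (t - (ρ:ℂ).im) - gs X 0 (t - (ρ:ℂ).im)| with hd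
  have hd0 : ∀ ρ, 0 ≤ d ρ := fun ρ => mul_nonneg (mx_nonneg _) (abs_nonneg _)
  have hfin := E1_finite hL hL40 hB hX hX1 ht (by linarith) hΨc hΨ
  have hds : Summable d := summable_of_sum_le hd0 (fun F => hfin F)
  have hdt : ∑' ρ, d ρ ≤ 16 * RB T L B X Ψ t := hds.tsum_le_of_sum_le (fun F => hfin F)
  have hex := explicit hX0 t
  have hg0 : ∀ ρ : ZS, 0 ≤ mx ρ * gs X 0 (t - (ρ:ℂ).im) := fun ρ => mul_nonneg (mx_nonneg _) (gs_zero_nonneg hX0 _)
  have hle : ∀ ρ : ZS, mx ρ * gs X 0 (t - (ρ:ℂ).im) ≤ mx ρ * gs X ((ρ:ℂ).re - 1 / 2) (t - (ρ:ℂ).im) + d ρ := by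
    intro ρ
    rw [hd]
    simp only
    rw [← mul_add]
    apply mul_le_mul_of_nonneg_left _ (mx_nonneg _)
    have := neg_abs_le (gs X ((ρ:ℂ).re - 1 / 2) (t - (ρ:ℂ).im) - gs X 0 (t - (ρ:ℂ).im))
    linarith
  have hle2 : ∀ ρ : ZS, mx ρ * gs X ((ρ:ℂ).re - 1 / 2) (t - (ρ:ℂ).im) - d ρ ≤ mx ρ * gs X 0 (t - (ρ:ℂ).im) := by
    intro ρ
    rw [hd]
    simp only
    rw [← mul_sub]
    apply mul_le_mul_of_nonneg_left _ (mx_nonneg _)
    have := le_abs_self (gs X ((ρ:ℂ).re - 1 / 2) (t - (ρ:ℂ).im) - gs X 0 (t - (ρ:ℂ).im))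
    linarith
  have hsum2 := hex.summable.add hds
  have hg0s : Summable (fun ρ : ZS => mx ρ * gs X 0 (t - (ρ:ℂ).im)) := Summable.of_nonneg_of_le hg0 hle hsum2
  have hup : ∑' ρ : ZS, mx ρ * gs X 0 (t - (ρ:ℂ).im) ≤ (MT X t / X - PS X t) + 16 * RB T L B X Ψ t := by
    calc ∑' ρ : ZS, mx ρ * gs X 0 (t - (ρ:ℂ).im)
        ≤ ∑' ρ : ZS, (mx ρ * gs X ((ρ:ℂ).re - 1 / 2) (t - (ρ:ℂ).im) + d ρ) := hg0s.tsum_le_tsum hle hsum2
      _ = (MT X t / X - PS X t) + ∑' ρ, d ρ := by rw [hex.summable.tsum_add hds, hex.tsum_eq]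
      _ ≤ _ := by linarith
  have hlo : (MT X t / X - PS X t) - 16 * RB T L B X Ψ t ≤ ∑' ρ : ZS, mx ρ * gs X 0 (t - (ρ:ℂ).im) := by
    calc (MT X t / X - PS X t) - 16 * RB T L B X Ψ t ≤ (MT X t / X - PS X t) - ∑' ρ, d ρ := by linarith
      _ = ∑' ρ : ZS, (mx ρ * gs X ((ρ:ℂ).re - 1 / 2) (t - (ρ:ℂ).im) - d ρ) := by
          rw [hex.summable.tsum_sub hds, hex.tsum_eq]
      _ ≤ _ := (hex.summable.sub hds).tsum_le_tsum hle2 hg0s
  have hYle : Yf (ZT T) X t ≤ ∑' ρ : ZS, mx ρ * gs X 0 (t - (ρ:ℂ).im) := hg0s.sum_le_tsum (ZT T) (fun i _ => hg0 i)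
  have hYge : (∑' ρ : ZS, mx ρ * gs X 0 (t - (ρ:ℂ).im)) ≤ Yf (ZT T) X t + 10 * CLA * Real.log T / X ^ 2 := by
    apply hg0s.tsum_le_of_sum_le
    intro F
    classical
    rw [← Finset.sum_filter_add_sum_filter_not F (fun ρ => ρ ∈ ZT T)]
    apply add_le_add
    · unfold Yf
      apply Finset.sum_le_sum_of_subset_of_nonneg
      · intro ρ hρ
        exact (Finset.mem_filter.mp hρ).2
      · intro ρ _ _
        exact hg0 ρ
    · apply tail_bound hT3 hX1 (by linarith) htT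
      intro ρ hρ
      exact (Finset.mem_filter.mp hρ).2
  have hRB : 0 ≤ 10 * CLA * Real.log T / X ^ 2 := by
    have := CLA_pos
    have := one_le_log hT3
    positivity
  rw [abs_le]
  constructor <;> linarith

/-- integral of the kernel -/
lemma gs_integral {X : ℝ} (hX : 0 < X) : ∫ w, gs X 0 w = 2 * Real.pi / X := by
  have hc : 0 < X / (2 * Real.pi) := by positivity
  simp_rw [gs_sc hX]
  rw [Measure.integral_comp_mul_left (fun x => sc x) (X / (2 * Real.pi)), sc_integral, smul_eq_mul, mul_one, abs_of_pos (by positivity), inv_div]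

lemma gs_integrable {X : ℝ} (hX : 0 < X) : Integrable (gs X 0) := by
  refine ((Kd_integrable hX).const_mul 5).mono' (gs_cont X 0).aestronglyMeasurable ?_
  filter_upwards with w
  rw [Real.norm_of_nonneg (gs_zero_nonneg hX w)]
  exact gs_zero_decay hX w

lemma Yf_integrable (F : Finset ZS) {X : ℝ} (hX : 0 < X) : Integrable (Yf F X) := by
  unfold Yf
  apply integrable_finsetSum
  intro ρ _
  exact ((gs_integrable hX).comp_sub_right _).const_mul _

lemma Yf_integral (T : ℝ) {X : ℝ} (hX : 0 < X) : ∫ t, Yf (ZT T) X t = 2 * Real.pi / X * NT T := by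
  unfold Yf
  rw [integral_finsetSum]
  · have e1 : ∀ ρ : ZS, ∫ t, mx ρ * gs X 0 (t - (ρ:ℂ).im) = (2 * Real.pi / X) * mx ρ := by
      intro ρ
      rw [integral_const_mul]
      have e2 : ∫ t, gs X 0 (t - (ρ:ℂ).im) = 2 * Real.pi / X := by
        rw [← gs_integral hX]
        exact integral_sub_right_eq_self (gs X 0) (ρ:ℂ).im
      rw [e2]; ring
    simp_rw [e1]
    rw [← Finset.mul_sum, sum_ZT_mx]
  · intro ρ _
    exact ((gs_integrable hX).comp_sub_right _).const_mul _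

/-- first moment outside an interval -/
lemma compl_first {T X a b M : ℝ} (hT : 3 ≤ T) (hX : 1 ≤ X) (hM : 1 ≤ M) (ha : 0 ≤ a) (hbT : b ≤ T) {F : Finset ZS}
    (hF : ∀ ρ ∈ F, 0 ≤ (ρ:ℂ).im ∧ (ρ:ℂ).im ≤ T) :
    ∫ t in (Icc a b)ᶜ, Yf F X t ≤ (20 * CLA * Real.log T) * (a + (T - b) + 2 * M) +
      20 * M ^ (-(3/4) : ℝ) * (∑ ρ ∈ F, mx ρ) * C1 := by
  have hX0 : 0 < X := by linarith
  have hCLA := CLA_pos
  have hL := one_le_log hT
  set c := 20 * CLA * Real.log T with hc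
  have hc0 : 0 < c := by rw [hc]; positivity
  set S : Set ℝ := Icc (-M) a ∪ Icc b (T + M) with hS
  have hSm : MeasurableSet S := measurableSet_Icc.union measurableSet_Icc
  have hSv : volume S < ⊤ := by
    refine (measure_union_le _ _).trans_lt ?_
    rw [Real.volume_Icc, Real.volume_Icc]
    exact ENNReal.add_lt_top.mpr ⟨ENNReal.ofReal_lt_top, ENNReal.ofReal_lt_top⟩
  set G1 : ℝ → ℝ := S.indicator (fun _ => c) with hG1
  set G2 : ℝ → ℝ := fun t => ∑ ρ ∈ F, ((20 * M ^ (-(3/4) : ℝ)) * mx ρ) * wf (t - (ρ:ℂ).im) with hG2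
  have iG1 : Integrable G1 := by
    rw [hG1, integrable_indicator_iff hSm]
    exact integrableOn_const hSv.ne
  have iG2 : Integrable G2 := by
    apply integrable_finsetSum
    intro ρ _
    exact (wf_integrable.comp_sub_right _).const_mul _
  have hMp : 0 < M ^ (-(3/4) : ℝ) := Real.rpow_pos_of_pos (by linarith) _
  have hG10 : ∀ t, 0 ≤ G1 t := fun t => by
    rw [hG1]
    exact indicator_nonneg (fun _ _ => by positivity) t
  have hG20 : ∀ t, 0 ≤ G2 t := fun t => by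
    rw [hG2]
    refine Finset.sum_nonneg fun ρ _ => ?_
    have := mx_nonneg (ρ:ℂ)
    have := wf_nonneg (t - (ρ:ℂ).im)
    positivity
  have hpt : ∀ t ∈ (Icc a b)ᶜ, Yf F X t ≤ G1 t + G2 t := by
    intro t ht
    have hy := Yf_le_log hT hX hF t
    have hy0 := Yf_nonneg F hX0 t
    by_cases htS : t ∈ S
    · have e1 : G1 t = c := by rw [hG1]; exact indicator_of_mem htS _
      rw [e1]
      linarith [hG20 t]
    · have h3 : Yf F X t ≤ G2 t := by
        unfold Yf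
        rw [hG2]
        simp only
        refine Finset.sum_le_sum fun ρ hρ => ?_
        obtain ⟨hg0, hgT⟩ := hF ρ hρ
        have hfar : M ≤ |t - (ρ:ℂ).im| := by
          rw [hS, mem_union, not_or] at htS
          obtain ⟨h4, h5⟩ := htS
          simp only [mem_Icc, not_and_or, not_le] at h4 h5
          rw [mem_compl_iff, mem_Icc, not_and_or, not_le, not_le] at ht
          rw [le_abs]
          rcases ht with h | h
          · right
            rcases h4 with h4 | h4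
            · linarith
            · linarith
          · left
            rcases h5 with h5 | h5
            · linarith
            · linarith
        have h6 := gs_zero_decay hX0 (t - (ρ:ℂ).im)
        have h7 := Kd_far hX hM hfar
        have := mx_nonneg (ρ:ℂ)
        calc (mx ρ * gs X 0 (t - (ρ:ℂ).im)) ≤ (mx ρ * (5 * (4 * M ^ (-(3/4) : ℝ) * wf (t - (ρ:ℂ).im)))) := by
              gcongr
              exact h6.trans (by linarith)
          _ = _ := by ring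
      linarith [hG10 t]
  have h1 : ∫ t in (Icc a b)ᶜ, Yf F X t ≤ ∫ t in (Icc a b)ᶜ, (G1 t + G2 t) := by
    apply setIntegral_mono_on (Yf_integrable F hX0).integrableOn (iG1.add iG2).integrableOn measurableSet_Icc.compl hpt
  have h2 : ∫ t in (Icc a b)ᶜ, (G1 t + G2 t) ≤ ∫ t, (G1 t + G2 t) :=
    setIntegral_le_integral (iG1.add iG2) (Eventually.of_forall fun t => add_nonneg (hG10 t) (hG20 t))
  have h3 : ∫ t, (G1 t + G2 t) = (∫ t, G1 t) + ∫ t, G2 t := integral_add iG1 iG2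
  have h4 : ∫ t, G1 t ≤ c * (a + (T - b) + 2 * M) := by
    rw [hG1, integral_indicator hSm, setIntegral_const, smul_eq_mul, mul_comm]
    have h5 : volume.real S ≤ a + (T - b) + 2 * M := by
      rw [hS]
      refine (measureReal_union_le _ _).trans ?_
      rw [Real.volume_real_Icc_of_le (by linarith), Real.volume_real_Icc_of_le (by linarith)]
      linarith
    gcongr
  have h5 : ∫ t, G2 t = 20 * M ^ (-(3/4) : ℝ) * (∑ ρ ∈ F, mx ρ) * C1 := by
    rw [hG2, integral_finsetSum]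
    · have e1 : ∀ ρ : ZS, ∫ t, ((20 * M ^ (-(3/4) : ℝ)) * mx ρ) * wf (t - (ρ:ℂ).im) = ((20 * M ^ (-(3/4) : ℝ)) * C1) * mx ρ := by
        intro ρ
        rw [integral_const_mul]
        have e2 : ∫ t, wf (t - (ρ:ℂ).im) = C1 := integral_sub_right_eq_self wf (ρ:ℂ).im
        rw [e2]
        ring
      simp_rw [e1]
      rw [← Finset.mul_sum]
      ring
    · intro ρ _
      exact (wf_integrable.comp_sub_right _).const_mul _
  linarith

end Pool.Agent.Helper57.LS
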