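import Pool.Agent.Helper57.LS.AllG

namespace Pool.Agent.Helper57.LS

open Set MeasureTheory Filter Topology
open Pool.Agent.Helper57.LH
open Pool.Agent.Helper57.Zeta
open Pool.Agent.Helper57.PC
open Pool.Agent.Helper4.PC (gh gh_integrable CT_gh EE KernelLaw Gs_integrable WP_shift Gm_lower EE_add EE_smul phiF_int pcDensity_measurable)
open scoped SchwartzMap FourierTransform

/-- pointwise domination by one kernel controls the deviation, uniformly in everything -/
theorem dom_unif : ∃ D : ℝ, 0 < D ∧ ∀ᶠ T : ℝ in atTop, ∀ B : ℝ, 0 < B → ∀ v c : ℝ, 0 ≤ c → ∀ φ : ℝ → ℝ, AEStronglyMeasurable φ volume →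
    (∀ u, |φ u| ≤ c * (1 + ((u - v) / B) ^ 2)⁻¹) → |EE T φ| ≤ D * c * (1 + B) * SN T := by
  obtain ⟨C, hC, hU⟩ := uni
  have hpi := Real.pi_pos
  refine ⟨Real.pi ^ 4 * (C + 1), by positivity, ?_⟩
  filter_upwards [hU, eventually_gt_atTop 1] with T hT hT1 B hB v c hc φ hm hφ
  have hS := SN_pos hT1
  have hdom : ∀ u, |φ u| ≤ (c * Real.pi ^ 4) * Gm ((u - v) / B) := by
    intro u
    refine (hφ u).trans ?_
    rw [mul_assoc]
    gcongr
    exact Gm_lower' _
  have hGi : Integrable (fun u => (c * Real.pi ^ 4) * Gm ((u - v) / B)) := (Gs_integrable hB v).const_mul _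
  have hφi : Integrable φ := hGi.mono' hm (Eventually.of_forall fun u => by rw [Real.norm_eq_abs]; exact hdom u)
  have h1 : |WP T φ| ≤ (c * Real.pi ^ 4) * (C * (1 + B) * SN T) := by
    have h2 : |WP T φ| ≤ WP T (fun u => (c * Real.pi ^ 4) * Gm ((u - v) / B)) := by
      unfold WP
      refine (Finset.abs_sum_le_sum_abs _ _).trans (Finset.sum_le_sum fun p _ => ?_)
      rw [abs_mul, abs_mul, Nat.abs_cast, Nat.abs_cast]
      have := hdom (nd T p)
      gcongr
    refine h2.trans ?_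
    rw [WP_smul]
    have := hT B hB v
    gcongr
  have h3 : |φ 0 + ∫ u, φ u * pcDensity u| ≤ (c * Real.pi ^ 4) * (1 + B) := by
    refine (abs_add_le _ _).trans ?_
    have h4 : |φ 0| ≤ (c * Real.pi ^ 4) * 1 := by
      refine (hdom 0).trans ?_
      gcongr
      exact (Gm_le _).trans Pool.Agent.Helper4.PC.Gm_zero_le_one
    have h5 : |∫ u, φ u * pcDensity u| ≤ (c * Real.pi ^ 4) * B := by
      calc |∫ u, φ u * pcDensity u| ≤ ∫ u, |φ u * pcDensity u| := abs_integral_le_integral_abs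
        _ ≤ ∫ u, (c * Real.pi ^ 4) * Gm ((u - v) / B) := by
            apply integral_mono (phiF_int hφi).abs hGi
            intro u
            simp only
            rw [abs_mul, abs_of_nonneg (pcDensity_nonneg u)]
            exact (mul_le_of_le_one_right (abs_nonneg _) (pcDensity_le_one u)).trans (hdom u)
        _ = (c * Real.pi ^ 4) * B := by rw [integral_const_mul, Gs_integral hB]
    linarith
  unfold EE
  refine (abs_sub _ _).trans ?_
  rw [abs_mul, abs_of_pos hS]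
  have h6 : SN T * |φ 0 + ∫ u, φ u * pcDensity u| ≤ SN T * ((c * Real.pi ^ 4) * (1 + B)) := by gcongr
  calc |WP T φ| + SN T * |φ 0 + ∫ u, φ u * pcDensity u| ≤ (c * Real.pi ^ 4) * (C * (1 + B) * SN T) + SN T * ((c * Real.pi ^ 4) * (1 + B)) := add_le_add h1 h6
    _ = _ := by ring

lemma sch_bound (g : 𝓢(ℝ, ℝ)) : ∃ K : ℝ, 0 < K ∧ (∀ y, |g y| ≤ K * (1 + y ^ 2)⁻¹) ∧ (∀ y, |deriv g y| * (1 + |y|) ≤ K * (1 + y ^ 2)⁻¹) := by
  have h0 := g.one_add_le_sup_seminorm_apply (𝕜 := ℝ) (m := (3, 1)) (k := 3) (n := 0) le_rfl (by norm_num)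
  have h1 := g.one_add_le_sup_seminorm_apply (𝕜 := ℝ) (m := (3, 1)) (k := 3) (n := 1) le_rfl le_rfl
  set K : ℝ := 2 ^ 3 * ((Finset.Iic (3, 1)).sup fun m => SchwartzMap.seminorm ℝ m.1 m.2) g with hK
  have hK0 : 0 ≤ K := by positivity
  refine ⟨K + 1, by positivity, fun y => ?_, fun y => ?_⟩
  · have h := h0 y
    rw [norm_iteratedFDeriv_zero, Real.norm_eq_abs, Real.norm_eq_abs] at h
    rw [← div_eq_mul_inv, le_div_iff₀ (by positivity)]
    have h2 : 1 + y ^ 2 ≤ (1 + |y|) ^ 3 := by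
      have := abs_nonneg y
      have h3 := sq_abs y
      nlinarith [pow_nonneg this 3]
    calc |g y| * (1 + y ^ 2) ≤ |g y| * (1 + |y|) ^ 3 := by gcongr
      _ = (1 + |y|) ^ 3 * |g y| := mul_comm _ _
      _ ≤ K := h
      _ ≤ K + 1 := by linarith
  · have h := h1 y
    rw [norm_iteratedFDeriv_eq_norm_iteratedDeriv, iteratedDeriv_one, Real.norm_eq_abs, Real.norm_eq_abs] at h
    rw [← div_eq_mul_inv, le_div_iff₀ (by positivity)]
    have h2 : 1 + y ^ 2 ≤ (1 + |y|) ^ 2 := by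
      have := abs_nonneg y
      have h3 := sq_abs y
      nlinarith
    calc |deriv g y| * (1 + |y|) * (1 + y ^ 2) ≤ |deriv g y| * (1 + |y|) * (1 + |y|) ^ 2 := by gcongr
      _ = (1 + |y|) ^ 3 * |deriv g y| := by ring
      _ ≤ K := h
      _ ≤ K + 1 := by linarith

/-- moving the parameters -/
lemma move {g : 𝓢(ℝ, ℝ)} {K : ℝ} (hK : 0 < K) (hg : ∀ y, |deriv g y| * (1 + |y|) ≤ K * (1 + y ^ 2)⁻¹) {A δ : ℝ} (hδ : 0 ≤ δ)
    {R R' s s' : ℝ} (h1 : 1 ≤ R) (h1' : 1 ≤ R') (h2 : R ≤ A) (h2' : R' ≤ A) (hs : |s| ≤ A) (hs' : |s'| ≤ A) (hR : |R' - R| ≤ δ) (hss : |s' - s| ≤ δ) (u : ℝ) :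
    |g ((u - s) / R) - g ((u - s') / R')| ≤ (3 * K * δ) * (1 + ((u - 0) / A) ^ 2)⁻¹ := by
  set S : ℝ → ℝ := fun θ => s + θ * (s' - s) with hS
  set P : ℝ → ℝ := fun θ => R + θ * (R' - R) with hP
  have hP1 : ∀ θ ∈ Icc (0:ℝ) 1, 1 ≤ P θ := by
    intro θ hθ
    rw [hP]
    simp only
    nlinarith [mul_nonneg hθ.1 (by linarith : 0 ≤ R' - 1), mul_nonneg (by linarith [hθ.2] : 0 ≤ 1 - θ) (by linarith : 0 ≤ R - 1)]
  have hP2 : ∀ θ ∈ Icc (0:ℝ) 1, P θ ≤ A := by
    intro θ hθ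
    rw [hP]
    simp only
    nlinarith [mul_nonneg hθ.1 (by linarith : 0 ≤ A - R'), mul_nonneg (by linarith [hθ.2] : 0 ≤ 1 - θ) (by linarith : 0 ≤ A - R)]
  have hS1 : ∀ θ ∈ Icc (0:ℝ) 1, |S θ| ≤ A := by
    intro θ hθ
    rw [abs_le] at hs hs' ⊢
    rw [hS]
    simp only
    constructor
    · nlinarith [mul_nonneg hθ.1 (by linarith : 0 ≤ A + s'), mul_nonneg (by linarith [hθ.2] : 0 ≤ 1 - θ) (by linarith : 0 ≤ A + s)]
    · nlinarith [mul_nonneg hθ.1 (by linarith : 0 ≤ A - s'), mul_nonneg (by linarith [hθ.2] : 0 ≤ 1 - θ) (by linarith : 0 ≤ A - s)]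
  have hA : 0 < A := by linarith
  have hder : ∀ θ ∈ Icc (0:ℝ) 1, HasDerivWithinAt (fun θ => g ((u - S θ) / P θ))
      (deriv g ((u - S θ) / P θ) * ((-(s' - s) * P θ - (u - S θ) * (R' - R)) / P θ ^ 2)) (Icc 0 1) θ := by
    intro θ hθ
    have hp : P θ ≠ 0 := by have := hP1 θ hθ; linarith
    have d1 : HasDerivAt (fun θ => u - S θ) (-(s' - s)) θ := by
      have : HasDerivAt S (s' - s) θ := by
        rw [hS]
        simpa using ((hasDerivAt_id θ).mul_const (s' - s)).const_add s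
      simpa using this.const_sub u
    have d2 : HasDerivAt P (R' - R) θ := by
      rw [hP]
      simpa using ((hasDerivAt_id θ).mul_const (R' - R)).const_add R
    have d3 := d1.div d2 hp
    have d4 : HasDerivAt g (deriv g ((u - S θ) / P θ)) ((u - S θ) / P θ) := (g.differentiable _).hasDerivAt
    exact (d4.comp θ d3).hasDerivWithinAt
  have hbd : ∀ θ ∈ Icc (0:ℝ) 1, ‖deriv g ((u - S θ) / P θ) * ((-(s' - s) * P θ - (u - S θ) * (R' - R)) / P θ ^ 2)‖ ≤ (3 * K * δ) * (1 + ((u - 0) / A) ^ 2)⁻¹ := by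
    intro θ hθ
    have p1 := hP1 θ hθ
    have p2 := hP2 θ hθ
    have p3 := hS1 θ hθ
    have p0 : 0 < P θ := by linarith
    set y : ℝ := (u - S θ) / P θ with hy
    have e1 : (-(s' - s) * P θ - (u - S θ) * (R' - R)) / P θ ^ 2 = (-(s' - s) - y * (R' - R)) / P θ := by
      rw [hy]
      field_simp
    have e2 : |(-(s' - s) * P θ - (u - S θ) * (R' - R)) / P θ ^ 2| ≤ δ * (1 + |y|) := by
      rw [e1, abs_div, abs_of_pos p0]
      have e3 : |(-(s' - s) - y * (R' - R))| ≤ δ + |y| * δ := by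
        refine (abs_sub _ _).trans ?_
        rw [abs_neg, abs_mul]
        gcongr
      calc |(-(s' - s) - y * (R' - R))| / P θ ≤ |(-(s' - s) - y * (R' - R))| / 1 := by gcongr
        _ ≤ (δ + |y| * δ) / 1 := by gcongr
        _ = _ := by ring
    have e4 : (1 + y ^ 2)⁻¹ ≤ 3 * (1 + ((u - 0) / A) ^ 2)⁻¹ := by
      rw [← div_eq_mul_inv, inv_le_comm₀ (by positivity) (by positivity), inv_div]
      have e5 : |u - S θ| / A ≤ |y| := by
        rw [hy, abs_div, abs_of_pos p0]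
        gcongr
      have e6 : |(u - 0) / A| ≤ |y| + 1 := by
        rw [abs_div, abs_of_pos hA, sub_zero]
        have e7 : |u| ≤ |u - S θ| + |S θ| := by
          calc |u| = |(u - S θ) + S θ| := by ring_nf
            _ ≤ _ := abs_add_le _ _
        calc |u| / A ≤ (|u - S θ| + A) / A := by gcongr; linarith
          _ = |u - S θ| / A + 1 := by field_simp
          _ ≤ _ := by linarith
      have e8 : ((u - 0) / A) ^ 2 ≤ (|y| + 1) ^ 2 := by
        rw [← sq_abs ((u - 0) / A)]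
        gcongr
      have e9 := sq_abs y
      have e10 : 2 * |y| ≤ 1 + |y| ^ 2 := by nlinarith [sq_nonneg (|y| - 1)]
      rw [div_le_iff₀ (by norm_num)]
      nlinarith
    rw [norm_mul, Real.norm_eq_abs, Real.norm_eq_abs]
    have e11 := hg y
    calc |deriv g y| * |(-(s' - s) * P θ - (u - S θ) * (R' - R)) / P θ ^ 2| ≤ |deriv g y| * (δ * (1 + |y|)) := by gcongr
      _ = δ * (|deriv g y| * (1 + |y|)) := by ring
      _ ≤ δ * (K * (1 + y ^ 2)⁻¹) := by gcongr
      _ ≤ δ * (K * (3 * (1 + ((u - 0) / A) ^ 2)⁻¹)) := by gcongr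
      _ = _ := by ring
  have h := Convex.norm_image_sub_le_of_norm_hasDerivWithin_le hder hbd (convex_Icc 0 1) (left_mem_Icc.mpr zero_le_one) (right_mem_Icc.mpr zero_le_one)
  rw [sub_zero (1:ℝ), norm_one, mul_one, Real.norm_eq_abs, abs_sub_comm] at h
  rw [hS, hP] at h
  simp only [zero_mul, add_zero, one_mul, add_sub_cancel] at h
  exact h

/-- Locally uniform large scale law. -/
theorem large_scale_unif (g : 𝓢(ℝ, ℝ)) : ∃ C : ℝ, 0 < C ∧ ∀ A : ℝ, ∀ᶠ T : ℝ in atTop, ∀ R : ℝ, 0 < R → R ≤ A → ∀ s : ℝ, |s| ≤ A →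
    |EE T (fun u => g ((u - s) / R))| ≤ C / R ^ 2 * SN T := by
  obtain ⟨C₀, hC₀⟩ := large_scale_all g
  obtain ⟨D, hD, hdom⟩ := dom_unif
  obtain ⟨K, hK, hg0, hg1⟩ := sch_bound g
  set C₁ : ℝ := |C₀| with hC₁
  have hC₁0 : 0 ≤ C₁ := abs_nonneg _
  refine ⟨4 * C₁ + 1 + D * K * 2, by positivity, fun A => ?_⟩
  rcases lt_or_ge A 1 with hA1 | hA1
  · -- only small scales
    filter_upwards [hdom, eventually_gt_atTop 1] with T hT hT1 R hR hRA s _
    have hS := SN_pos hT1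
    have h := hT R hR s K hK.le (fun u => g ((u - s) / R)) (g.continuous.comp (by fun_prop)).aestronglyMeasurable (fun u => hg0 _)
    refine h.trans ?_
    gcongr
    rw [le_div_iff₀ (by positivity)]
    have hR1 : R ≤ 1 := by linarith
    have hR2 : R ^ 2 ≤ 1 := by nlinarith
    calc D * K * (1 + R) * R ^ 2 ≤ D * K * (1 + 1) * 1 := by gcongr
      _ ≤ _ := by nlinarith
  -- the grid
  set δ : ℝ := min (1 / 2) (1 / (A ^ 2 * (D * (3 * K) * (1 + A)))) with hδ
  have hA0 : 0 < A := by linarith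
  have hδ0 : 0 < δ := by rw [hδ]; positivity
  have hδ1 : δ ≤ 1 / 2 := min_le_left _ _
  have hδ2 : D * (3 * K * δ) * (1 + A) ≤ 1 / A ^ 2 := by
    have h : δ ≤ 1 / (A ^ 2 * (D * (3 * K) * (1 + A))) := min_le_right _ _
    calc D * (3 * K * δ) * (1 + A) = (D * (3 * K) * (1 + A)) * δ := by ring
      _ ≤ (D * (3 * K) * (1 + A)) * (1 / (A ^ 2 * (D * (3 * K) * (1 + A)))) := by gcongr
      _ = 1 / A ^ 2 := by field_simp
  set N : ℕ := ⌈2 * A / δ⌉₊ + 1 with hN
  have hgrid : ∀ᶠ T : ℝ in atTop, ∀ i ∈ Finset.range N, ∀ j ∈ Finset.range N,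
      |EE T (fun u => g ((u - (-A + δ * j)) / (1 + δ * i)))| ≤ C₀ / (1 + δ * i) ^ 2 * SN T := by
    rw [Filter.eventually_all_finset]
    intro i _
    rw [Filter.eventually_all_finset]
    intro j _
    exact hC₀ (1 + δ * i) (by positivity) (-A + δ * j)
  filter_upwards [hgrid, hdom, eventually_gt_atTop 1] with T hT hT2 hT1 R hR hRA s hs
  have hS := SN_pos hT1
  rcases lt_or_ge R 1 with hR1 | hR1
  · have h := hT2 R hR s K hK.le (fun u => g ((u - s) / R)) (g.continuous.comp (by fun_prop)).aestronglyMeasurable (fun u => hg0 _)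
    refine h.trans ?_
    gcongr
    rw [le_div_iff₀ (by positivity)]
    have hR2 : R ^ 2 ≤ 1 := by nlinarith
    calc D * K * (1 + R) * R ^ 2 ≤ D * K * (1 + 1) * 1 := by gcongr
      _ ≤ _ := by nlinarith
  · -- nearest grid points
    have hs' := abs_le.mp hs
    set i : ℕ := ⌊(R - 1) / δ⌋₊ with hi
    set j : ℕ := ⌊(s + A) / δ⌋₊ with hj
    have i0 : 0 ≤ (R - 1) / δ := div_nonneg (by linarith) hδ0.le
    have j0 : 0 ≤ (s + A) / δ := div_nonneg (by linarith) hδ0.le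
    have i1 := Nat.floor_le i0
    have i2 := Nat.lt_floor_add_one ((R - 1) / δ)
    have j1 := Nat.floor_le j0
    have j2 := Nat.lt_floor_add_one ((s + A) / δ)
    rw [← hi] at i1 i2
    rw [← hj] at j1 j2
    rw [le_div_iff₀ hδ0] at i1 j1
    rw [div_lt_iff₀ hδ0] at i2 j2
    have hN2 : 2 * A / δ ≤ ((⌈2 * A / δ⌉₊ : ℕ) : ℝ) := Nat.le_ceil _
    rw [div_le_iff₀ hδ0] at hN2
    have hiN : i < N := by
      have : (i : ℝ) * δ < (N : ℝ) * δ := by
        rw [hN]; push_cast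
        nlinarith
      exact_mod_cast lt_of_mul_lt_mul_right this hδ0.le
    have hjN : j < N := by
      have : (j : ℝ) * δ < (N : ℝ) * δ := by
        rw [hN]; push_cast
        nlinarith
      exact_mod_cast lt_of_mul_lt_mul_right this hδ0.le
    have hg := hT i (Finset.mem_range.mpr hiN) j (Finset.mem_range.mpr hjN)
    set R' : ℝ := 1 + δ * i with hR'
    set s' : ℝ := -A + δ * j with hs'd
    have hR'1 : 1 ≤ R' := by rw [hR']; have : 0 ≤ δ * (i:ℝ) := by positivity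
                             linarith
    have hR'2 : R' ≤ R := by rw [hR']; linarith
    have hR'3 : R - δ ≤ R' := by rw [hR']; linarith
    have hs'1 : s' ≤ s := by rw [hs'd]; linarith
    have hs'2 : s - δ ≤ s' := by rw [hs'd]; linarith
    have hs'3 : |s'| ≤ A := by
      rw [abs_le]
      constructor
      · rw [hs'd]; have : 0 ≤ δ * (j:ℝ) := by positivity
        linarith
      · linarith
    have hmove := move hK hg1 (A := A) hδ0.le hR1 hR'1 hRA (by linarith) hs hs'3 (by rw [abs_le]; constructor <;> linarith) (by rw [abs_le]; constructor <;> linarith)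
    have hdiff := hT2 A hA0 0 (3 * K * δ) (by positivity) (fun u => g ((u - s) / R) - g ((u - s') / R'))
      ((g.continuous.comp (by fun_prop)).sub (g.continuous.comp (by fun_prop))).aestronglyMeasurable hmove
    have hR'0 : 0 < R' := by linarith
    have hsum : EE T (fun u => g ((u - s) / R)) = EE T (fun u => g ((u - s) / R) - g ((u - s') / R')) + EE T (fun u => g ((u - s') / R')) := by
      have hadd := EE_add T (φ := fun u => g ((u - s) / R) - g ((u - s') / R')) (ψ := fun u => g ((u - s') / R'))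
        ((sch_comp_int g hR s).sub (sch_comp_int g hR'0 s')) (sch_comp_int g hR'0 s')
      rw [← hadd]
      congr 1
      funext u
      ring
    rw [hsum]
    refine (abs_add_le _ _).trans ?_
    have f1 : D * (3 * K * δ) * (1 + A) * SN T ≤ 1 / R ^ 2 * SN T := by
      refine mul_le_mul_of_nonneg_right ?_ hS.le
      refine hδ2.trans ?_
      gcongr
    have f2 : C₀ / R' ^ 2 * SN T ≤ 4 * C₁ / R ^ 2 * SN T := by
      refine mul_le_mul_of_nonneg_right ?_ hS.le
      have f3 : R / 2 ≤ R' := by linarith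
      calc C₀ / R' ^ 2 ≤ C₁ / R' ^ 2 := by gcongr; exact le_abs_self _
        _ ≤ C₁ / (R / 2) ^ 2 := by gcongr
        _ = 4 * C₁ / R ^ 2 := by field_simp; ring
    have f4 : (4 * C₁ + 1 + D * K * 2) / R ^ 2 * SN T = 1 / R ^ 2 * SN T + 4 * C₁ / R ^ 2 * SN T + D * K * 2 / R ^ 2 * SN T := by ring
    rw [f4]
    have f5 : 0 ≤ D * K * 2 / R ^ 2 * SN T := by positivity
    linarith

end Pool.Agent.Helper57.LS
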